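import Mathlib

/-! Project BZ (MP_717513_nt, Buzzard's question, part A: modular forms side).
Basic definitions. `U n` is the matrix of the operator U_2 on the weight 4n forms of level 2,
in the basis `x^(n-j) y^j` (column j = image of `x^(n-j) y^j`). -/

set_option autoImplicit false

namespace Pool.Agent.Helper59.BZ

open UpperHalfPlane Complex
open scoped MatrixGroups ModularForm

/-- Entry (i, j) of the matrix of U_2 on Sym^n(x, y). -/
noncomputable def Uent (n i j : ℕ) : ℚ :=
  if 2 * i < j then 0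
  else if j = 2 * i then 1
  else (-1) ^ j * 2 ^ (8 * i - 4 * j - 1) * (2 * (n : ℚ) - 3 * (j : ℚ)) *
    (∏ t ∈ Finset.range (2 * i - j - 1), ((n : ℚ) + i - 2 * j - (t + 1))) /
      (Nat.factorial (2 * i - j) : ℚ)

/-- The matrix of U_2 on Sym^n(x, y), the forms of weight 4n for Gamma_0(2). -/
noncomputable def U (n : ℕ) : Matrix (Fin (n + 1)) (Fin (n + 1)) ℚ :=
  Matrix.of fun i j => Uent n i j

/-- theta_3^4 -/
noncomputable def ta (z : ℂ) : ℂ := jacobiTheta z ^ 4

/-- theta_4^4 -/
noncomputable def tb (z : ℂ) : ℂ := jacobiTheta (z + 1) ^ 4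

/-- theta_2^4, defined as a difference -/
noncomputable def tc (z : ℂ) : ℂ := ta z - tb z

/-- modular forms of level one and weight k -/
abbrev M (k : ℕ) := ModularForm 𝒮ℒ (k : ℤ)

/-- m-th coefficient of the q-expansion -/
noncomputable def cf {k : ℕ} (f : M k) (m : ℕ) : ℂ := (qExpansion 1 f).coeff m

/-- a form as a function of a complex variable (only the values at im z > 0 matter) -/
noncomputable def ex {k : ℕ} (f : M k) (z : ℂ) : ℂ := f (ofComplex z)

/-- the Hecke operator T_l, weight k, on functions of a complex variable -/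
noncomputable def hec (k l : ℕ) (F : ℂ → ℂ) (z : ℂ) : ℂ :=
  (l : ℂ) ^ (k - 1) * F ((l : ℂ) * z) +
    (l : ℂ)⁻¹ * ∑ j ∈ Finset.range l, F ((z + j) / l)

/-- the homogeneous polynomial of degree n with coefficient vector v -/
def H {n : ℕ} {R : Type*} [CommRing R] (v : Fin (n + 1) → R) (X Y : R) : R :=
  ∑ j : Fin (n + 1), v j * X ^ (n - (j : ℕ)) * Y ^ (j : ℕ)

/-- the level one form attached to the level two form H v (x, y) -/
noncomputable def fF {n : ℕ} (v : Fin (n + 1) → ℂ) (z : ℂ) : ℂ :=
  H v (tc z ^ 2 / 4) (ta z * tb z / 64) + H v (tb z ^ 2 / 4) (ta z * tc z / 64) +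
    H v (ta z ^ 2 / 4) (-(tb z * tc z) / 64)

end Pool.Agent.Helper59.BZ
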