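import Pool.Agent.Helper59.BZ.Defs

/-! BZ-BAS. Level one forms of weight 4n are spanned by forms with rational q-expansion.

PROOF. Let R k = {f : M k with all cf f m rational}. It is closed under addition and rational
multiples, and products: if f in R k, g in R k' then f.mul g (cast) is in R (k+k')
(`ModularForm.qExpansion_mul`). E₄ in R 4 and E₆ in R 6 (`E_qExpansion_coeff`,
`E_qExpansion_coeff_zero`: Bernoulli numbers and divisor sums), so the coefficients of the
discriminant are rational (`ModularForm.discriminant_eq_E₄_cube_sub_E₆_sq`: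
Delta = (E₄^3 - E₆^2)/1728).
Claim by strong induction on n: every f : M (4n) is in the ℂ-span of R (4n). n = 0: constants
(`ModularFormClass.levelOne_weight_zero_const` or `levelOne_weight_zero_rank_one`).
n >= 1: let g = f - (cf f 0) E₄^n (E₄^n has constant coefficient 1 and is in R (4n)). cf g 0 = 0,
so g is a cusp form (`toCuspForm`) and g = Delta * h with h : ModularForm 𝒮ℒ (4n - 12)
(`CuspForm.discriminantEquiv`, `qExpansion_eq_qExpansion_discriminant_mul`). If 4n < 12 then h = 0
(`levelOne_neg_weight_rank_zero`). If 4n >= 12, h is in the span of R (4(n-3)) by induction and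
multiplication by Delta (`CuspForm.ofMulDiscriminant`, or the inverse of discriminantEquiv, is
linear) maps R (4(n-3)) into R (4n).
(Casts: 4n - 12 = 4(n-3); `ModularForm.mcast`.) -/

set_option autoImplicit false

namespace Pool.Agent.Helper59.BZ

open UpperHalfPlane Complex Filter Topology
open scoped MatrixGroups ModularForm

private theorem rt_iff (p : PowerSeries ℂ) :
    (∀ m, ∃ q : ℚ, p.coeff m = (q : ℂ)) ↔ p ∈ (PowerSeries.map (algebraMap ℚ ℂ)).range := by
  constructor
  · intro h
    choose q hq using h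
    refine ⟨PowerSeries.mk q, ?_⟩
    ext m
    simp [hq]
  · rintro ⟨r, rfl⟩ m
    exact ⟨r.coeff m, by simp⟩

private theorem E_rat {k : ℕ} (hk : 3 ≤ k) (hk2 : Even k) :
    (qExpansion 1 (ModularForm.E hk)) ∈ (PowerSeries.map (algebraMap ℚ ℂ)).range := by
  rw [← rt_iff]
  intro m
  rw [EisensteinSeries.E_qExpansion_coeff hk hk2 m]
  by_cases hm : m = 0
  · exact ⟨1, by simp [hm]⟩
  · refine ⟨-(2 * k / bernoulli k : ℚ) * (ArithmeticFunction.sigma (k - 1) m : ℚ), ?_⟩
    rw [if_neg hm]
    push_cast
    rfl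

theorem E4_rat (m : ℕ) :
    ∃ q : ℚ, (qExpansion 1 ModularForm.E₄).coeff m = (q : ℂ) :=
  (rt_iff _).2 (E_rat _ ⟨2, rfl⟩) m

private theorem disc_rat' :
    (qExpansion 1 ModularForm.discriminant) ∈ (PowerSeries.map (algebraMap ℚ ℂ)).range := by
  set F : ModularForm 𝒮ℒ 12 :=
    ModularForm.mcast (by decide) (ModularForm.E₄.pow 3) - ModularForm.mcast (by decide) (ModularForm.E₆.pow 2) with hF
  have hFq : qExpansion 1 F = qExpansion 1 ModularForm.E₄ ^ 3 - qExpansion 1 ModularForm.E₆ ^ 2 := by
    simp only [hF, FunLike.coe_sub, ModularForm.coe_mcast,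
      ModularForm.qExpansion_sub one_pos one_mem_strictPeriods_SL,
      ModularForm.qExpansion_pow one_pos one_mem_strictPeriods_SL]
  have hfun : ModularForm.discriminant = ((1 / 1728 : ℂ) • F : ℍ → ℂ) := by
    funext z
    rw [ModularForm.discriminant_eq_E₄_cube_sub_E₆_sq z]
    simp only [hF, Pi.smul_apply, sub_apply, ModularForm.coe_mcast, ModularForm.coe_pow, Pi.pow_apply, smul_eq_mul]
    ring
  rw [hfun, ModularForm.qExpansion_smul one_pos one_mem_strictPeriods_SL, hFq]
  have h4 := E_rat (k := 4) (by norm_num) ⟨2, rfl⟩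
  have h6 := E_rat (k := 6) (by norm_num) ⟨3, rfl⟩
  have h1 := sub_mem (pow_mem h4 3) (pow_mem h6 2)
  obtain ⟨r, hr⟩ := h1
  refine ⟨(1 / 1728 : ℚ) • r, ?_⟩
  rw [← hr]
  ext m
  simp

theorem disc_rat (m : ℕ) :
    ∃ q : ℚ, (qExpansion 1 ModularForm.discriminant).coeff m = (q : ℂ) :=
  (rt_iff _).2 disc_rat' m

/-- multiplication by the discriminant -/
private noncomputable def Phi (k : ℕ) : M (4 * k) →ₗ[ℂ] M (4 * (k + 3)) where
  toFun h := ModularForm.mcast (by push_cast; ring) ((CuspForm.toModularFormₗ CuspForm.discriminant).mul h)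
  map_add' f g := by
    ext z
    simp [mul_add]
  map_smul' c f := by
    ext z
    simp
    ring

private theorem Phi_apply (k : ℕ) (h : M (4 * k)) (z : ℍ) : Phi k h z = ModularForm.discriminant z * h z := rfl

private theorem Phi_q (k : ℕ) (h : M (4 * k)) :
    qExpansion 1 (Phi k h) = qExpansion 1 ModularForm.discriminant * qExpansion 1 h :=
  ModularForm.qExpansion_mul_coe one_pos one_mem_strictPeriods_SL CuspForm.discriminant h

theorem rat_span (n : ℕ) :
    Submodule.span ℂ {f : M (4 * n) | ∀ m, ∃ q : ℚ, cf f m = (q : ℂ)} = ⊤ := by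
  induction n using Nat.strong_induction_on with
  | _ n ih =>
  rw [eq_top_iff]
  rintro f -
  let g : M (4 * n) := ModularForm.mcast (by push_cast; ring) (ModularForm.E₄.pow n)
  have hgq : qExpansion 1 g = qExpansion 1 ModularForm.E₄ ^ n := by
    simp only [g, ModularForm.coe_mcast, ModularForm.qExpansion_pow one_pos one_mem_strictPeriods_SL]
  have hg0 : (qExpansion 1 g).coeff 0 = 1 := by
    rw [hgq]
    have h1 := EisensteinSeries.E_qExpansion_coeff_zero (k := 4) (by norm_num) ⟨2, rfl⟩
    rw [PowerSeries.coeff_zero_eq_constantCoeff_apply] at h1 ⊢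
    rw [map_pow, h1, one_pow]
  have hgmem : g ∈ Submodule.span ℂ {f : M (4 * n) | ∀ m, ∃ q : ℚ, cf f m = (q : ℂ)} := by
    refine Submodule.subset_span ?_
    show ∀ m, ∃ q : ℚ, (qExpansion 1 g).coeff m = (q : ℂ)
    rw [rt_iff, hgq]
    exact pow_mem (E_rat (k := 4) (by norm_num) ⟨2, rfl⟩) n
  set c := (qExpansion 1 f).coeff 0 with hc
  have h0 : (qExpansion 1 (f - c • g : M (4 * n))).coeff 0 = 0 := by
    have := ModularForm.sub_smul_isCuspForm f g hg0
    rwa [ModularForm.isCuspForm_iff_coeffZero_eq_zero] at this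
  suffices hs : f - c • g ∈ Submodule.span ℂ {f : M (4 * n) | ∀ m, ∃ q : ℚ, cf f m = (q : ℂ)} by
    have := add_mem hs (Submodule.smul_mem _ c hgmem)
    rwa [sub_add_cancel] at this
  set f' : M (4 * n) := f - c • g with hf'
  set h := CuspForm.discriminantEquiv (ModularForm.toCuspForm f' h0) with hh
  have hval : ∀ z : ℍ, ModularForm.discriminant z * h z = f' z := fun z =>
    ModularForm.discriminant_mul_discriminantEquiv_apply (ModularForm.toCuspForm f' h0) z
  rcases lt_or_ge n 3 with hn | hn
  · have hz : h = 0 := by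
      refine rank_zero_iff_forall_zero.mp (ModularForm.levelOne_neg_weight_rank_zero ?_) h
      push_cast
      omega
    have hf0 : f' = 0 := by
      ext z
      rw [← hval z, hz]
      simp
    rw [hf0]
    exact zero_mem _
  · obtain ⟨k, rfl⟩ := Nat.exists_eq_add_of_le' hn
    let h' : M (4 * k) := ModularForm.mcast (by push_cast; ring) h
    have hPhi : f' = Phi k h' := by
      ext z
      rw [Phi_apply, ← hval z]
      rfl
    have hmem : h' ∈ Submodule.span ℂ {f : M (4 * k) | ∀ m, ∃ q : ℚ, cf f m = (q : ℂ)} := by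
      rw [ih k (by omega)]
      trivial
    rw [hPhi]
    have himg := Submodule.mem_map_of_mem (f := Phi k) hmem
    rw [Submodule.map_span] at himg
    refine Submodule.span_mono ?_ himg
    rintro _ ⟨r, hr, rfl⟩
    show ∀ m, ∃ q : ℚ, (qExpansion 1 (Phi k r)).coeff m = (q : ℂ)
    rw [rt_iff, Phi_q]
    exact mul_mem disc_rat' ((rt_iff _).1 hr)

end Pool.Agent.Helper59.BZ
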