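import Mathlib

/-! BZ-CE. Common eigenvector of a commuting family inside an eigenspace of one member
(context free linear algebra).

PROOF. The set of subspaces W of V with W not 0, W contained in the eigenspace of T i0 for alpha
and T i W contained in W for all i in S is not empty (the eigenspace itself: it is stable because
T i commutes with T i0; it contains v0). Take W of minimal dimension (`Nat.find`, or
well-foundedness). For i in S the restriction of T i to W has an eigenvalue mu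
(`Module.End.exists_eigenvalue`, W nontrivial finite-dimensional over ℂ); the subspace
{w in W : T i w = mu w} is not 0 and stable under all T j (commutation), contained in W, so it
is W by minimality. So every T i (i in S) is a scalar on W; any nonzero v in W does it. -/

set_option autoImplicit false

namespace Pool.Agent.Helper59.BZ

private theorem ce_aux {V : Type*} [AddCommGroup V] [Module ℂ V] [FiniteDimensional ℂ V]
    (T : ℕ → V →ₗ[ℂ] V) (S : Set ℕ)
    (hc : ∀ i ∈ S, ∀ j ∈ S, ∀ v, T i (T j v) = T j (T i v)) :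
    ∀ (n : ℕ) (W : Submodule ℂ V), Module.finrank ℂ W = n → W ≠ ⊥ → (∀ i ∈ S, ∀ w ∈ W, T i w ∈ W) →
      ∃ v ∈ W, v ≠ 0 ∧ ∀ i ∈ S, ∃ μ : ℂ, T i v = μ • v := by
  intro n
  induction n using Nat.strong_induction_on with
  | _ n ih =>
    intro W hn hW hS
    by_cases hall : ∀ i ∈ S, ∃ μ : ℂ, ∀ w ∈ W, T i w = μ • w
    · obtain ⟨v, hv, hv0⟩ := W.ne_bot_iff.1 hW
      exact ⟨v, hv, hv0, fun i hi => by
        obtain ⟨μ, hμ⟩ := hall i hi
        exact ⟨μ, hμ v hv⟩⟩
    · push Not at hall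
      obtain ⟨i, hi, hns⟩ := hall
      have : Nontrivial W := Submodule.nontrivial_iff_ne_bot.2 hW
      obtain ⟨μ, hμ⟩ := Module.End.exists_eigenvalue ((T i).restrict (hS i hi))
      obtain ⟨w0, hw0⟩ := hμ.exists_hasEigenvector
      have hw1 : T i (w0 : V) = μ • (w0 : V) := by
        have h1 := congrArg (Subtype.val) hw0.apply_eq_smul
        simpa using h1
      have hw2 : (w0 : V) ≠ 0 := fun h => hw0.2 (Subtype.ext h)
      obtain ⟨w1, hw1', hne⟩ := hns μ
      let W' : Submodule ℂ V := W ⊓ LinearMap.ker (T i - μ • (LinearMap.id : V →ₗ[ℂ] V))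
      have hmem : ∀ x, x ∈ W' ↔ x ∈ W ∧ T i x = μ • x := by
        intro x
        show x ∈ W ∧ x ∈ LinearMap.ker (T i - μ • (LinearMap.id : V →ₗ[ℂ] V)) ↔ _
        rw [LinearMap.mem_ker, LinearMap.sub_apply, LinearMap.smul_apply, LinearMap.id_apply, sub_eq_zero]
      have hlt : W' < W := by
        refine lt_of_le_of_ne inf_le_left fun h => hne ?_
        exact ((hmem w1).1 (h ▸ hw1')).2
      have hfr : Module.finrank ℂ W' < n := by
        rw [← hn]
        exact Submodule.finrank_lt_finrank_of_lt hlt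
      have hW' : W' ≠ ⊥ := W'.ne_bot_iff.2 ⟨w0, (hmem _).2 ⟨w0.2, hw1⟩, hw2⟩
      obtain ⟨v, hv, hv0, h1⟩ := ih _ hfr W' rfl hW' (fun j hj w hw => by
        obtain ⟨h2, h3⟩ := (hmem w).1 hw
        refine (hmem _).2 ⟨hS j hj w h2, ?_⟩
        rw [hc i hi j hj, h3, map_smul])
      exact ⟨v, ((hmem v).1 hv).1, hv0, h1⟩

theorem common_eig {V : Type*} [AddCommGroup V] [Module ℂ V] [FiniteDimensional ℂ V]
    (T : ℕ → V →ₗ[ℂ] V) (S : Set ℕ)
    (hc : ∀ i ∈ S, ∀ j ∈ S, ∀ v, T i (T j v) = T j (T i v)) (i0 : ℕ) (hi0 : i0 ∈ S) (α : ℂ)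
    (v0 : V) (hv0 : v0 ≠ 0) (h0 : T i0 v0 = α • v0) :
    ∃ v : V, v ≠ 0 ∧ T i0 v = α • v ∧ ∀ i ∈ S, ∃ μ : ℂ, T i v = μ • v := by
  let W : Submodule ℂ V := LinearMap.ker (T i0 - α • (LinearMap.id : V →ₗ[ℂ] V))
  have hmem : ∀ x, x ∈ W ↔ T i0 x = α • x := by
    intro x
    rw [LinearMap.mem_ker, LinearMap.sub_apply, LinearMap.smul_apply, LinearMap.id_apply, sub_eq_zero]
  obtain ⟨v, hv, hv0, h1⟩ := ce_aux T S hc _ W rfl (W.ne_bot_iff.2 ⟨v0, (hmem _).2 h0, hv0⟩)
    (fun j hj w hw => by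
      refine (hmem _).2 ?_
      rw [hc i0 hi0 j hj, (hmem _).1 hw, map_smul])
  exact ⟨v, hv0, (hmem v).1 hv, h1⟩

end Pool.Agent.Helper59.BZ
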