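import Pool.Agent.Helper59.BZ.Mk

/-! BZ-EIG. From a common eigenform to a normalised eigenform.

(1) `const_zero`: if cf f m = 0 for all m >= 1 and k >= 1 then f = 0: by `ex_hasSum` f is constant
(equal to cf f 0), `SlashInvariantForm.wt_eq_zero_of_eq_const` (Mathlib,
NumberTheory/ModularForms/LevelOne/Basic.lean) gives cf f 0 = 0.
(2) `cf_one_ne`: if f is not 0 and for every prime l there is mu_l with
cf f (l m) + [l | m] l^(k-1) cf f (m/l) = mu_l cf f m (all m) then cf f 1 is not 0: otherwise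
cf f m = 0 for all m >= 1 by strong induction (m = l m', l a prime factor of m:
cf f (l m') = mu_l cf f m' - [l | m'] ... cf f (m'/l) = 0), so f = 0 by (1).
(3) `eigval`: if moreover cf f 1 = 1 then mu_l = cf f l (m = 1).
(4) `cf_zero`: if cf f 0 is not 0 then (m = 0, l divides 0, 0/l = 0) mu_2 = 1 + 2^(k-1). -/

set_option autoImplicit false

namespace Pool.Agent.Helper59.BZ

open UpperHalfPlane Complex Filter Topology
open scoped MatrixGroups ModularForm

theorem const_zero {k : ℕ} (hk : 1 ≤ k) (f : M k) (h : ∀ m, 1 ≤ m → cf f m = 0) : f = 0 := by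
  have hex : ∀ z : ℂ, 0 < z.im → ex f z = cf f 0 := by
    intro z hz
    have h1 := ex_hasSum f z hz
    have h2 : HasSum (fun m : ℕ => cf f m * Complex.exp (2 * Real.pi * Complex.I * (m : ℂ) * z))
        (cf f 0 * Complex.exp (2 * Real.pi * Complex.I * ((0 : ℕ) : ℂ) * z)) := by
      refine hasSum_single 0 ?_
      intro m hm
      rw [h m (Nat.one_le_iff_ne_zero.mpr hm), zero_mul]
    have h3 := h1.unique h2
    rw [h3]
    simp
  have hval : ∀ τ : ℍ, f τ = cf f 0 := by
    intro τ
    have := hex (τ : ℂ) τ.2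
    rw [← this]
    simp [ex, ofComplex_apply]
  have hc : ⇑f = Function.const _ (cf f 0) := by
    funext τ
    exact hval τ
  rcases SlashInvariantForm.wt_eq_zero_of_eq_const (k : ℤ) hc with h0 | h0
  · exfalso
    have : k = 0 := by exact_mod_cast h0
    omega
  · ext τ
    rw [hval τ, h0]
    rfl

theorem cf_one_ne {k : ℕ} (hk : 1 ≤ k) (f : M k) (hf : f ≠ 0) (mu : ℕ → ℂ)
    (h : ∀ l : ℕ, l.Prime → ∀ m : ℕ,
      cf f (l * m) + (if l ∣ m then (l : ℂ) ^ (k - 1) * cf f (m / l) else 0) =
        mu l * cf f m) :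
    cf f 1 ≠ 0 := by
  intro h1
  apply hf
  apply const_zero hk f
  intro m
  induction m using Nat.strong_induction_on with
  | _ m ih =>
    intro hm
    rcases Nat.eq_or_lt_of_le hm with hm1 | hm1
    · rw [← hm1]
      exact h1
    · obtain ⟨l, hl, m', rfl⟩ := Nat.exists_prime_and_dvd (Nat.ne_of_gt hm1)
      have hm'0 : m' ≠ 0 := by
        rintro rfl
        simp at hm
      have hm'1 : 1 ≤ m' := Nat.one_le_iff_ne_zero.mpr hm'0
      have hlt : m' < l * m' := by
        have := hl.two_le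
        nlinarith
      have e := h l hl m'
      rw [ih m' hlt hm'1, mul_zero] at e
      by_cases hd : l ∣ m'
      · rw [if_pos hd] at e
        obtain ⟨m'', rfl⟩ := hd
        have h0 : m'' ≠ 0 := by
          rintro rfl
          simp at hm'0
        have hq : l * m'' / l = m'' := Nat.mul_div_cancel_left m'' hl.pos
        rw [hq] at e
        have hlt2 : m'' < l * (l * m'') := by
          have := hl.two_le
          have h3 : 1 ≤ m'' := Nat.one_le_iff_ne_zero.mpr h0
          nlinarith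
        rw [ih m'' hlt2 (Nat.one_le_iff_ne_zero.mpr h0), mul_zero, add_zero] at e
        exact e
      · rw [if_neg hd, add_zero] at e
        exact e

theorem eigval {k : ℕ} (f : M k) (h1 : cf f 1 = 1) (mu : ℕ → ℂ)
    (h : ∀ l : ℕ, l.Prime → ∀ m : ℕ,
      cf f (l * m) + (if l ∣ m then (l : ℂ) ^ (k - 1) * cf f (m / l) else 0) =
        mu l * cf f m) (l : ℕ) (hl : l.Prime) : mu l = cf f l := by
  have e := h l hl 1
  have hd : ¬ l ∣ 1 := by
    rw [Nat.dvd_one]
    exact hl.ne_one
  rw [if_neg hd, mul_one, add_zero, h1, mul_one] at e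
  exact e.symm

theorem cf_zero {k : ℕ} (f : M k) (mu : ℕ → ℂ)
    (h : ∀ l : ℕ, l.Prime → ∀ m : ℕ,
      cf f (l * m) + (if l ∣ m then (l : ℂ) ^ (k - 1) * cf f (m / l) else 0) =
        mu l * cf f m) (h2 : mu 2 ≠ 1 + 2 ^ (k - 1)) : cf f 0 = 0 := by
  have e := h 2 Nat.prime_two 0
  rw [if_pos (dvd_zero 2), mul_zero, Nat.zero_div] at e
  by_contra h0
  apply h2
  have e2 : (1 + (2 : ℂ) ^ (k - 1)) * cf f 0 = mu 2 * cf f 0 := by
    rw [← e]
    push_cast
    ring
  exact (mul_right_cancel₀ h0 e2).symm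

end Pool.Agent.Helper59.BZ
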