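import Mathlib

/-! BZ-EMBA (context free).

(1) `odd_mem`: if K is a subfield of ℂ containing a l for all odd primes l, a 1 = 1 and the Hecke
relations hold, then a m is in K for every odd m. PROOF. Strong induction on m >= 1 odd: m = 1
clear; otherwise m = l m' with l an odd prime, a(l m') = a l a m' - [l | m'] l^(k-1) a (m'/l), and
m', m'/l are smaller odd numbers. -/

set_option autoImplicit false

namespace Pool.Agent.Helper59.BZ

theorem odd_mem (K : IntermediateField ℚ ℂ) (k : ℕ) (a : ℕ → ℂ) (h1 : a 1 = 1)
    (h : ∀ l : ℕ, l.Prime → ∀ m : ℕ,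
      a (l * m) + (if l ∣ m then (l : ℂ) ^ (k - 1) * a (m / l) else 0) = a l * a m)
    (hK : ∀ l : ℕ, l.Prime → l ≠ 2 → a l ∈ K) (m : ℕ) (hm : Odd m) : a m ∈ K := by
  induction m using Nat.strong_induction_on with
  | _ m ih =>
    by_cases hm1 : m = 1
    · rw [hm1, h1]
      exact K.one_mem
    · obtain ⟨l, hl, hlm⟩ := Nat.exists_prime_and_dvd hm1
      obtain ⟨m', rfl⟩ := hlm
      have hodd := Nat.odd_mul.1 hm
      have hl2 : l ≠ 2 := by
        rintro rfl
        exact absurd hodd.1 (by decide)
      have hm'pos : 0 < m' := hodd.2.pos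
      have hlt : m' < l * m' := by
        have := hl.two_le
        nlinarith
      have e1 : a (l * m') = a l * a m' - (if l ∣ m' then (l : ℂ) ^ (k - 1) * a (m' / l) else 0) := by
        rw [← h l hl m']
        ring
      rw [e1]
      refine K.sub_mem (K.mul_mem (hK l hl hl2) (ih m' hlt hodd.2)) ?_
      split_ifs with hd
      · obtain ⟨c, rfl⟩ := hd
        have hlpos : 0 < l := hl.pos
        rw [Nat.mul_div_cancel_left _ hlpos]
        have hc : Odd c := (Nat.odd_mul.1 hodd.2).2
        have hcpos : 0 < c := hc.pos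
        have hlt2 : c < l * (l * c) := by
          have := hl.two_le
          nlinarith
        refine K.mul_mem (pow_mem ?_ _) (ih c hlt2 hc)
        exact natCast_mem K l
      · exact K.zero_mem

end Pool.Agent.Helper59.BZ
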