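import Mathlib

/-! BZ-EMBB (context free).

(2) `emb_ext`: K an intermediate field of ℂ/ℚ, all its elements algebraic over ℚ; lc in ℂ and lam
in Q2bar = AlgebraicClosure ℚ_[2] with the same minimal polynomial over ℚ (lc integral over ℚ,
not 0); alpha = lc + N/lc in K. Then there is a ring hom K -> Q2bar mapping alpha to lam + N/lam.
PROOF. L = K(lc), algebraic over ℚ. The ℚ-algebra homs ℚ(lc) -> Q2bar correspond to the roots
of minpoly ℚ lc: there is one with lc -> lam (`IntermediateField.adjoin...`,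
`PowerBasis.lift`, `AdjoinRoot.liftAlgHom`). Extend it to L (algebraic over ℚ(lc), Q2bar
algebraically closed: `IntermediateField.exists_algHom_of_splits` or `IsAlgClosed.lift`;
convenient: `IntermediateField.exists_algHom_adjoin_of_splits'`), or to the algebraic closure of
ℚ in ℂ: the field A = `algebraicClosure ℚ ℂ` contains K and lc, and
`exists_algHom_of_splits_of_aeval`-type lemmas (`IntermediateField.exists_algHom_of_splits_of_aeval`:
for E/F algebraic, x in E, y a root of minpoly F x in K', there is phi : E -> K' over F with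
phi x = y) give phi : A -> Q2bar with phi lc = lam. Restrict to K. -/

set_option autoImplicit false

namespace Pool.Agent.Helper59.BZ

theorem emb_ext (K : IntermediateField ℚ ℂ) (hK : ∀ x ∈ K, IsAlgebraic ℚ x) (lc : ℂ)
    (lam : AlgebraicClosure ℚ_[2]) (hi : IsIntegral ℚ lc) (h0 : lc ≠ 0)
    (hmin : minpoly ℚ lc = minpoly ℚ lam) (N : ℚ) (α : ℂ) (hα : α ∈ K)
    (hαe : α = lc + (N : ℂ) / lc) :
    ∃ ι : K →+* AlgebraicClosure ℚ_[2], ι ⟨α, hα⟩ = lam + (N : AlgebraicClosure ℚ_[2]) / lam := by
  have hA : lc ∈ algebraicClosure ℚ ℂ := mem_algebraicClosure_iff.2 hi.isAlgebraic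
  have hKA : K ≤ algebraicClosure ℚ ℂ := fun x hx => mem_algebraicClosure_iff.2 (hK x hx)
  let x : algebraicClosure ℚ ℂ := ⟨lc, hA⟩
  have hmx : minpoly ℚ x = minpoly ℚ lc :=
    (minpoly.algebraMap_eq (algebraMap (algebraicClosure ℚ ℂ) ℂ).injective x).symm
  have hae : Polynomial.aeval lam (minpoly ℚ x) = 0 := by
    rw [hmx, hmin, minpoly.aeval]
  obtain ⟨φ, hφ⟩ := IntermediateField.exists_algHom_of_splits_of_aeval (F := ℚ)
    (E := algebraicClosure ℚ ℂ) (K := AlgebraicClosure ℚ_[2]) (x := x) (y := lam)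
    (fun s => ⟨(isIntegral_algHom_iff (algebraicClosure ℚ ℂ).val Subtype.val_injective).1
      (mem_algebraicClosure_iff.1 s.2).isIntegral, IsAlgClosed.splits _⟩) hae
  refine ⟨φ.toRingHom.comp (IntermediateField.inclusion hKA).toRingHom, ?_⟩
  have h1 : IntermediateField.inclusion hKA ⟨α, hα⟩ = x + (N : algebraicClosure ℚ ℂ) / x := by
    apply Subtype.ext
    show α = _
    rw [hαe]
    push_cast
    rfl
  show φ (IntermediateField.inclusion hKA ⟨α, hα⟩) = _
  rw [h1, map_add, map_div₀, map_ratCast, hφ]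

end Pool.Agent.Helper59.BZ
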