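import Mathlib

/-! BZ-EMBC (context free).

(3) `deg_le`: E an intermediate field of Q2bar/ℚ_[2], finite-dimensional, containing
beta = lam + N/lam, lam not 0, N rational. Then deg (minpoly of lam) <= 2 [E : ℚ_2]. PROOF. lam is
a root of X^2 - beta X + N over E, so [E(lam) : E] <= 2 and
[ℚ_2(lam) : ℚ_2] <= [E(lam) : ℚ_2] = [E(lam) : E] [E : ℚ_2]. -/

set_option autoImplicit false

namespace Pool.Agent.Helper59.BZ

theorem deg_le (E : IntermediateField ℚ_[2] (AlgebraicClosure ℚ_[2])) [FiniteDimensional ℚ_[2] E]
    (lam : AlgebraicClosure ℚ_[2]) (h0 : lam ≠ 0) (N : ℚ)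
    (h : lam + (N : AlgebraicClosure ℚ_[2]) / lam ∈ E) :
    (minpoly ℚ_[2] lam).natDegree ≤ 2 * Module.finrank ℚ_[2] E := by
  classical
  have hint : IsIntegral E lam := (Algebra.IsIntegral.isIntegral (R := ℚ_[2]) lam).tower_top
  let β : E := ⟨lam + (N : AlgebraicClosure ℚ_[2]) / lam, h⟩
  have hdeg : (minpoly E lam).natDegree ≤ 2 := by
    let p : Polynomial E := Polynomial.C 1 * Polynomial.X ^ 2 + Polynomial.C (-β) * Polynomial.X + Polynomial.C (N : E)
    have hp : p.natDegree = 2 := Polynomial.natDegree_quadratic one_ne_zero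
    have hp0 : p ≠ 0 := by
      intro h; rw [h] at hp; simp at hp
    have hroot : Polynomial.aeval lam p = 0 := by
      have : Polynomial.aeval lam p = lam ^ 2 + (-(lam + (N : AlgebraicClosure ℚ_[2]) / lam)) * lam + (N : AlgebraicClosure ℚ_[2]) := by
        simp only [p, map_add, map_mul, Polynomial.aeval_C, Polynomial.aeval_X, map_pow, map_one, map_neg, one_mul, map_ratCast]
        rfl
      rw [this]
      field_simp
      ring
    have := Polynomial.natDegree_le_of_dvd (minpoly.dvd E lam hroot) hp0
    omega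
  have h1 : Module.finrank E (IntermediateField.adjoin E {lam}) = (minpoly E lam).natDegree :=
    IntermediateField.adjoin.finrank hint
  have hfd1 : FiniteDimensional E (IntermediateField.adjoin E {lam}) :=
    IntermediateField.adjoin.finiteDimensional hint
  have h2 : Module.finrank ℚ_[2] E * Module.finrank E (IntermediateField.adjoin E {lam}) =
      Module.finrank ℚ_[2] (IntermediateField.adjoin E {lam}) := Module.finrank_mul_finrank _ _ _
  have hfd2 : FiniteDimensional ℚ_[2] (IntermediateField.adjoin E {lam}) := FiniteDimensional.trans ℚ_[2] E _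
  have h3 : (minpoly ℚ_[2] lam).natDegree ≤ Module.finrank ℚ_[2] (IntermediateField.adjoin E {lam}) := by
    have hmem : lam ∈ IntermediateField.adjoin E {lam} := IntermediateField.mem_adjoin_simple_self E lam
    let x : IntermediateField.adjoin E {lam} := ⟨lam, hmem⟩
    have hx : minpoly ℚ_[2] lam = minpoly ℚ_[2] x := by
      have hst : IsScalarTower ℚ_[2] (IntermediateField.adjoin E {lam}) (AlgebraicClosure ℚ_[2]) :=
        IsScalarTower.of_algebraMap_eq fun _ => rfl
      exact minpoly.algebraMap_eq (B' := AlgebraicClosure ℚ_[2]) (FaithfulSMul.algebraMap_injective _ _) x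
    rw [hx]
    exact minpoly.natDegree_le x
  calc (minpoly ℚ_[2] lam).natDegree ≤ Module.finrank ℚ_[2] (IntermediateField.adjoin E {lam}) := h3
    _ = Module.finrank ℚ_[2] E * Module.finrank E (IntermediateField.adjoin E {lam}) := h2.symm
    _ ≤ Module.finrank ℚ_[2] E * 2 := Nat.mul_le_mul_left _ (h1 ▸ hdeg)
    _ = 2 * Module.finrank ℚ_[2] E := Nat.mul_comm _ _

end Pool.Agent.Helper59.BZ
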