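import Pool.Agent.Helper59.BZ.Mk

/-! BZ-FINA. From 𝒮ℒ to Gamma1 1.

`to_cusp`: f : M k with cf f 0 = 0 gives a cusp form for `CongruenceSubgroup.Gamma1 1` with the same
values. PROOF. `toCuspForm` (Mathlib, CuspFormSubmodule.lean) gives a CuspForm 𝒮ℒ k;
Gamma1 1 = ⊤ (ZMod 1 is trivial; `CongruenceSubgroup.Gamma1_mem`, or
`CongruenceSubgroup.Gamma_one_top`-like lemmas), so its image in GL(2, ℝ) is 𝒮ℒ (the range of the
map); `CuspForm.mcast` with hΓ.

`slash_one`: the transformation formula with the trivial character: from `ex_smul` (a, b, c, d the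
entries of γ) or `SlashInvariantForm.slash_action_eqn''`; χ mod 1 is 1 because every element of
ZMod 1 is a unit equal to 1. -/

set_option autoImplicit false

namespace Pool.Agent.Helper59.BZ

open UpperHalfPlane Complex Filter Topology
open scoped MatrixGroups ModularForm

private theorem gamma1_one75 : CongruenceSubgroup.Gamma1 1 = ⊤ := by
  ext A
  simp only [CongruenceSubgroup.Gamma1_mem, Subgroup.mem_top, iff_true]
  exact ⟨Subsingleton.elim _ _, Subsingleton.elim _ _, Subsingleton.elim _ _⟩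

private theorem gamma1_coe75 :
    ((CongruenceSubgroup.Gamma1 1 : Subgroup (Matrix.SpecialLinearGroup (Fin 2) ℤ)) :
      Subgroup (GL (Fin 2) ℝ)) = 𝒮ℒ := by
  simp [gamma1_one75, MonoidHom.range_eq_map]

theorem to_cusp {k : ℕ} (f : M k) (h0 : cf f 0 = 0) :
    ∃ g : CuspForm (CongruenceSubgroup.Gamma1 1) (k : ℤ), ∀ τ : UpperHalfPlane, g τ = f τ := by
  refine ⟨CuspForm.mcast rfl (ModularForm.toCuspForm f h0) gamma1_coe75, ?_⟩
  intro τ
  rfl

theorem slash_one {k : ℕ} (f : M k) (χ : DirichletCharacter ℂ 1)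
    (γ : Matrix.SpecialLinearGroup (Fin 2) ℤ) (τ : UpperHalfPlane) :
    f (γ • τ) =
      χ ((((γ : Matrix (Fin 2) (Fin 2) ℤ) 1 1 : ℤ)) : ZMod 1) *
        ((((γ : Matrix (Fin 2) (Fin 2) ℤ) 1 0 : ℤ) : ℂ) * (τ : ℂ) +
          (((γ : Matrix (Fin 2) (Fin 2) ℤ) 1 1 : ℤ) : ℂ)) ^ k * f τ := by
  have h1 : χ ((((γ : Matrix (Fin 2) (Fin 2) ℤ) 1 1 : ℤ)) : ZMod 1) = 1 := by
    have h2 : ((((γ : Matrix (Fin 2) (Fin 2) ℤ) 1 1 : ℤ)) : ZMod 1) = 1 := Subsingleton.elim _ _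
    rw [h2, map_one]
  rw [h1, one_mul]
  have h3 := SlashInvariantForm.slash_action_eqn'' (Γ := 𝒮ℒ) (k := (k : ℤ)) f
    (γ := Matrix.SpecialLinearGroup.mapGL ℝ γ) ⟨γ, rfl⟩ τ
  rw [zpow_natCast] at h3
  have h4 : γ • τ = (Matrix.SpecialLinearGroup.mapGL ℝ γ) • τ := rfl
  rw [h4, h3]
  simp [UpperHalfPlane.denom]

end Pool.Agent.Helper59.BZ
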