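import Pool.Agent.Helper59.BZ.Mk

/-! BZ-HE2. q-expansion of the Hecke operator (F = ex f).

(2) `hec_coeff`: coefficients. F (l z) = sum over m of cf f m e(l m z) (e(x) = exp(2 pi i x)), and
l^(-1) sum over j of F ((z+j)/l) = sum over m of cf f m e(m z/l) (l^(-1) sum over j < l of
e(m j/l)), the inner factor is 1 if l divides m and 0 otherwise (`IsPrimitiveRoot` geometric sum).
So hec = sum over m of (cf f (l m) + [l | m] l^(k-1) cf f (m/l)) e(m z); `cf_unique`.
(HasSum over multiples of l: `Function.Injective.hasSum_iff` for m -> l m.) -/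

set_option autoImplicit false

namespace Pool.Agent.Helper59.BZ

open UpperHalfPlane Complex Filter Topology
open scoped MatrixGroups ModularForm

private theorem hs_congr {f g : ℕ → ℂ} {a : ℂ} (h : ∀ m, f m = g m) :
    HasSum f a ↔ HasSum g a := by
  rw [funext h]

/-- sum of the l-th roots of unity with exponent m -/
private theorem root_sum (l : ℕ) (hl : 0 < l) (m : ℕ) :
    ∑ j ∈ Finset.range l, Complex.exp (2 * Real.pi * Complex.I * (m : ℂ) * ((j : ℂ) / l)) =
      if l ∣ m then (l : ℂ) else 0 := by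
  have hl0 : (l : ℂ) ≠ 0 := by exact_mod_cast hl.ne'
  have hζ := Complex.isPrimitiveRoot_exp l hl.ne'
  set ζ : ℂ := Complex.exp (2 * Real.pi * Complex.I / l) with hζd
  have hterm : ∀ j : ℕ, Complex.exp (2 * Real.pi * Complex.I * (m : ℂ) * ((j : ℂ) / l)) =
      (ζ ^ m) ^ j := by
    intro j
    rw [hζd, ← Complex.exp_nat_mul, ← Complex.exp_nat_mul]
    congr 1
    field_simp
  rw [Finset.sum_congr rfl (fun j _ => hterm j)]
  split_ifs with h
  · have h1 : ζ ^ m = 1 := (hζ.pow_eq_one_iff_dvd m).2 h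
    simp [h1]
  · have h1 : ζ ^ m ≠ 1 := fun e => h ((hζ.pow_eq_one_iff_dvd m).1 e)
    have h2 : (ζ ^ m) ^ l = 1 := by
      rw [← pow_mul, mul_comm, pow_mul, hζ.pow_eq_one, one_pow]
    rw [geom_sum_eq h1, h2, sub_self, zero_div]

theorem hec_hasSum {k : ℕ} (hk : 1 ≤ k) (f : M k) (l : ℕ) (hl : l.Prime) (z : ℂ)
    (hz : 0 < z.im) :
    HasSum (fun m : ℕ => (cf f (l * m) + if l ∣ m then (l : ℂ) ^ (k - 1) * cf f (m / l) else 0) *
      Complex.exp (2 * Real.pi * Complex.I * (m : ℂ) * z)) (hec k l (ex f) z) := by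
  have hl0 : (l : ℂ) ≠ 0 := by exact_mod_cast hl.ne_zero
  have hlR : (0 : ℝ) < l := by exact_mod_cast hl.pos
  have hinj : Function.Injective (fun m : ℕ => l * m) :=
    fun a b h => Nat.eq_of_mul_eq_mul_left hl.pos h
  -- the first term
  have h1 : HasSum (fun m : ℕ => (if l ∣ m then (l : ℂ) ^ (k - 1) * cf f (m / l) else 0) *
      Complex.exp (2 * Real.pi * Complex.I * (m : ℂ) * z)) ((l : ℂ) ^ (k - 1) * ex f (l * z)) := by
    have hz1 : 0 < ((l : ℂ) * z).im := by
      rw [show ((l : ℂ) * z).im = (l : ℝ) * z.im by simp]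
      exact mul_pos hlR hz
    have h := (ex_hasSum f (l * z) hz1).mul_left ((l : ℂ) ^ (k - 1))
    rw [← hinj.hasSum_iff]
    · refine (hs_congr (fun m => ?_)).2 h
      simp only [Function.comp]
      rw [if_pos (dvd_mul_right l m), Nat.mul_div_cancel_left m hl.pos, mul_assoc]
      push_cast
      have he : 2 * (Real.pi : ℂ) * Complex.I * ((l : ℂ) * (m : ℂ)) * z =
          2 * (Real.pi : ℂ) * Complex.I * (m : ℂ) * ((l : ℂ) * z) := by ring
      rw [he]
    · intro x hx
      rw [if_neg, zero_mul]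
      rintro ⟨c, rfl⟩
      exact hx ⟨c, rfl⟩
  -- the second term
  have h2 : HasSum (fun m : ℕ => cf f (l * m) *
      Complex.exp (2 * Real.pi * Complex.I * (m : ℂ) * z))
      ((l : ℂ)⁻¹ * ∑ j ∈ Finset.range l, ex f ((z + j) / l)) := by
    have hj : ∀ j ∈ Finset.range l, HasSum (fun m : ℕ => cf f m *
        Complex.exp (2 * Real.pi * Complex.I * (m : ℂ) * ((z + j) / l))) (ex f ((z + j) / l)) := by
      intro j _
      refine ex_hasSum f _ ?_
      have : ((z + j) / (l : ℂ)).im = z.im / l := by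
        rw [Complex.div_natCast_im]; simp
      rw [this]
      exact div_pos hz hlR
    have h := (hasSum_sum hj).mul_left ((l : ℂ)⁻¹)
    have hfun : (fun m : ℕ => (l : ℂ)⁻¹ * ∑ j ∈ Finset.range l, cf f m *
        Complex.exp (2 * Real.pi * Complex.I * (m : ℂ) * ((z + j) / l))) =
        fun m : ℕ => (if l ∣ m then cf f m *
          Complex.exp (2 * Real.pi * Complex.I * (m : ℂ) * (z / l)) else 0) := by
      funext m
      have hs : ∀ j ∈ Finset.range l, cf f m *
          Complex.exp (2 * Real.pi * Complex.I * (m : ℂ) * ((z + j) / l)) =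
          (cf f m * Complex.exp (2 * Real.pi * Complex.I * (m : ℂ) * (z / l))) *
            Complex.exp (2 * Real.pi * Complex.I * (m : ℂ) * ((j : ℂ) / l)) := by
        intro j _
        rw [mul_assoc (cf f m), ← Complex.exp_add]
        congr 2
        ring
      rw [Finset.sum_congr rfl hs, ← Finset.mul_sum, root_sum l hl.pos m]
      split_ifs
      · field_simp
      · simp
    rw [hfun] at h
    rw [← hinj.hasSum_iff] at h
    · refine (hs_congr (fun m => ?_)).1 h
      simp only [Function.comp]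
      rw [if_pos (dvd_mul_right l m)]
      push_cast
      have he : 2 * (Real.pi : ℂ) * Complex.I * ((l : ℂ) * (m : ℂ)) * (z / l) =
          2 * (Real.pi : ℂ) * Complex.I * (m : ℂ) * z := by
        field_simp
      rw [he]
    · intro x hx
      rw [if_neg]
      rintro ⟨c, rfl⟩
      exact hx ⟨c, rfl⟩
  have h3 := h2.add h1
  unfold hec
  rw [add_comm ((l : ℂ) ^ (k - 1) * ex f (l * z))]
  refine (hs_congr (fun m => ?_)).2 h3
  rw [add_mul]

end Pool.Agent.Helper59.BZ
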