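import Pool.Agent.Helper59.BZ.He1
import Pool.Agent.Helper59.BZ.He2

/-! BZ-HE. Hecke operators as linear maps, from He1 (`hec_form`) and He2 (`hec_hasSum`).

(3) `hecke`: from (1), (2), `form_ext`: the map f -> g is linear (coefficients determine the
form, the formula is linear in f).

(4) `hecke_comm`: T_l and T_l' commute, by comparing coefficients (for l, l' different primes:
cf (T_l (T_l' f)) m = cf f (l l' m) + [l' | m] l'^(k-1) cf f (l m/l') + [l | m] l^(k-1)
cf f (l' m/l) + [l l' | m] (l l')^(k-1) cf f (m/(l l')), symmetric in l and l'). -/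

set_option autoImplicit false

namespace Pool.Agent.Helper59.BZ

open UpperHalfPlane Complex Filter Topology
open scoped MatrixGroups ModularForm

theorem hecke (k : ℕ) (hk : 1 ≤ k) (l : ℕ) (hl : l.Prime) :
    ∃ T : M k →ₗ[ℂ] M k, (∀ f : M k, ∀ z : ℂ, 0 < z.im → ex (T f) z = hec k l (ex f) z) ∧
      ∀ f : M k, ∀ m : ℕ, cf (T f) m =
        cf f (l * m) + if l ∣ m then (l : ℂ) ^ (k - 1) * cf f (m / l) else 0 := by
  choose T hT using fun f : M k => hec_form hk f l hl
  have hc : ∀ f : M k, ∀ m : ℕ, cf (T f) m =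
      cf f (l * m) + if l ∣ m then (l : ℂ) ^ (k - 1) * cf f (m / l) else 0 := by
    intro f
    refine cf_unique (T f) _ ?_
    intro z hz
    rw [hT f z hz]
    exact hec_hasSum hk f l hl z hz
  refine ⟨{ toFun := T, map_add' := ?_, map_smul' := ?_ }, fun f z hz => hT f z hz, hc⟩
  · intro f g
    refine form_ext _ _ (fun m => ?_)
    rw [cf_add, hc, hc, hc, cf_add, cf_add]
    split_ifs <;> ring
  · intro c f
    refine form_ext _ _ (fun m => ?_)
    simp only [RingHom.id_apply]
    rw [cf_smul, hc, hc, cf_smul, cf_smul]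
    split_ifs <;> ring

theorem hecke_comm (k : ℕ) (l l' : ℕ) (hl : l.Prime) (hl' : l'.Prime) (T T' : M k →ₗ[ℂ] M k)
    (hT : ∀ f : M k, ∀ m : ℕ, cf (T f) m =
        cf f (l * m) + if l ∣ m then (l : ℂ) ^ (k - 1) * cf f (m / l) else 0)
    (hT' : ∀ f : M k, ∀ m : ℕ, cf (T' f) m =
        cf f (l' * m) + if l' ∣ m then (l' : ℂ) ^ (k - 1) * cf f (m / l') else 0)
    (f : M k) : T (T' f) = T' (T f) := by
  refine form_ext _ _ (fun m => ?_)
  by_cases hll : l = l'
  · subst hll
    have : T = T' := by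
      ext1 g
      exact form_ext _ _ (fun m => by rw [hT, hT'])
    rw [this]
  · have hco : Nat.Coprime l l' := (Nat.coprime_primes hl hl').2 hll
    rw [hT (T' f) m, hT' f, hT' f, hT' (T f) m, hT f, hT f]
    have hd1 : l' ∣ l * m ↔ l' ∣ m := hco.symm.dvd_mul_left
    have hd2 : l ∣ l' * m ↔ l ∣ m := hco.dvd_mul_left
    have e0 : l' * (l * m) = l * (l' * m) := by ring
    have e1 : m / l / l' = m / l' / l := by
      rw [Nat.div_div_eq_div_mul, Nat.div_div_eq_div_mul, mul_comm]
    rw [e0, e1]
    simp only [hd1, hd2]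
    by_cases h1 : l ∣ m
    · have e2 : l' * m / l = l' * (m / l) := Nat.mul_div_assoc l' h1
      by_cases h2 : l' ∣ m
      · have e3 : l * m / l' = l * (m / l') := Nat.mul_div_assoc l h2
        have h3 : l' ∣ m / l := by
          have : l' ∣ l * (m / l) := by rwa [Nat.mul_div_cancel' h1]
          exact hco.symm.dvd_of_dvd_mul_left this
        have h4 : l ∣ m / l' := by
          have : l ∣ l' * (m / l') := by rwa [Nat.mul_div_cancel' h2]
          exact hco.dvd_of_dvd_mul_left this
        rw [if_pos h1, if_pos h2, if_pos h1, if_pos h2, if_pos h3, if_pos h4, e2, e3]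
        ring
      · have h3 : ¬ l' ∣ m / l := fun h => h2 (h.trans (Nat.div_dvd_of_dvd h1))
        rw [if_pos h1, if_neg h2, if_pos h1, if_neg h2, if_neg h3, e2]
        ring
    · by_cases h2 : l' ∣ m
      · have e3 : l * m / l' = l * (m / l') := Nat.mul_div_assoc l h2
        have h4 : ¬ l ∣ m / l' := fun h => h1 (h.trans (Nat.div_dvd_of_dvd h2))
        rw [if_neg h1, if_pos h2, if_neg h1, if_pos h2, if_neg h4, e3]
        ring
      · rw [if_neg h1, if_neg h2, if_neg h1, if_neg h2]

end Pool.Agent.Helper59.BZ
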