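import Pool.Agent.Helper59.BZ.Mk

/-! BZ-ODD. A level one form of weight k >= 1 whose coefficients of odd index all vanish is 0.

PROOF. Let F = ex f. By `ex_hasSum`, F (z + 1/2) = F z (e(m/2) = 1 for even m, and the coefficients
of odd index vanish). Let im z > 0 and w = (z-2)/4. Then 2 w + 1 = z/2 and
w/(2w+1) = (z-2)/(2z) = 1/2 - 1/z, so
 (z/2)^k F w = F (w/(2w+1)) (ex_smul with (1,0,2,1)) = F (-1/z + 1/2) = F (-1/z) = z^k F z,
hence F ((z-2)/4) = 2^k F z, i.e. F z = 2^k F (4z + 2) for all z with im z > 0. The q-expansion of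
the right side is sum over m of 2^k cf f m e(4 m z) (e(2m) = 1), so by `cf_unique`
cf f m = 2^k cf f (m/4) if 4 divides m, and 0 otherwise. So cf f 0 = 2^k cf f 0 gives
cf f 0 = 0 (k >= 1) and by strong induction cf f m = 0 for all m; `form_ext`. -/

set_option autoImplicit false

namespace Pool.Agent.Helper59.BZ

open UpperHalfPlane Complex Filter Topology
open scoped MatrixGroups ModularForm

theorem odd_half {k : ℕ} (f : M k) (h : ∀ m, Odd m → cf f m = 0) (z : ℂ) (hz : 0 < z.im) :
    ex f (z + 1 / 2) = ex f z := by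
  have h1 := ex_hasSum f z hz
  have hz2 : 0 < (z + 1 / 2).im := by
    have h3 : (1 / 2 : ℂ).im = 0 := by norm_num
    rw [add_im, h3, add_zero]
    exact hz
  have h2 := ex_hasSum f (z + 1 / 2) hz2
  have h3 : (fun m : ℕ => cf f m * Complex.exp (2 * Real.pi * Complex.I * (m : ℂ) * (z + 1 / 2))) =
      (fun m : ℕ => cf f m * Complex.exp (2 * Real.pi * Complex.I * (m : ℂ) * z)) := by
    funext m
    rcases Nat.even_or_odd m with he | ho
    · obtain ⟨r, rfl⟩ := he
      congr 1
      have h4 : (2 * Real.pi * Complex.I * ((r + r : ℕ) : ℂ) * (z + 1 / 2)) =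
          2 * Real.pi * Complex.I * ((r + r : ℕ) : ℂ) * z + (r : ℕ) * (2 * Real.pi * Complex.I) := by
        push_cast
        ring
      rw [h4, Complex.exp_add, Complex.exp_nat_mul_two_pi_mul_I, mul_one]
    · rw [h m ho, zero_mul, zero_mul]
  rw [h3] at h2
  exact h2.unique h1

theorem odd_four {k : ℕ} (f : M k) (h : ∀ m, Odd m → cf f m = 0) (z : ℂ) (hz : 0 < z.im) :
    ex f z = 2 ^ k * ex f (4 * z + 2) := by
  have hZ : 0 < (4 * z + 2).im := by
    have h1 : (4 * z + 2).im = 4 * z.im := by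
      simp
    rw [h1]
    positivity
  have hZ0 : (4 * z + 2 : ℂ) ≠ 0 := by
    intro h0
    rw [h0] at hZ
    simp at hZ
  have hI : 0 < (-1 / (4 * z + 2)).im := by
    rw [neg_div, one_div, neg_im, inv_im, neg_div, neg_neg]
    exact div_pos hZ (Complex.normSq_pos.2 hZ0)
  have h1 := ex_smul f 1 0 2 1 (by norm_num) z hz
  have h2 : ((((1 : ℤ) : ℂ) * z + ((0 : ℤ) : ℂ)) / (((2 : ℤ) : ℂ) * z + ((1 : ℤ) : ℂ))) =
      -1 / (4 * z + 2) + 1 / 2 := by
    have h3 : (2 * z + 1 : ℂ) ≠ 0 := by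
      intro h0
      apply hZ0
      linear_combination 2 * h0
    push_cast
    rw [div_add_div _ _ hZ0 two_ne_zero, div_eq_div_iff h3 (mul_ne_zero hZ0 two_ne_zero)]
    ring
  rw [h2, odd_half f h _ hI, ex_inv f _ hZ] at h1
  have h4 : ((((2 : ℤ) : ℂ) * z + ((1 : ℤ) : ℂ))) = (4 * z + 2) / 2 := by
    push_cast
    ring
  rw [h4, div_pow] at h1
  have h5 : ((4 * z + 2 : ℂ)) ^ k ≠ 0 := pow_ne_zero _ hZ0
  have h6 : (2 : ℂ) ^ k ≠ 0 := pow_ne_zero _ two_ne_zero
  have h7 : (4 * z + 2 : ℂ) ^ k * (2 ^ k * ex f (4 * z + 2)) = (4 * z + 2 : ℂ) ^ k * ex f z := by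
    have h8 : (4 * z + 2 : ℂ) ^ k * (2 ^ k * ex f (4 * z + 2)) =
        2 ^ k * ((4 * z + 2 : ℂ) ^ k * ex f (4 * z + 2)) := by ring
    rw [h8, h1]
    field_simp
  exact (mul_left_cancel₀ h5 h7).symm

theorem odd_zero {k : ℕ} (hk : 1 ≤ k) (f : M k) (h : ∀ m, Odd m → cf f m = 0) : f = 0 := by
  have hrec : ∀ m, cf f m = if 4 ∣ m then 2 ^ k * cf f (m / 4) else 0 := by
    refine cf_unique f (fun m => if 4 ∣ m then 2 ^ k * cf f (m / 4) else 0) fun z hz => ?_
    have hZ : 0 < (4 * z + 2).im := by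
      have h1 : (4 * z + 2).im = 4 * z.im := by
        simp
      rw [h1]
      positivity
    have h1 := (ex_hasSum f (4 * z + 2) hZ).mul_left ((2 : ℂ) ^ k)
    rw [← odd_four f h z hz] at h1
    have hinj : Function.Injective (fun m : ℕ => 4 * m) := fun a b hab => by
      have : 4 * a = 4 * b := hab
      omega
    refine (hinj.hasSum_iff (f := fun m : ℕ => (if 4 ∣ m then 2 ^ k * cf f (m / 4) else 0) *
      Complex.exp (2 * Real.pi * Complex.I * (m : ℂ) * z)) ?_).1 ?_
    · intro x hx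
      have hx' : ¬ 4 ∣ x := by
        rintro ⟨y, rfl⟩
        exact hx ⟨y, rfl⟩
      simp only [if_neg hx', zero_mul]
    · refine Eq.mpr (congrArg (fun F : ℕ → ℂ => HasSum F (ex f z)) ?_) h1
      funext m
      have h2 : 4 * m / 4 = m := by omega
      simp only [Function.comp_apply, dvd_mul_right, if_true, h2]
      rw [mul_assoc]
      congr 2
      have h4 : (2 * Real.pi * Complex.I * (m : ℂ) * (4 * z + 2)) =
          2 * Real.pi * Complex.I * ((4 * m : ℕ) : ℂ) * z + ((2 * m : ℕ) : ℂ) * (2 * Real.pi * Complex.I) := by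
        push_cast
        ring
      rw [h4, Complex.exp_add, Complex.exp_nat_mul_two_pi_mul_I, mul_one]
  have h0 : ∀ m, cf f m = 0 := by
    intro m
    induction m using Nat.strong_induction_on with
    | _ m ih =>
      rcases Nat.eq_zero_or_pos m with rfl | hm
      · have h1 := hrec 0
        rw [if_pos (dvd_zero 4), Nat.zero_div] at h1
        have h2 : (2 : ℂ) ^ k - 1 ≠ 0 := by
          have h3 : (1 : ℕ) < 2 ^ k := Nat.one_lt_two_pow (by omega)
          intro h4
          have h5 : ((2 ^ k : ℕ) : ℂ) = ((1 : ℕ) : ℂ) := by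
            push_cast
            linear_combination h4
          have h6 : (2 ^ k : ℕ) = 1 := by exact_mod_cast h5
          omega
        have h3 : ((2 : ℂ) ^ k - 1) * cf f 0 = 0 := by linear_combination -h1
        exact (mul_eq_zero.1 h3).resolve_left h2
      · rw [hrec m]
        split_ifs with h4
        · rw [ih (m / 4) (Nat.div_lt_self hm (by norm_num)), mul_zero]
        · rfl
  refine form_ext f 0 fun m => ?_
  have h1 := cf_smul (0 : ℂ) f m
  rw [zero_smul, zero_mul] at h1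
  rw [h0, h1]

end Pool.Agent.Helper59.BZ
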