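import Mathlib

/-! BZ-RATA. Linear algebra over ℚ and ℂ (context free).

V is a finite-dimensional complex vector space with a sequence of functionals c m (the coefficients
of the q-expansion); V0 = {v : all c m v rational} spans V over ℂ; the c m separate points.

(0) `fin_sep`: if functionals c m, m in O, have common kernel 0 on V then finitely many of them do
(the span of {c m : m in O} in the finite-dimensional dual is spanned by finitely many).

(1) `rat_fd`: V0 is finite-dimensional over ℚ: with a finite set F of indices as in (0) (O = all),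
v -> (c m v) for m in F is an injective ℚ-linear map V0 -> ℚ^F.

(2) `rat_comb`: if the c m with m in O separate points of V then for every r there is a finite
rational combination c r = sum of s_m c m (m in O) on V. PROOF. On V0 (finite-dimensional over
ℚ) let c0 m : V0 -> ℚ be the rational functionals. The common kernel of the c0 m (m in O) is 0.
So the span of {c0 m : m in O} in the dual of V0 is everything
(`Subspace.dualCoannihilator_dualAnnihilator_eq`, or `mem_span_of_iInf_ker_le_ker` for a finite
subset), hence c0 r = sum s_m c0 m with finitely many rational s_m; this holds on V0, so on its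
ℂ-span V. -/

set_option autoImplicit false

namespace Pool.Agent.Helper59.BZ

theorem rat_comb {V : Type*} [AddCommGroup V] [Module ℂ V] [FiniteDimensional ℂ V]
    (c : ℕ → V →ₗ[ℂ] ℂ)
    (hspan : Submodule.span ℂ {v : V | ∀ m, ∃ q : ℚ, c m v = (q : ℂ)} = ⊤)
    (O : Set ℕ) (hO : ∀ v, (∀ m ∈ O, c m v = 0) → v = 0) (r : ℕ) :
    ∃ s : ℕ →₀ ℚ, (∀ m ∈ s.support, m ∈ O) ∧
      ∀ v, c r v = s.sum (fun m q => (q : ℂ) * c m v) := by
  classical
  obtain ⟨b, hbs, hbspan, hli⟩ := exists_linearIndependent ℂ {v : V | ∀ m, ∃ q : ℚ, c m v = (q : ℂ)}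
  rw [hspan] at hbspan
  let B : Module.Basis b ℂ V := Module.Basis.mk hli (by rw [Subtype.range_coe_subtype]; exact hbspan.ge)
  haveI : Fintype b := FiniteDimensional.fintypeBasisIndex B
  have hB : ∀ i : b, B i = (i : V) := fun i => Module.Basis.mk_apply _ _ i
  have hrat : ∀ (m : ℕ) (i : b), ∃ q : ℚ, c m (B i) = (q : ℂ) := fun m i => by
    rw [hB]
    exact hbs i.2 m
  choose R hR using hrat
  -- the rational rows span
  have htop : Submodule.span ℚ (R '' O) = ⊤ := by
    by_contra hne
    obtain ⟨f, hf0, hf⟩ := Submodule.exists_le_ker_of_lt_top _ (lt_top_iff_ne_top.2 hne)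
    apply hf0
    have hfz : ∀ x : b → ℚ, f x = ∑ i, x i * f (Pi.single i 1) := by
      intro x
      conv_lhs => rw [← Finset.univ_sum_single x]
      rw [map_sum]
      refine Finset.sum_congr rfl fun i _ => ?_
      have : (Pi.single i (x i) : b → ℚ) = x i • Pi.single i 1 := by
        rw [← Pi.single_smul', smul_eq_mul, mul_one]
      rw [this, map_smul, smul_eq_mul]
    have hv : (∑ i : b, ((f (Pi.single i 1) : ℚ) : ℂ) • B i) = 0 := by
      apply hO
      intro m hm
      rw [map_sum]
      have h1 : f (R m) = 0 := hf (Submodule.subset_span ⟨m, hm, rfl⟩)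
      rw [hfz] at h1
      have h2 : (∑ i : b, ((R m i : ℚ) : ℂ) * ((f (Pi.single i 1) : ℚ) : ℂ)) = 0 := by
        exact_mod_cast h1
      rw [← h2]
      refine Finset.sum_congr rfl fun i _ => ?_
      rw [map_smul, hR, smul_eq_mul, mul_comm]
    have hz := Fintype.linearIndependent_iff.1 B.linearIndependent _ hv
    ext i
    have h3 := hz i
    simpa using h3
  have hr : R r ∈ Submodule.span ℚ (R '' O) := by rw [htop]; trivial
  rw [Finsupp.mem_span_image_iff_linearCombination] at hr
  obtain ⟨s, hs, hs2⟩ := hr
  refine ⟨s, fun m hm => (Finsupp.mem_supported ℚ s).1 hs hm, fun v => ?_⟩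
  have hlin : c r = ∑ m ∈ s.support, ((s m : ℚ) : ℂ) • c m := by
    apply B.ext
    intro i
    rw [LinearMap.sum_apply, hR, ← hs2, Finsupp.linearCombination_apply, Finsupp.sum, Finset.sum_apply]
    push_cast
    refine Finset.sum_congr rfl fun m _ => ?_
    rw [LinearMap.smul_apply, hR, Pi.smul_apply, smul_eq_mul, smul_eq_mul]
    push_cast
    rfl
  rw [hlin, LinearMap.sum_apply, Finsupp.sum]
  refine Finset.sum_congr rfl fun m _ => ?_
  rw [LinearMap.smul_apply, smul_eq_mul]

end Pool.Agent.Helper59.BZ
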