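import Mathlib

/-! BZ-RATB. Linear algebra over ℚ and ℂ (context free).

V is a finite-dimensional complex vector space with a sequence of functionals c m (the coefficients
of the q-expansion); V0 = {v : all c m v rational} spans V over ℂ; the c m separate points.

(0) `fin_sep`: if functionals c m, m in O, have common kernel 0 on V then finitely many of them do
(the span of {c m : m in O} in the finite-dimensional dual is spanned by finitely many).

(1) `rat_fd`: V0 is finite-dimensional over ℚ: with a finite set F of indices as in (0) (O = all),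
v -> (c m v) for m in F is an injective ℚ-linear map V0 -> ℚ^F.

(3) `alg_eig`: if T : V -> V is ℂ-linear and maps V0 to V0 and T v = mu v, v not 0, then mu is
algebraic over ℚ. PROOF. T restricted to V0 is a ℚ-linear endomorphism of a finite-dimensional
space, so P(T) = 0 on V0 for a monic P in ℚ[X] (characteristic polynomial, Cayley-Hamilton, or
`LinearMap.isIntegral`/`Algebra.IsIntegral`), so P(T) = 0 on the span V, 0 = P(T) v = P(mu) v. -/

set_option autoImplicit false

namespace Pool.Agent.Helper59.BZ

/-- finitely many functionals separate -/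
theorem fin_sep {V : Type*} [AddCommGroup V] [Module ℂ V] [FiniteDimensional ℂ V]
    (c : ℕ → V →ₗ[ℂ] ℂ) (hsep : ∀ v, (∀ m, c m v = 0) → v = 0) :
    ∃ N : ℕ, ∀ v, (∀ m < N, c m v = 0) → v = 0 := by
  let f : ℕ →o (Submodule ℂ V)ᵒᵈ :=
    { toFun := fun n => OrderDual.toDual (⨅ m : Fin n, LinearMap.ker (c m))
      monotone' := by
        intro a b hab
        show (⨅ m : Fin b, LinearMap.ker (c m)) ≤ ⨅ m : Fin a, LinearMap.ker (c m)
        exact le_iInf fun m => iInf_le (fun m : Fin b => LinearMap.ker (c m)) ⟨m, m.2.trans_le hab⟩ }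
  obtain ⟨N, hN⟩ := IsArtinian.monotone_stabilizes f
  refine ⟨N, fun v hv => hsep v fun m => ?_⟩
  have h1 : v ∈ ⨅ m : Fin N, LinearMap.ker (c m) := by
    rw [Submodule.mem_iInf]
    exact fun m => LinearMap.mem_ker.2 (hv m m.2)
  have h2 : (⨅ m : Fin N, LinearMap.ker (c m)) = ⨅ m : Fin (N + m + 1), LinearMap.ker (c m) :=
    hN (N + m + 1) (by omega)
  rw [h2, Submodule.mem_iInf] at h1
  exact LinearMap.mem_ker.1 (h1 ⟨m, by omega⟩)

theorem alg_eig {V : Type*} [AddCommGroup V] [Module ℂ V] [FiniteDimensional ℂ V]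
    (c : ℕ → V →ₗ[ℂ] ℂ)
    (hspan : Submodule.span ℂ {v : V | ∀ m, ∃ q : ℚ, c m v = (q : ℂ)} = ⊤)
    (hsep : ∀ v, (∀ m, c m v = 0) → v = 0)
    (T : V →ₗ[ℂ] V)
    (hT : ∀ v, (∀ m, ∃ q : ℚ, c m v = (q : ℂ)) → ∀ m, ∃ q : ℚ, c m (T v) = (q : ℂ))
    (mu : ℂ) (v : V) (hv : v ≠ 0) (h : T v = mu • v) : IsAlgebraic ℚ mu := by
  obtain ⟨N, hN⟩ := fin_sep c hsep
  letI : Module ℚ V := Module.compHom V (algebraMap ℚ ℂ)
  have hsm : ∀ (a : ℚ) (w : V), a • w = ((a : ℂ)) • w := fun _ _ => rfl
  -- the rational vectors
  let V0 : Submodule ℚ V :=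
    { carrier := {v : V | ∀ m, ∃ q : ℚ, c m v = (q : ℂ)}
      add_mem' := by
        intro a b ha hb m
        obtain ⟨p, hp⟩ := ha m
        obtain ⟨q, hq⟩ := hb m
        exact ⟨p + q, by rw [map_add, hp, hq, Rat.cast_add]⟩
      zero_mem' := fun m => ⟨0, by rw [map_zero, Rat.cast_zero]⟩
      smul_mem' := by
        intro a b hb m
        obtain ⟨q, hq⟩ := hb m
        exact ⟨a * q, by rw [hsm, map_smul, hq, smul_eq_mul, Rat.cast_mul]⟩ }
  have hV0 : ∀ w : V0, ∀ m, ∃ q : ℚ, c m w = (q : ℂ) := fun w => w.2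
  choose q hq using hV0
  let g : V0 →ₗ[ℚ] (Fin N → ℚ) :=
    { toFun := fun w m => q w m
      map_add' := by
        intro a b
        funext m
        have h1 : ((q (a + b) m : ℚ) : ℂ) = ((q a m + q b m : ℚ) : ℂ) := by
          rw [Rat.cast_add, ← hq, ← hq, ← hq, ← map_add]
          rfl
        exact Rat.cast_injective h1
      map_smul' := by
        intro a b
        funext m
        have h1 : ((q (a • b) m : ℚ) : ℂ) = ((a * q b m : ℚ) : ℂ) := by
          rw [Rat.cast_mul, ← hq, ← hq, ← smul_eq_mul, ← map_smul]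
          rfl
        exact Rat.cast_injective h1 }
  have hg : Function.Injective g := by
    rw [injective_iff_map_eq_zero]
    intro w hw
    refine Subtype.ext (hN _ fun m hm => ?_)
    have h1 : q w m = 0 := congrFun hw ⟨m, hm⟩
    rw [hq, h1, Rat.cast_zero]
  haveI : FiniteDimensional ℚ V0 := FiniteDimensional.of_injective g hg
  -- the restriction
  let T0 : V0 →ₗ[ℚ] V0 :=
    { toFun := fun w => ⟨T w, hT w w.2⟩
      map_add' := fun a b => Subtype.ext (map_add T _ _)
      map_smul' := fun a b => Subtype.ext (map_smul T _ _) }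
  have hT0 : ∀ w : V0, ((T0 w : V0) : V) = T w := fun _ => rfl
  have hpow : ∀ (n : ℕ) (w : V0), (((T0 ^ n) w : V0) : V) = (T ^ n) w := by
    intro n
    induction n with
    | zero =>
      intro w
      rfl
    | succ n ih =>
      intro w
      rw [pow_succ, pow_succ]
      exact ih (T0 w)
  have hpoly : ∀ (P : Polynomial ℚ) (w : V0),
      (((Polynomial.aeval T0 P) w : V0) : V) = (Polynomial.aeval T (P.map (algebraMap ℚ ℂ))) w := by
    intro P
    induction P using Polynomial.induction_on' with
    | add p r hp hr =>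
      intro w
      rw [Polynomial.map_add, map_add, map_add, LinearMap.add_apply, LinearMap.add_apply, Submodule.coe_add, hp, hr]
    | monomial n a =>
      intro w
      rw [Polynomial.map_monomial, Polynomial.aeval_monomial, Polynomial.aeval_monomial, Module.End.mul_apply,
        Module.End.mul_apply, Module.algebraMap_end_apply, Module.algebraMap_end_apply, Submodule.coe_smul, hpow, hsm]
      rfl
  let P := LinearMap.charpoly T0
  have hP : P.Monic := LinearMap.charpoly_monic T0
  have hP0 : Polynomial.aeval T0 P = 0 := LinearMap.aeval_self_charpoly T0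
  have hTP : Polynomial.aeval T (P.map (algebraMap ℚ ℂ)) = 0 := by
    refine LinearMap.ext fun x => ?_
    have hx : x ∈ Submodule.span ℂ {v : V | ∀ m, ∃ q : ℚ, c m v = (q : ℂ)} := by
      rw [hspan]
      exact Submodule.mem_top
    induction hx using Submodule.span_induction with
    | mem w hw =>
      have h1 := hpoly P ⟨w, hw⟩
      rw [hP0] at h1
      exact h1.symm
    | zero => rw [map_zero, map_zero]
    | add a b _ _ ha hb => rw [map_add, ha, hb, map_add]
    | smul a b _ hb => rw [map_smul, hb, map_smul]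
  have hev : Module.End.HasEigenvector T mu v := by
    refine ⟨?_, hv⟩
    rw [Module.End.mem_eigenspace_iff]
    exact h
  have h1 := Module.End.aeval_apply_of_hasEigenvector (p := P.map (algebraMap ℚ ℂ)) hev
  rw [hTP, LinearMap.zero_apply] at h1
  have h2 : (P.map (algebraMap ℚ ℂ)).eval mu = 0 := by
    rcases smul_eq_zero.1 h1.symm with h3 | h3
    · exact h3
    · exact absurd h3 hv
  refine ⟨P, hP.ne_zero, ?_⟩
  rwa [Polynomial.eval_map_algebraMap] at h2

end Pool.Agent.Helper59.BZ
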