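import Pool.Agent.Helper59.BZ.ThD

/-! BZ-THE. The homogeneous polynomial with coefficient vector v is not zero on the curve (ab : c^2/256).
PROOF. Otherwise P(T) = sum of v_j T^j (a nonzero polynomial) satisfies
(ab)^n P(c^2/(256 a b)) = 0 for all z in the upper half plane; for the sequence of `tc_seq`,
for m large a b is not 0 (it tends to 1), so r_m = c^2/(256 a b) is a root of P, r_m is not 0 and
r_m tends to 0: infinitely many different roots, a contradiction. -/

set_option autoImplicit false

namespace Pool.Agent.Helper59.BZ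

open UpperHalfPlane Complex Filter Topology
open scoped MatrixGroups ModularForm

private theorem H_eval82 (n : ℕ) (v : Fin (n + 1) → ℂ) (X Y : ℂ) (hX : X ≠ 0) :
    H v X Y = X ^ n * (∑ j : Fin (n + 1), Polynomial.monomial (j : ℕ) (v j)).eval (Y / X) := by
  rw [Polynomial.eval_finset_sum, Finset.mul_sum]
  unfold H
  refine Finset.sum_congr rfl fun j _ => ?_
  rw [Polynomial.eval_monomial, div_pow]
  have h1 : X ^ n = X ^ (n - (j : ℕ)) * X ^ (j : ℕ) := by
    rw [← pow_add, Nat.sub_add_cancel (Nat.lt_succ_iff.1 j.2)]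
  have h2 : X ^ (j : ℕ) ≠ 0 := pow_ne_zero _ hX
  rw [h1]
  field_simp

theorem H_ne (n : ℕ) (v : Fin (n + 1) → ℂ) (hv : v ≠ 0) :
    ∃ z : ℂ, 0 < z.im ∧ H v (ta z * tb z) (tc z ^ 2 / 256) ≠ 0 := by
  by_contra hcon
  push Not at hcon
  obtain ⟨w, hw1, hw2, hw3⟩ := tc_seq
  set P : Polynomial ℂ := ∑ j : Fin (n + 1), Polynomial.monomial (j : ℕ) (v j) with hP
  have hP0 : P ≠ 0 := by
    intro h0
    apply hv
    funext i
    have h1 : P.coeff (i : ℕ) = v i := by
      rw [hP, Polynomial.finset_sum_coeff]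
      rw [Finset.sum_eq_single i]
      · simp
      · intro j _ hj
        rw [Polynomial.coeff_monomial, if_neg]
        intro h
        exact hj (Fin.ext h)
      · intro h
        exact absurd (Finset.mem_univ i) h
    rw [← h1, h0]
    simp
  have hlim : Tendsto w atTop (comap Complex.im atTop) := by
    rw [tendsto_comap_iff]
    exact hw3
  have hab : Tendsto (fun m => ta (w m) * tb (w m)) atTop (𝓝 1) := by
    have := (ta_lim.comp hlim).mul (tb_lim.comp hlim)
    simpa using this
  have hc : Tendsto (fun m => tc (w m) ^ 2 / 256) atTop (𝓝 0) := by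
    have := ((tc_lim.comp hlim).pow 2).div_const 256
    simpa using this
  have hr : Tendsto (fun m => (tc (w m) ^ 2 / 256) / (ta (w m) * tb (w m))) atTop (𝓝 0) := by
    have h5 := hc.div hab one_ne_zero
    rw [zero_div] at h5
    exact h5
  have hne : ∀ᶠ m in atTop, ta (w m) * tb (w m) ≠ 0 :=
    hab.eventually_ne one_ne_zero
  have hfin : ({x : ℂ | P.IsRoot x ∧ x ≠ 0}).Finite := by
    apply (P.roots.toFinset.finite_toSet).subset
    intro x hx
    simp only [Finset.mem_coe, Multiset.mem_toFinset, Polynomial.mem_roots hP0]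
    exact hx.1
  have hopen : ({x : ℂ | P.IsRoot x ∧ x ≠ 0})ᶜ ∈ 𝓝 (0 : ℂ) := by
    apply hfin.isClosed.isOpen_compl.mem_nhds
    intro h
    exact h.2 rfl
  have hev := (hr.eventually hopen).and hne
  obtain ⟨m, hm1, hm2⟩ := hev.exists
  apply hm1
  have h1 := hcon (w m) (hw1 m)
  rw [H_eval82 n v _ _ hm2] at h1
  refine ⟨?_, ?_⟩
  · rcases mul_eq_zero.1 h1 with h | h
    · exact absurd h (pow_ne_zero _ hm2)
    · exact h
  · apply div_ne_zero _ hm2
    apply div_ne_zero (pow_ne_zero _ (hw2 m))
    norm_num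

end Pool.Agent.Helper59.BZ
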