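import Pool.Agent.Helper59.BZ.TrB
import Pool.Agent.Helper59.BZ.ThE

/-! BZ-TRC. If U v = lam v then fF v is an eigenfunction of the Hecke operator T_2 with
eigenvalue lam + 2^(4n-1)/lam. Notation as in TrB.lean: W = H v (c^2/4, ab/64),
g = H v (ab, c^2/256), a = ta z, b = tb z, c = tc z.

(5) `fF_eig`: hec (4n) 2 (fF v) z = 2^(4n-1) fF v (2z) + (1/2)(fF v (z/2) + fF v ((z+1)/2))
= 2^(2n-1) g + lam W + 4^(2n)/(2 lam) W + 4^n/2 g + 2 lam^2/4^n g
= (lam + 2^(4n-1)/lam) (W + 2 lam/4^n g).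

(6) `fF_ne`: if v is not 0 and lam^2 is not 2^(4n-2) then fF v z is not 0 for some z: otherwise
W + 2 lam/4^n g = 0 and g + 2 lam/4^n W = 0 for all z in the upper half plane, so
(1 - 4 lam^2/4^(2n)) g = 0, g = 0 identically, contradicting `H_ne`. -/

set_option autoImplicit false

namespace Pool.Agent.Helper59.BZ

open UpperHalfPlane Complex Filter Topology
open scoped MatrixGroups ModularForm

private theorem two_pow69 (n : ℕ) (hn : 1 ≤ n) : (2 : ℂ) ^ (4 * n - 1) = (4 ^ n) ^ 2 / 2 := by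
  have h1 : (2 : ℂ) ^ (4 * n - 1) * 2 = 2 ^ (4 * n) := by
    rw [← pow_succ]
    congr 1
    omega
  have h2 : (2 : ℂ) ^ (4 * n) = (4 ^ n) ^ 2 := by
    rw [← pow_mul, show (4 : ℂ) = 2 ^ 2 by norm_num, ← pow_mul]
    congr 1
    ring
  rw [← h2, ← h1]
  ring

private theorem two_pow69' (n : ℕ) (hn : 1 ≤ n) : (2 : ℂ) ^ (4 * n - 2) = (4 ^ n) ^ 2 / 4 := by
  have h1 : (2 : ℂ) ^ (4 * n - 2) * 4 = 2 ^ (4 * n) := by
    rw [show (4 : ℂ) = 2 ^ 2 by norm_num, ← pow_add]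
    congr 1
    omega
  have h2 : (2 : ℂ) ^ (4 * n) = (4 ^ n) ^ 2 := by
    rw [← pow_mul, show (4 : ℂ) = 2 ^ 2 by norm_num, ← pow_mul]
    congr 1
    ring
  rw [← h2, ← h1]
  ring

theorem fF_eig (n : ℕ) (hn : 1 ≤ n) (v : Fin (n + 1) → ℂ) (lam : ℂ) (hlam : lam ≠ 0)
    (hU : ∀ i, ∑ j, ((U n i j : ℚ) : ℂ) * v j = lam * v i) (z : ℂ) (hz : 0 < z.im) :
    hec (4 * n) 2 (fF v) z = (lam + 2 ^ (4 * n - 1) / lam) * fF v z := by
  have h1 := fF_half n v lam hlam hU z hz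
  have h2 := fF_dbl n v lam hU z hz
  have h3 := fF_eq n v lam hU z
  have hq : (4 : ℂ) ^ n ≠ 0 := pow_ne_zero _ (by norm_num)
  have e : hec (4 * n) 2 (fF v) z = 2 ^ (4 * n - 1) * fF v (2 * z) + 2⁻¹ * (fF v (z / 2) + fF v ((z + 1) / 2)) := by
    unfold hec
    rw [Finset.sum_range_succ, Finset.sum_range_one]
    simp only [Nat.cast_ofNat, Nat.cast_zero, Nat.cast_one, add_zero]
  rw [e, h1, h2, h3, two_pow69 n hn]
  field_simp
  ring

theorem fF_ne (n : ℕ) (hn : 1 ≤ n) (v : Fin (n + 1) → ℂ) (hv : v ≠ 0) (lam : ℂ)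
    (hlam : lam ^ 2 ≠ 2 ^ (4 * n - 2))
    (hU : ∀ i, ∑ j, ((U n i j : ℚ) : ℂ) * v j = lam * v i) :
    ∃ z : ℂ, 0 < z.im ∧ fF v z ≠ 0 := by
  by_contra hcon
  push Not at hcon
  obtain ⟨z, hz, hg⟩ := H_ne n v hv
  have hz2 : 0 < (2 * z).im := by
    have e : (2 * z).im = 2 * z.im := by simp
    rw [e]
    linarith
  have h1 := hcon z hz
  have h2 := hcon (2 * z) hz2
  rw [fF_eq n v lam hU z] at h1
  rw [fF_dbl n v lam hU z hz] at h2
  have hq : (4 : ℂ) ^ n ≠ 0 := pow_ne_zero _ (by norm_num)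
  rw [div_eq_zero_iff, or_iff_left hq] at h2
  rw [two_pow69' n hn] at hlam
  generalize H v (ta z * tb z) (tc z ^ 2 / 256) = g at h1 h2 hg
  generalize H v (tc z ^ 2 / 4) (ta z * tb z / 64) = W at h1 h2
  generalize (4 : ℂ) ^ n = q at h1 h2 hq hlam
  apply hg
  have h3 : (q ^ 2 - 4 * lam ^ 2) * g = 0 := by
    have e1 : W = -(2 * lam / q * g) := by linear_combination h1
    rw [e1] at h2
    field_simp at h2
    linear_combination h2
  rcases mul_eq_zero.1 h3 with h4 | h4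
  · exfalso
    apply hlam
    linear_combination (-1 / 4) * h4
  · exact h4

end Pool.Agent.Helper59.BZ
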