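import Pool.Agent.Helper59.BZ.TrA
import Pool.Agent.Helper59.BZ.TrC
import Pool.Agent.Helper59.BZ.He
import Pool.Agent.Helper59.BZ.Ce
import Pool.Agent.Helper59.BZ.Eig
import Pool.Agent.Helper59.BZ.Odd
import Pool.Agent.Helper59.BZ.Bas
import Pool.Agent.Helper59.BZ.RatA
import Pool.Agent.Helper59.BZ.RatB
import Pool.Agent.Helper59.BZ.EmbA
import Pool.Agent.Helper59.BZ.EmbB
import Pool.Agent.Helper59.BZ.EmbC
import Pool.Agent.Helper59.BZ.FinA

/-! BZ-FIN. Assembly of part A (helper59). -/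

set_option autoImplicit false

namespace Pool.Agent.Helper59.BZ

open UpperHalfPlane Complex Filter Topology Polynomial
open scoped MatrixGroups ModularForm

/-- the data of part B -/
def PartB : Prop :=
  ∀ c : ℕ, ∃ n : ℕ, 1 ≤ n ∧ ∃ lam : AlgebraicClosure ℚ_[2],
    Polynomial.aeval lam (U n).charpoly = 0 ∧ c < (minpoly ℚ_[2] lam).natDegree

theorem lam_int {n : ℕ} {lam : AlgebraicClosure ℚ_[2]}
    (h : Polynomial.aeval lam (U n).charpoly = 0) : IsIntegral ℚ lam :=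
  ⟨(U n).charpoly, (U n).charpoly_monic, h⟩

theorem lam_dvd {n : ℕ} {lam : AlgebraicClosure ℚ_[2]}
    (h : Polynomial.aeval lam (U n).charpoly = 0) : minpoly ℚ lam ∣ (U n).charpoly :=
  minpoly.dvd ℚ lam h

theorem deg_le_rat {lam : AlgebraicClosure ℚ_[2]} (h : IsIntegral ℚ lam) :
    (minpoly ℚ_[2] lam).natDegree ≤ (minpoly ℚ lam).natDegree := by
  have hd : minpoly ℚ_[2] lam ∣ (minpoly ℚ lam).map (algebraMap ℚ ℚ_[2]) := by
    apply minpoly.dvd
    rw [Polynomial.aeval_map_algebraMap]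
    exact minpoly.aeval ℚ lam
  have h0 : (minpoly ℚ lam).map (algebraMap ℚ ℚ_[2]) ≠ 0 :=
    Polynomial.map_ne_zero (minpoly.ne_zero h)
  have := Polynomial.natDegree_le_of_dvd hd h0
  simpa using this

/-- a complex number with the same minimal polynomial -/
theorem exists_lc {lam : AlgebraicClosure ℚ_[2]} (h : IsIntegral ℚ lam) :
    ∃ lc : ℂ, IsIntegral ℚ lc ∧ minpoly ℚ lc = minpoly ℚ lam := by
  obtain ⟨lc, hlc⟩ := IsAlgClosed.exists_aeval_eq_zero ℂ (minpoly ℚ lam)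
    (minpoly.degree_pos h).ne'
  refine ⟨lc, ⟨minpoly ℚ lam, minpoly.monic h, hlc⟩, ?_⟩
  exact (minpoly.eq_of_irreducible_of_monic (minpoly.irreducible h) hlc (minpoly.monic h)).symm

/-- a rational polynomial of degree at most two, not zero, does not vanish at lc -/
theorem no_root {lc : ℂ} (hdeg : 2 < (minpoly ℚ lc).natDegree) (a b c : ℚ)
    (h0 : a ≠ 0 ∨ b ≠ 0 ∨ c ≠ 0) : (a : ℂ) * lc ^ 2 + b * lc + c ≠ 0 := by
  intro h
  have hd : minpoly ℚ lc ∣ Polynomial.C a * X ^ 2 + Polynomial.C b * X + Polynomial.C c := by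
    apply minpoly.dvd
    simpa using h
  have hne : (Polynomial.C a * X ^ 2 + Polynomial.C b * X + Polynomial.C c : ℚ[X]) ≠ 0 := by
    intro he
    have e2 := congrArg (fun p => p.coeff 2) he
    have e1 := congrArg (fun p => p.coeff 1) he
    have e0 := congrArg (fun p => p.coeff 0) he
    simp [Polynomial.coeff_X, Polynomial.coeff_C] at e2 e1 e0
    tauto
  have h1 := Polynomial.natDegree_le_of_dvd hd hne
  have h2 : (Polynomial.C a * X ^ 2 + Polynomial.C b * X + Polynomial.C c : ℚ[X]).natDegree ≤ 2 :=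
    Polynomial.natDegree_quadratic_le
  omega

theorem exists_vec {n : ℕ} {lc : ℂ} (h : Polynomial.aeval lc (U n).charpoly = 0) :
    ∃ v : Fin (n + 1) → ℂ, v ≠ 0 ∧ ∀ i, ∑ j, ((U n i j : ℚ) : ℂ) * v j = lc * v i := by
  set A : Matrix (Fin (n + 1)) (Fin (n + 1)) ℂ := (U n).map (algebraMap ℚ ℂ) with hA
  have h1 : A.charpoly.eval lc = 0 := by
    rw [hA, Matrix.charpoly_map, Polynomial.eval_map, ← Polynomial.aeval_def]
    exact h
  rw [Matrix.eval_charpoly] at h1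
  obtain ⟨v, hv, hv2⟩ := Matrix.exists_mulVec_eq_zero_iff.mpr h1
  refine ⟨v, hv, fun i => ?_⟩
  have h2 := congrFun hv2 i
  rw [Matrix.sub_mulVec] at h2
  simp only [Pi.sub_apply, Pi.zero_apply, Matrix.scalar_apply, Matrix.mulVec_diagonal] at h2
  have h3 : (A.mulVec v) i = ∑ j, ((U n i j : ℚ) : ℂ) * v j := by
    simp [Matrix.mulVec, dotProduct, hA]
  rw [h3] at h2
  exact (sub_eq_zero.mp h2).symm

theorem ex_smul_scal {k : ℕ} (c : ℂ) (f : M k) (z : ℂ) : ex (c • f) z = c * ex f z := rfl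

theorem ex_ext {k : ℕ} (f g : M k) (h : ∀ z : ℂ, 0 < z.im → ex f z = ex g z) : f = g := by
  ext τ
  rw [← ex_coe f τ, ← ex_coe g τ]
  exact h τ τ.im_pos

theorem im_mul_pos {l : ℕ} (hl : 0 < l) {z : ℂ} (hz : 0 < z.im) : 0 < ((l : ℂ) * z).im := by
  have h : ((l : ℂ) * z).im = l * z.im := by simp
  rw [h]
  have : (0 : ℝ) < l := by exact_mod_cast hl
  positivity

theorem im_div_pos {l : ℕ} (hl : 0 < l) {z : ℂ} (hz : 0 < z.im) (j : ℕ) :
    0 < ((z + j) / l).im := by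
  have h : ((z + j) / l).im = z.im / l := by simp
  rw [h]
  have : (0 : ℝ) < l := by exact_mod_cast hl
  positivity

theorem hec_congr (k l : ℕ) (hl : l.Prime) (F G : ℂ → ℂ) (h : ∀ z : ℂ, 0 < z.im → F z = G z)
    (z : ℂ) (hz : 0 < z.im) : hec k l F z = hec k l G z := by
  unfold hec
  rw [h _ (im_mul_pos hl.pos hz)]
  congr 2
  refine Finset.sum_congr rfl fun j _ => ?_
  exact h _ (im_div_pos hl.pos hz j)

/-- the coefficient functionals -/
noncomputable def cfL (k : ℕ) (m : ℕ) : M k →ₗ[ℂ] ℂ where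
  toFun f := cf f m
  map_add' f g := cf_add f g m
  map_smul' c f := cf_smul c f m

theorem cfL_apply {k : ℕ} (m : ℕ) (f : M k) : cfL k m f = cf f m := rfl

/-- The set of generators of the coefficient field. -/
def gens (a : ℕ → ℂ) : Set ℂ := {z : ℂ | ∃ ℓ : ℕ, ℓ.Prime ∧ ¬ ℓ ∣ 1 * 2 ∧ z = a ℓ}

theorem one_form (n : ℕ) (hn : 1 ≤ n) (lam : AlgebraicClosure ℚ_[2])
    (h : Polynomial.aeval lam (U n).charpoly = 0) (hdeg : 2 < (minpoly ℚ_[2] lam).natDegree) :
    ∃ f : M (4 * n), cf f 0 = 0 ∧ cf f 1 = 1 ∧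
      (∀ l : ℕ, l.Prime → ∀ m : ℕ,
        cf f (l * m) + (if l ∣ m then (l : ℂ) ^ (4 * n - 1) * cf f (m / l) else 0) =
          cf f l * cf f m) ∧
      ∃ ι : (IntermediateField.adjoin ℚ (gens (cf f))) →+* AlgebraicClosure ℚ_[2],
        (FiniteDimensional ℚ_[2] (IntermediateField.adjoin ℚ_[2] (Set.range ι)) →
        (minpoly ℚ_[2] lam).natDegree ≤
          2 * Module.finrank ℚ_[2] (IntermediateField.adjoin ℚ_[2] (Set.range ι))) := by
  have hint := lam_int h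
  obtain ⟨lc, hlc, hmin⟩ := exists_lc hint
  have hdeg2 : 2 < (minpoly ℚ lc).natDegree := by
    rw [hmin]
    exact lt_of_lt_of_le hdeg (deg_le_rat hint)
  have hlcroot : Polynomial.aeval lc (U n).charpoly = 0 := by
    obtain ⟨q, hq⟩ := lam_dvd h
    rw [hq, map_mul, ← hmin, minpoly.aeval, zero_mul]
  obtain ⟨v, hv, hU⟩ := exists_vec hlcroot
  have hlc0 : lc ≠ 0 := by
    intro h0
    have := no_root hdeg2 0 1 0 (by norm_num)
    apply this
    simp [h0]
  have hlc2 : lc ^ 2 ≠ 2 ^ (4 * n - 2) := by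
    intro h0
    have := no_root hdeg2 1 0 (-2 ^ (4 * n - 2)) (by norm_num)
    apply this
    push_cast
    rw [h0]
    ring
  set α : ℂ := lc + 2 ^ (4 * n - 1) / lc with hα
  have hα2 : α ≠ 1 + 2 ^ (4 * n - 1) := by
    intro h0
    have := no_root hdeg2 1 (-(1 + 2 ^ (4 * n - 1))) (2 ^ (4 * n - 1)) (by norm_num)
    apply this
    push_cast
    have h1 : lc * α = lc ^ 2 + 2 ^ (4 * n - 1) := by
      rw [hα]
      field_simp
    rw [h0] at h1
    linear_combination -h1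
  obtain ⟨f0, hf0⟩ := fF_form v
  have hf0ne : f0 ≠ 0 := by
    rintro rfl
    obtain ⟨z, hz, hz2⟩ := fF_ne n hn v hv lc hlc2 hU
    apply hz2
    rw [← hf0 z hz]
    rfl
  have hk : 1 ≤ 4 * n := by omega
  -- Hecke operators
  have hex : ∀ l : ℕ, ∃ T : M (4 * n) →ₗ[ℂ] M (4 * n), l.Prime →
      (∀ f : M (4 * n), ∀ z : ℂ, 0 < z.im → ex (T f) z = hec (4 * n) l (ex f) z) ∧
      ∀ f : M (4 * n), ∀ m : ℕ, cf (T f) m =
        cf f (l * m) + if l ∣ m then (l : ℂ) ^ (4 * n - 1) * cf f (m / l) else 0 := by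
    intro l
    by_cases hl : l.Prime
    · obtain ⟨T, hT⟩ := hecke (4 * n) hk l hl
      exact ⟨T, fun _ => hT⟩
    · exact ⟨0, fun h => absurd h hl⟩
  choose T hT using hex
  have h2 : T 2 f0 = α • f0 := by
    apply ex_ext
    intro z hz
    rw [(hT 2 Nat.prime_two).1 f0 z hz, hec_congr (4 * n) 2 Nat.prime_two (ex f0) (fF v) hf0 z hz,
      fF_eig n hn v lc hlc0 hU z hz, ex_smul_scal, hf0 z hz]
  obtain ⟨f1, hf1, hf12, hf1e⟩ := common_eig T {l : ℕ | l.Prime}
    (fun i hi j hj f => hecke_comm (4 * n) i j hi hj (T i) (T j) (hT i hi).2 (hT j hj).2 f)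
    2 Nat.prime_two α f0 hf0ne h2
  have hex2 : ∀ l : ℕ, ∃ μ : ℂ, l.Prime → T l f1 = μ • f1 := by
    intro l
    by_cases hl : l.Prime
    · obtain ⟨μ, hμ⟩ := hf1e l hl
      exact ⟨μ, fun _ => hμ⟩
    · exact ⟨0, fun h => absurd h hl⟩
  choose mu hmu using hex2
  have hmu2 : mu 2 = α := by
    have h3 : mu 2 • f1 = α • f1 := by rw [← hmu 2 Nat.prime_two, hf12]
    have h4 : (mu 2 - α) • f1 = 0 := by rw [sub_smul, h3, sub_self]
    rcases smul_eq_zero.mp h4 with h5 | h5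
    · exact sub_eq_zero.mp h5
    · exact absurd h5 hf1
  have hrel1 : ∀ l : ℕ, l.Prime → ∀ m : ℕ,
      cf f1 (l * m) + (if l ∣ m then (l : ℂ) ^ (4 * n - 1) * cf f1 (m / l) else 0) =
        mu l * cf f1 m := by
    intro l hl m
    rw [← (hT l hl).2 f1 m, hmu l hl, cf_smul]
  have hone := cf_one_ne hk f1 hf1 mu hrel1
  set f : M (4 * n) := (cf f1 1)⁻¹ • f1 with hf
  have hfc : ∀ m, cf f m = (cf f1 1)⁻¹ * cf f1 m := fun m => cf_smul _ _ _
  have hfne : f ≠ 0 := smul_ne_zero (inv_ne_zero hone) hf1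
  have hrel : ∀ l : ℕ, l.Prime → ∀ m : ℕ,
      cf f (l * m) + (if l ∣ m then (l : ℂ) ^ (4 * n - 1) * cf f (m / l) else 0) =
        mu l * cf f m := by
    intro l hl m
    have h3 := hrel1 l hl m
    simp only [hfc]
    split_ifs with h4
    · rw [if_pos h4] at h3
      linear_combination (cf f1 1)⁻¹ * h3
    · rw [if_neg h4] at h3
      linear_combination (cf f1 1)⁻¹ * h3
  have hf1' : cf f 1 = 1 := by
    rw [hfc]
    exact inv_mul_cancel₀ hone
  have hmul : ∀ l : ℕ, l.Prime → mu l = cf f l := fun l hl => eigval f hf1' mu hrel l hl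
  have hrel2 : ∀ l : ℕ, l.Prime → ∀ m : ℕ,
      cf f (l * m) + (if l ∣ m then (l : ℂ) ^ (4 * n - 1) * cf f (m / l) else 0) =
        cf f l * cf f m := by
    intro l hl m
    rw [← hmul l hl]
    exact hrel l hl m
  have hcusp : cf f 0 = 0 := by
    apply cf_zero f mu hrel
    rw [hmu2]
    exact hα2
  have hTf : ∀ l : ℕ, l.Prime → T l f = cf f l • f := by
    intro l hl
    rw [hf, map_smul, hmu l hl, ← hf, ← hmul l hl, smul_comm]
  refine ⟨f, hcusp, hf1', hrel2, ?_⟩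
  -- the coefficient field
  set K := IntermediateField.adjoin ℚ (gens (cf f)) with hK
  have hgen : ∀ l : ℕ, l.Prime → l ≠ 2 → cf f l ∈ K := by
    intro l hl hl2
    apply IntermediateField.subset_adjoin
    refine ⟨l, hl, ?_, rfl⟩
    rw [one_mul]
    intro hd
    exact hl2 ((Nat.prime_dvd_prime_iff_eq hl Nat.prime_two).mp hd)
  have hsp : Submodule.span ℂ {g : M (4 * n) | ∀ m, ∃ q : ℚ, cfL (4 * n) m g = (q : ℂ)} = ⊤ :=
    rat_span n
  have hαK : α ∈ K := by
    have hα3 : α = cf f 2 := by rw [← hmu2, hmul 2 Nat.prime_two]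
    obtain ⟨s, hs1, hs2⟩ := rat_comb (cfL (4 * n)) hsp {m | Odd m}
      (fun g hg => odd_zero hk g hg) 2
    have h3 := hs2 f
    rw [cfL_apply, ← hα3] at h3
    rw [h3]
    refine sum_mem fun m hm => ?_
    have h4 : cf f m ∈ K := odd_mem K (4 * n) (cf f) hf1' hrel2 hgen m (hs1 m hm)
    have h5 : ((s m : ℚ) : ℂ) ∈ K := by
      have := K.algebraMap_mem (s m)
      simpa using this
    exact K.mul_mem h5 h4
  have hKalg : ∀ x ∈ K, IsAlgebraic ℚ x := by
    have h3 : ∀ x ∈ gens (cf f), IsIntegral ℚ x := by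
      rintro x ⟨l, hl, -, rfl⟩
      have h4 : IsAlgebraic ℚ (cf f l) := by
        have hz : ∀ g : M (4 * n), (∀ m, cfL (4 * n) m g = 0) → g = 0 := by
          intro g hg
          apply form_ext g 0
          intro m
          rw [← cfL_apply, ← cfL_apply, map_zero]
          exact hg m
        refine alg_eig (cfL (4 * n)) hsp hz (T l) ?_ (cf f l) f hfne (hTf l hl)
        · intro g hg m
          obtain ⟨q1, hq1⟩ := hg (l * m)
          rw [cfL_apply, (hT l hl).2 g m]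
          rw [cfL_apply] at hq1
          split_ifs with h5
          · obtain ⟨q2, hq2⟩ := hg (m / l)
            rw [cfL_apply] at hq2
            refine ⟨q1 + (l : ℚ) ^ (4 * n - 1) * q2, ?_⟩
            rw [hq1, hq2]
            push_cast
            ring
          · exact ⟨q1, by rw [hq1, add_zero]⟩
      exact h4.isIntegral
    have h4 := IntermediateField.isAlgebraic_adjoin (K := ℚ) (S := gens (cf f)) h3
    intro x hx
    have h5 := h4.isAlgebraic (⟨x, hx⟩ : K)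
    have h6 : IsAlgebraic ℚ (algebraMap K ℂ ⟨x, hx⟩) := h5.algebraMap
    exact h6
  obtain ⟨ι, hι⟩ := emb_ext K hKalg lc lam hlc hlc0 hmin (2 ^ (4 * n - 1)) α hαK (by
    rw [hα]
    push_cast
    rfl)
  refine ⟨ι, fun hfd => ?_⟩
  have hlam0 : lam ≠ 0 := by
    intro h0
    rw [h0, minpoly.zero] at hdeg
    simp at hdeg
  have := hfd
  apply deg_le _ lam hlam0 (2 ^ (4 * n - 1))
  rw [← hι]
  exact IntermediateField.subset_adjoin _ _ ⟨_, rfl⟩

theorem main_neg (hB : PartB) :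
    ¬ (∀ (N p : ℕ) [Fact p.Prime], 0 < N → ¬ p ∣ N →
      ∃ c : ℕ, ∀ k : ℕ, 1 ≤ k →
        ∀ (f : CuspForm (CongruenceSubgroup.Gamma1 N) (k : ℤ))
          (χ : DirichletCharacter ℂ N) (a : ℕ → ℂ),
          (∀ τ : UpperHalfPlane,
              HasSum (fun n : ℕ => a n * Complex.exp (2 * Real.pi * Complex.I * (n : ℂ) * (τ : ℂ)))
                (f τ)) →
          (∀ γ ∈ CongruenceSubgroup.Gamma0 N, ∀ τ : UpperHalfPlane,
              f (γ • τ) =
                χ ((((γ : Matrix (Fin 2) (Fin 2) ℤ) 1 1 : ℤ)) : ZMod N) *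
                  ((((γ : Matrix (Fin 2) (Fin 2) ℤ) 1 0 : ℤ) : ℂ) * (τ : ℂ) +
                    (((γ : Matrix (Fin 2) (Fin 2) ℤ) 1 1 : ℤ) : ℂ)) ^ k * f τ) →
          a 1 = 1 →
          (∀ ℓ : ℕ, ℓ.Prime → ¬ ℓ ∣ N → ∀ n : ℕ, 1 ≤ n →
              a (n * ℓ) + (if ℓ ∣ n then χ (ℓ : ZMod N) * (ℓ : ℂ) ^ (k - 1) * a (n / ℓ) else 0)
                = a ℓ * a n) →
          ∀ ι : (IntermediateField.adjoin ℚ
                  {z : ℂ | ∃ ℓ : ℕ, ℓ.Prime ∧ ¬ ℓ ∣ N * p ∧ z = a ℓ}) →+* AlgebraicClosure ℚ_[p],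
            FiniteDimensional ℚ_[p] (IntermediateField.adjoin ℚ_[p] (Set.range ι)) ∧
              Module.finrank ℚ_[p] (IntermediateField.adjoin ℚ_[p] (Set.range ι)) ≤ c) := by
  intro hall
  obtain ⟨c, hc⟩ := hall 1 2 one_pos (by norm_num)
  obtain ⟨n, hn, lam, hroot, hdeg⟩ := hB (2 * c + 2)
  obtain ⟨f, hf0, hf1, hrel, ι, hι⟩ := one_form n hn lam hroot (by omega)
  obtain ⟨g, hg⟩ := to_cusp f hf0
  obtain ⟨h1, h2⟩ := hc (4 * n) (by omega) g 1 (cf f) (by
      intro τ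
      rw [hg τ, ← ex_coe f τ]
      exact ex_hasSum f τ τ.im_pos) (by
      intro γ _ τ
      rw [hg, hg]
      exact slash_one f 1 γ τ) hf1 (by
      intro l hl _ m _
      have h3 := hrel l hl m
      rw [mul_comm m l]
      have h4 : (1 : DirichletCharacter ℂ 1) (l : ZMod 1) = 1 := by
        rw [Subsingleton.elim ((l : ZMod 1)) 1]
        exact map_one _
      rw [h4, one_mul]
      exact h3) ι
  have h3 := le_trans (hι h1) (Nat.mul_le_mul_left 2 h2)
  omega

end Pool.Agent.Helper59.BZ
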