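import Mathlib

/-! BZ-G1 (context free). From a root of the reduction mod 2 to a root of large degree over ℚ_2.

PROOF. Q is not 0; ℤ_[2][X] is a unique factorisation domain, so Q is associated to a product of
irreducibles Q_j. The reduction of Q vanishes at x, so the reduction of some Q_j vanishes at x, and it
is not 0 (otherwise Q mod 2 = 0). Q_j is not constant (its reduction would be a nonzero constant),
so it is primitive (`Irreducible.isPrimitive`) and irreducible over ℚ_[2]
(`Polynomial.IsPrimitive.irreducible_iff_irreducible_map_fraction_map`). Let t be a root of Q_j in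
the algebraic closure: deg (minpoly t) = deg Q_j >= deg (Q_j mod 2) >= deg (minpoly (ZMod 2) x). -/

set_option autoImplicit false

namespace Pool.Agent.Helper59.BZ

open Polynomial

theorem res_root {Ω : Type*} [Field Ω] [Algebra (ZMod 2) Ω] (Q : ℤ_[2][X])
    (hQ : Q.map (PadicInt.toZMod (p := 2)) ≠ 0) (x : Ω)
    (hx : Polynomial.aeval x (Q.map (PadicInt.toZMod (p := 2))) = 0) :
    ∃ t : AlgebraicClosure ℚ_[2],
      Polynomial.aeval t (Q.map (algebraMap ℤ_[2] ℚ_[2])) = 0 ∧
      (minpoly (ZMod 2) x).natDegree ≤ (minpoly ℚ_[2] t).natDegree := by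
  classical
  have hQ0 : Q ≠ 0 := by
    rintro rfl
    exact hQ (by simp)
  obtain ⟨f, hf, u, hu⟩ := UniqueFactorizationMonoid.exists_prime_factors Q hQ0
  -- the evaluation of the reduction at `x`
  let φ : ℤ_[2][X] →+* Ω :=
    (Polynomial.aeval x : (ZMod 2)[X] →ₐ[ZMod 2] Ω).toRingHom.comp
      (Polynomial.mapRingHom (PadicInt.toZMod (p := 2)))
  have hφ : ∀ q : ℤ_[2][X], φ q = Polynomial.aeval x (q.map (PadicInt.toZMod (p := 2))) :=
    fun q => rfl
  have h0 : φ f.prod = 0 := by
    have h1 : φ f.prod * φ (u : ℤ_[2][X]) = 0 := by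
      rw [← map_mul, hu, hφ]
      exact hx
    rcases mul_eq_zero.1 h1 with h2 | h2
    · exact h2
    · exact absurd h2 ((u.isUnit.map φ).ne_zero)
  rw [map_multiset_prod, Multiset.prod_eq_zero_iff, Multiset.mem_map] at h0
  obtain ⟨q, hqf, hq0⟩ := h0
  rw [hφ] at hq0
  have hdvd : q ∣ Q := (Multiset.dvd_prod hqf).trans ⟨(u : ℤ_[2][X]), hu.symm⟩
  have hqirr : Irreducible q := (hf q hqf).irreducible
  have hqmap : q.map (PadicInt.toZMod (p := 2)) ≠ 0 := by
    intro h
    obtain ⟨r, hr⟩ := hdvd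
    apply hQ
    rw [hr, Polynomial.map_mul, h, zero_mul]
  have hdeg : q.natDegree ≠ 0 := by
    intro h
    obtain ⟨c, hc⟩ := Polynomial.natDegree_eq_zero.1 h
    rw [← hc, Polynomial.map_C] at hq0 hqmap
    rw [Polynomial.aeval_C] at hq0
    have h3 : PadicInt.toZMod (p := 2) c ≠ 0 := fun h4 => hqmap (by rw [h4, Polynomial.C_0])
    exact h3 ((map_eq_zero (algebraMap (ZMod 2) Ω)).1 hq0)
  have hprim : q.IsPrimitive := hqirr.isPrimitive hdeg
  have hirr : Irreducible (q.map (algebraMap ℤ_[2] ℚ_[2])) :=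
    (hprim.irreducible_iff_irreducible_map_fraction_map (K := ℚ_[2])).1 hqirr
  have hinj : Function.Injective (algebraMap ℤ_[2] ℚ_[2]) :=
    IsFractionRing.injective ℤ_[2] ℚ_[2]
  have hnd : (q.map (algebraMap ℤ_[2] ℚ_[2])).natDegree = q.natDegree :=
    Polynomial.natDegree_map_eq_of_injective hinj q
  obtain ⟨t, ht⟩ := IsAlgClosed.exists_aeval_eq_zero (AlgebraicClosure ℚ_[2])
    (q.map (algebraMap ℤ_[2] ℚ_[2])) (by
      intro h
      apply hdeg
      rw [← hnd]
      exact Polynomial.natDegree_eq_of_degree_eq_some h)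
  refine ⟨t, ?_, ?_⟩
  · obtain ⟨r, hr⟩ := hdvd
    rw [hr, Polynomial.map_mul, map_mul, ht, zero_mul]
  · have h5 : (minpoly ℚ_[2] t).natDegree = (q.map (algebraMap ℤ_[2] ℚ_[2])).natDegree := by
      rw [← minpoly.eq_of_irreducible hirr ht]
      exact Polynomial.natDegree_mul_leadingCoeff_inv _ hirr.ne_zero
    rw [h5, hnd]
    calc (minpoly (ZMod 2) x).natDegree
        ≤ (q.map (PadicInt.toZMod (p := 2))).natDegree :=
          Polynomial.natDegree_le_natDegree (minpoly.degree_le_of_ne_zero (ZMod 2) x hqmap hq0)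
      _ ≤ q.natDegree := Polynomial.natDegree_map_le

end Pool.Agent.Helper59.BZ
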