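import Mathlib

/-! BZ-G2 (context free). The Wiedemann tower and a Hankel matrix over an algebraically closed
field of characteristic two.

(1) `xs_exists`: x^2 - y x + 1 = 0 is solvable; x is not 0 and x + 1/x = y. Recursion on i.
(2) `xs_ne`: if x (i+1) = 0 then x i = 0 + 0⁻¹ = 0, down to x 0 = 0, but x 0 = 1.
(3) `xs_inj`: with phi t = t + t⁻¹: phi^[i] (x i) = 1; phi 1 = 0 (characteristic 2), phi 0 = 0; if
x i = x j with i < j then 1 = phi^[j] (x j) = phi^[j] (x i) = phi^[j-i] 1 = 0.
(4) `deg_unbdd`: if all degrees were <= c, all x i would be roots of the finitely many polynomials over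
ZMod 2 of degree <= c (or of X^(2^(c!)) - X), a finite set; contradiction to (3).
(5) `hankel_vec`: there is w : ℕ → F, w 0 = 1, w a = 0 for a > Mt I, such that for all a
 sum over s <= I with a <= Mt s of w (Mt s - a) = x I * w a.
PROOF by induction on I. I = 0: w = indicator of 0. I -> I+1: w' a = w a for a <= Mt I,
w' a = w (Mt (I+1) - a) / x (I+1) for Mt (I+1) - Mt I <= a <= Mt (I+1), and 0 otherwise (the ranges
are disjoint: Mt (I+1) = Mt I + 4^(Mt I) >= 2 Mt I + 1). For a <= Mt I: the terms s <= I give
x I * w a, the term s = I+1 gives w a/x (I+1), and x I + 1/x (I+1) = x (I+1) (char 2). For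
a > Mt I only s = I+1 contributes: w' (Mt (I+1) - a) = x (I+1) w' a in all cases.
(6) `hankel_root`: the m x m matrix (m > Mt I) with entry 1 at (a, b) if a + b = Mt s for some
s <= I, and 0 otherwise, has the eigenvector w (restricted), so x I is a root of its characteristic
polynomial (`Matrix.eval_charpoly`, `Matrix.exists_mulVec_eq_zero_iff`). (Mt is strictly
monotone, so for given a, b there is at most one s.) -/

set_option autoImplicit false

namespace Pool.Agent.Helper59.BZ

open Polynomial

/-- 0, 1, 5, 1029, ... -/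
def Mt : ℕ → ℕ
  | 0 => 0
  | s + 1 => Mt s + 2 ^ (2 * Mt s)

theorem Mt_lt (s : ℕ) : 2 * Mt s < Mt (s + 1) := by
  have h1 : Mt s < 2 ^ (2 * Mt s) :=
    lt_of_le_of_lt (by omega) (Nat.lt_two_pow_self (n := 2 * Mt s))
  simp only [Mt]
  omega

theorem Mt_mono : StrictMono Mt :=
  strictMono_nat_of_lt_succ fun s => by
    have := Mt_lt s
    omega

theorem xs_exists (F : Type*) [Field F] [IsAlgClosed F] :
    ∃ x : ℕ → F, x 0 = 1 ∧ ∀ i, x (i + 1) + (x (i + 1))⁻¹ = x i := by
  have key : ∀ y : F, ∃ z : F, z + z⁻¹ = y := by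
    intro y
    obtain ⟨z, hz⟩ := IsAlgClosed.exists_root (X ^ 2 - C y * X + 1 : F[X]) (by
      have : (X ^ 2 - C y * X + 1 : F[X]).degree = 2 := by compute_degree!
      rw [this]
      norm_num)
    have hz' : z ^ 2 - y * z + 1 = 0 := by simpa [IsRoot] using hz
    have hz0 : z ≠ 0 := by
      rintro rfl
      simp at hz'
    refine ⟨z, ?_⟩
    field_simp
    linear_combination hz'
  choose f hf using key
  exact ⟨fun n => Nat.rec 1 (fun _ y => f y) n, rfl, fun i => hf _⟩

theorem xs_ne {F : Type*} [Field F] (x : ℕ → F) (h0 : x 0 = 1)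
    (h : ∀ i, x (i + 1) + (x (i + 1))⁻¹ = x i) (i : ℕ) : x i ≠ 0 := by
  induction i with
  | zero => rw [h0]; exact one_ne_zero
  | succ i ih =>
    intro hx
    apply ih
    rw [← h i, hx]
    simp

theorem xs_inj {F : Type*} [Field F] [CharP F 2] (x : ℕ → F) (h0 : x 0 = 1)
    (h : ∀ i, x (i + 1) + (x (i + 1))⁻¹ = x i) : Function.Injective x := by
  have h2 : (1 : F) + 1 = 0 := CharTwo.add_self_eq_zero 1
  have hit : ∀ i, (fun t : F => t + t⁻¹)^[i] (x i) = 1 := by
    intro i
    induction i with
    | zero => simpa using h0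
    | succ i ih =>
      rw [Function.iterate_succ_apply]
      simp only [h i]
      exact ih
  have hz : ∀ k, (fun t : F => t + t⁻¹)^[k] 0 = 0 := by
    intro k
    induction k with
    | zero => rfl
    | succ k ih =>
      rw [Function.iterate_succ_apply]
      simpa using ih
  have hone : ∀ k, (fun t : F => t + t⁻¹)^[k + 1] 1 = 0 := by
    intro k
    rw [Function.iterate_succ_apply]
    have : (1 : F) + 1⁻¹ = 0 := by simpa using h2
    simp only [this]
    exact hz k
  have main : ∀ i k, x i ≠ x (i + (k + 1)) := by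
    intro i k hik
    have h3 := hit (i + (k + 1))
    rw [← hik, add_comm i (k + 1), Function.iterate_add_apply, hit i, hone k] at h3
    exact zero_ne_one h3
  intro i j hij
  rcases lt_trichotomy i j with hlt | heq | hlt
  · obtain ⟨k, rfl⟩ := Nat.exists_eq_add_of_lt hlt
    exact absurd hij (main i k)
  · exact heq
  · obtain ⟨k, rfl⟩ := Nat.exists_eq_add_of_lt hlt
    exact absurd hij.symm (main j k)

theorem deg_unbdd {F : Type*} [Field F] [Algebra (ZMod 2) F] [Algebra.IsAlgebraic (ZMod 2) F]
    (x : ℕ → F) (h0 : x 0 = 1)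
    (h : ∀ i, x (i + 1) + (x (i + 1))⁻¹ = x i) (c : ℕ) :
    ∃ i, c < (minpoly (ZMod 2) (x i)).natDegree := by
  have : CharP F 2 := charP_of_injective_algebraMap (algebraMap (ZMod 2) F).injective 2
  by_contra hc
  push Not at hc
  have hS : {p : (ZMod 2)[X] | p.degree < (c + 1 : ℕ)}.Finite := by
    have h1 : Finite (degreeLT (ZMod 2) (c + 1)) :=
      Finite.of_equiv _ (degreeLTEquiv (ZMod 2) (c + 1)).symm.toEquiv
    refine (Set.toFinite ((degreeLT (ZMod 2) (c + 1) : Submodule (ZMod 2) (ZMod 2)[X]) :
      Set (ZMod 2)[X])).subset ?_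
    intro p hp
    exact mem_degreeLT.2 hp
  have hfin : (Set.range x).Finite := by
    refine (hS.biUnion (t := fun p => p.rootSet F) (fun p _ => p.rootSet_finite F)).subset ?_
    rintro _ ⟨i, rfl⟩
    have hint : IsIntegral (ZMod 2) (x i) :=
      (Algebra.IsAlgebraic.isAlgebraic (R := ZMod 2) (x i)).isIntegral
    simp only [Set.mem_iUnion, exists_prop]
    refine ⟨minpoly (ZMod 2) (x i), ?_, ?_⟩
    · show (minpoly (ZMod 2) (x i)).degree < ((c + 1 : ℕ) : WithBot ℕ)
      rw [degree_eq_natDegree (minpoly.ne_zero hint)]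
      exact_mod_cast Nat.lt_succ_of_le (hc i)
    · rw [mem_rootSet]
      exact ⟨minpoly.ne_zero hint, minpoly.aeval _ _⟩
  exact Set.infinite_range_of_injective (xs_inj x h0 h) hfin

/-- the Hankel matrix -/
noncomputable def hank (R : Type*) [CommRing R] (I m : ℕ) : Matrix (Fin m) (Fin m) R :=
  Matrix.of fun a b => if ∃ s, s ≤ I ∧ (a : ℕ) + b = Mt s then 1 else 0

theorem hankel_vec {F : Type*} [Field F] [CharP F 2] (x : ℕ → F) (h0 : x 0 = 1)
    (h : ∀ i, x (i + 1) + (x (i + 1))⁻¹ = x i) (I : ℕ) :
    ∃ w : ℕ → F, w 0 = 1 ∧ (∀ a, Mt I < a → w a = 0) ∧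
      ∀ a, ∑ s ∈ Finset.range (I + 1), (if a ≤ Mt s then w (Mt s - a) else 0) = x I * w a := by
  induction I with
  | zero =>
    refine ⟨fun a => if a = 0 then 1 else 0, by simp, ?_, ?_⟩
    · intro a ha
      simp only [Mt] at ha
      have : a ≠ 0 := by omega
      simp [this]
    · intro a
      rw [zero_add, Finset.sum_range_one, h0, one_mul]
      rcases Nat.eq_zero_or_pos a with rfl | ha
      · simp [Mt]
      · have h1 : a ≠ 0 := by omega
        simp [Mt, h1]
  | succ I ih =>
    obtain ⟨w, hw0, hwz, hw⟩ := ih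
    have hz : x (I + 1) ≠ 0 := xs_ne x h0 h (I + 1)
    have hM := Mt_lt I
    have hx := h I
    generalize hzz : x (I + 1) = z at *
    generalize hMM : Mt (I + 1) = M' at *
    refine ⟨fun a => w a + (if a ≤ M' then w (M' - a) * z⁻¹ else 0), ?_, ?_, ?_⟩
    · have h1 : w M' = 0 := hwz M' (by omega)
      simp [hw0, h1]
    · intro a ha
      have h1 : w a = 0 := hwz a (by omega)
      have h2 : ¬ a ≤ M' := by omega
      simp [h1, h2]
    · intro a
      have h2 : ∀ t : F, t + t = 0 := fun t => CharTwo.add_self_eq_zero t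
      rw [Finset.sum_range_succ, hMM]
      have hfirst : ∑ s ∈ Finset.range (I + 1), (if a ≤ Mt s then
          (w (Mt s - a) + (if Mt s - a ≤ M' then w (M' - (Mt s - a)) * z⁻¹ else 0)) else 0)
          = x I * w a := by
        rw [← hw a]
        refine Finset.sum_congr rfl fun s hs => ?_
        have hs' : Mt s ≤ Mt I := Mt_mono.monotone (by
          have := Finset.mem_range.1 hs
          omega)
        have h3 : w (M' - (Mt s - a)) = 0 := hwz _ (by omega)
        rw [h3]
        simp
      rw [hfirst]
      by_cases ha : a ≤ M'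
      · have h4 : M' - (M' - a) = a := by omega
        have h5 : M' - a ≤ M' := by omega
        simp only [ha, h5, if_true, h4]
        rw [← hx]
        have h6 : z * (w (M' - a) * z⁻¹) = w (M' - a) := by
          field_simp
        rw [mul_add, h6]
        linear_combination h2 (z⁻¹ * w a)
      · have h1 : w a = 0 := hwz a (by omega)
        simp [ha, h1]

theorem hankel_root {F : Type*} [Field F] [CharP F 2] (x : ℕ → F) (h0 : x 0 = 1)
    (h : ∀ i, x (i + 1) + (x (i + 1))⁻¹ = x i) (I m : ℕ) (hm : Mt I < m) :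
    ((hank F I m).charpoly).eval (x I) = 0 := by
  classical
  obtain ⟨w, hw0, hwz, hw⟩ := hankel_vec x h0 h I
  rw [Matrix.eval_charpoly, ← Matrix.exists_mulVec_eq_zero_iff]
  refine ⟨fun b => w b, ?_, ?_⟩
  · intro hv
    have h1 := congrFun hv ⟨0, by omega⟩
    simp only [Pi.zero_apply] at h1
    rw [hw0] at h1
    exact one_ne_zero h1
  · ext a
    rw [Matrix.sub_mulVec]
    simp only [Pi.sub_apply, Pi.zero_apply]
    have h1 : (Matrix.scalar (Fin m) (x I)).mulVec (fun b : Fin m => w b) a = x I * w a := by
      simp [Matrix.scalar_apply, Matrix.mulVec_diagonal]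
    have h2 : (hank F I m).mulVec (fun b : Fin m => w b) a
        = ∑ s ∈ Finset.range (I + 1), (if (a : ℕ) ≤ Mt s then w (Mt s - a) else 0) := by
      have h3 : ∀ b : Fin m, hank F I m a b * w b
          = ∑ s ∈ Finset.range (I + 1), (if (a : ℕ) + b = Mt s then w b else 0) := by
        intro b
        simp only [hank, Matrix.of_apply]
        by_cases hs : ∃ s, s ≤ I ∧ (a : ℕ) + b = Mt s
        · obtain ⟨s, hsI, hs⟩ := hs
          rw [if_pos ⟨s, hsI, hs⟩, one_mul, Finset.sum_eq_single s]
          · rw [if_pos hs]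
          · intro t _ hts
            rw [if_neg]
            intro h4
            exact hts (Mt_mono.injective (h4.symm.trans hs))
          · intro h4
            exact absurd (Finset.mem_range.2 (by omega)) h4
        · rw [if_neg hs, zero_mul]
          symm
          refine Finset.sum_eq_zero fun s hs' => ?_
          rw [if_neg]
          intro h4
          exact hs ⟨s, by have := Finset.mem_range.1 hs'; omega, h4⟩
      simp only [Matrix.mulVec, dotProduct]
      rw [Finset.sum_congr rfl fun b _ => h3 b, Finset.sum_comm]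
      refine Finset.sum_congr rfl fun s hs => ?_
      have hsI : Mt s ≤ Mt I := Mt_mono.monotone (by
        have := Finset.mem_range.1 hs
        omega)
      by_cases ha : (a : ℕ) ≤ Mt s
      · rw [if_pos ha, Finset.sum_eq_single (⟨Mt s - a, by omega⟩ : Fin m)]
        · rw [if_pos]
          show (a : ℕ) + (Mt s - a) = Mt s
          omega
        · intro b _ hb
          rw [if_neg]
          intro h4
          apply hb
          ext
          show (b : ℕ) = Mt s - a
          omega
        · intro h4
          exact absurd (Finset.mem_univ _) h4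
      · rw [if_neg ha]
        refine Finset.sum_eq_zero fun b _ => ?_
        rw [if_neg]
        omega
    rw [h1, h2, hw a, sub_self]

end Pool.Agent.Helper59.BZ
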