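import Pool.Agent.Helper59.BZ.G2

/-! The degrees of the Wiedemann tower (helper59): the degree of x i over the field with two elements is at
least 2 ^ i. Induction: x i ^ (2 ^ (2 ^ i)) = x i, the traces of x i and of its inverse are 1, and
x (i+1) ^ (2 ^ (2 ^ i)) = (x (i+1))⁻¹. -/

set_option autoImplicit false

namespace Pool.Agent.Helper59.BZ

open Polynomial Finset

/-- the trace sum of length m -/
def trs {F : Type*} [Field F] (m : ℕ) (y : F) : F := ∑ j ∈ range m, y ^ (2 ^ j)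

theorem sq_add {F : Type*} [Field F] [CharP F 2] (j : ℕ) (a b : F) :
    (a + b) ^ (2 ^ j) = a ^ (2 ^ j) + b ^ (2 ^ j) := add_pow_char_pow a b 2 j

theorem trs_sq {F : Type*} [Field F] [CharP F 2] (m : ℕ) (y : F) : trs m (y ^ 2) = (trs m y) ^ 2 := by
  induction m with
  | zero => simp [trs]
  | succ m ih =>
    have h1 : trs (m + 1) (y ^ 2) = trs m (y ^ 2) + (y ^ 2) ^ (2 ^ m) := by
      simp [trs, Finset.sum_range_succ]
    have h2 : trs (m + 1) y = trs m y + y ^ (2 ^ m) := by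
      simp [trs, Finset.sum_range_succ]
    have h3 := sq_add 1 (trs m y) (y ^ (2 ^ m))
    rw [pow_one] at h3
    rw [h1, h2, ih, h3]
    congr 1
    rw [← pow_mul, ← pow_mul, mul_comm]

theorem trs_as {F : Type*} [Field F] [CharP F 2] (m : ℕ) (w : F) :
    trs m (w ^ 2 + w) = w ^ (2 ^ m) + w := by
  induction m with
  | zero =>
    have h2 : w + w = 0 := CharTwo.add_self_eq_zero w
    simp [trs, h2]
  | succ m ih =>
    have h1 : trs (m + 1) (w ^ 2 + w) = trs m (w ^ 2 + w) + (w ^ 2 + w) ^ (2 ^ m) := by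
      simp [trs, Finset.sum_range_succ]
    rw [h1, ih, sq_add, ← pow_mul, pow_succ, mul_comm (2 ^ m) 2]
    have h2 : w ^ (2 ^ m) + w ^ (2 ^ m) = 0 := CharTwo.add_self_eq_zero _
    linear_combination h2

theorem trs_double {F : Type*} [Field F] [CharP F 2] (m : ℕ) (y z : F) (h : y + y ^ (2 ^ m) = z) :
    trs (2 * m) y = trs m z := by
  have h1 : trs (2 * m) y = ∑ j ∈ range m, y ^ (2 ^ j) + ∑ j ∈ range m, y ^ (2 ^ (m + j)) := by
    rw [two_mul]
    exact Finset.sum_range_add _ _ _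
  rw [h1, ← Finset.sum_add_distrib]
  refine Finset.sum_congr rfl fun j _ => ?_
  rw [← h, sq_add, ← pow_mul, pow_add]

theorem tower {F : Type*} [Field F] [CharP F 2] (x : ℕ → F) (h0 : x 0 = 1)
    (h : ∀ i, x (i + 1) + (x (i + 1))⁻¹ = x i) (i : ℕ) :
    x i ^ (2 ^ (2 ^ i)) = x i ∧ trs (2 ^ i) (x i) = 1 ∧ trs (2 ^ i) (x i)⁻¹ = 1 ∧
      x (i + 1) ^ (2 ^ (2 ^ i)) = (x (i + 1))⁻¹ := by
  -- the last statement follows from the first three
  have key : ∀ i, x i ^ (2 ^ (2 ^ i)) = x i → trs (2 ^ i) (x i)⁻¹ = 1 →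
      x (i + 1) ^ (2 ^ (2 ^ i)) = (x (i + 1))⁻¹ := by
    intro i h1 h3
    have hy : x i ≠ 0 := xs_ne x h0 h i
    have hz : x (i + 1) ≠ 0 := xs_ne x h0 h (i + 1)
    set y := x i
    set z := x (i + 1)
    have hyz : z + z⁻¹ = y := h i
    set q := 2 ^ (2 ^ i) with hq
    have hzq : z ^ q + (z ^ q)⁻¹ = z + z⁻¹ := by
      rw [hyz, ← h1, ← hyz, sq_add, inv_pow]
    have hzq0 : z ^ q ≠ 0 := pow_ne_zero _ hz
    have h4 : (z ^ q - z) * (z ^ q * z - 1) = 0 := by
      field_simp at hzq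
      linear_combination hzq
    rcases mul_eq_zero.mp h4 with h5 | h5
    · exfalso
      have h6 : z ^ q = z := sub_eq_zero.mp h5
      have h7 : (z / y) ^ 2 + z / y = (y⁻¹) ^ 2 := by
        have h8 : z ^ 2 + z * y = 1 := by
          have h9 : z ^ 2 + 1 = y * z := by
            rw [← hyz]
            field_simp
          have h10 : z * y + z * y = 0 := CharTwo.add_self_eq_zero _
          have h11 : (1 : F) + 1 = 0 := CharTwo.add_self_eq_zero 1
          linear_combination h9 + h10 - h11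
        field_simp
        linear_combination h8
      have h8 := trs_as (2 ^ i) (z / y)
      rw [h7, trs_sq, h3, div_pow, h6, h1] at h8
      have h9 : z / y + z / y = 0 := CharTwo.add_self_eq_zero _
      rw [h9] at h8
      simp at h8
    · have h6 : z ^ q * z = 1 := sub_eq_zero.mp h5
      exact eq_inv_of_mul_eq_one_left h6
  have main : ∀ i, x i ^ (2 ^ (2 ^ i)) = x i ∧ trs (2 ^ i) (x i) = 1 ∧ trs (2 ^ i) (x i)⁻¹ = 1 := by
    intro i
    induction i with
    | zero => simp [h0, trs]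
    | succ i ih =>
      obtain ⟨h1, h2, h3⟩ := ih
      have h4 := key i h1 h3
      have hz : x (i + 1) ≠ 0 := xs_ne x h0 h (i + 1)
      have h5 : 2 ^ (i + 1) = 2 * 2 ^ i := by ring
      refine ⟨?_, ?_, ?_⟩
      · rw [h5, two_mul, pow_add, pow_mul, h4, inv_pow, h4, inv_inv]
      · rw [h5, trs_double (2 ^ i) (x (i + 1)) (x i) (by rw [h4, h i]), h2]
      · rw [h5, trs_double (2 ^ i) (x (i + 1))⁻¹ (x i) (by
          rw [inv_pow, h4, inv_inv, add_comm, h i]), h2]
  obtain ⟨h1, h2, h3⟩ := main i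
  exact ⟨h1, h2, h3, key i h1 h3⟩

theorem tower_ne {F : Type*} [Field F] [CharP F 2] (x : ℕ → F) (h0 : x 0 = 1)
    (h : ∀ i, x (i + 1) + (x (i + 1))⁻¹ = x i) (i : ℕ) : (x (i + 1))⁻¹ ≠ x (i + 1) := by
  intro h1
  have h2 := h i
  rw [h1] at h2
  have h3 : x (i + 1) + x (i + 1) = 0 := CharTwo.add_self_eq_zero _
  exact xs_ne x h0 h i (h2.symm.trans h3)

theorem two_pow_le_deg {F : Type*} [Field F] [Algebra (ZMod 2) F] [Algebra.IsAlgebraic (ZMod 2) F]
    (x : ℕ → F) (h0 : x 0 = 1)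
    (h : ∀ i, x (i + 1) + (x (i + 1))⁻¹ = x i) (i : ℕ) :
    2 ^ i ≤ (minpoly (ZMod 2) (x i)).natDegree := by
  have : CharP F 2 := charP_of_injective_algebraMap (algebraMap (ZMod 2) F).injective 2
  have hint : IsIntegral (ZMod 2) (x i) :=
    (Algebra.IsAlgebraic.isAlgebraic (R := ZMod 2) (x i)).isIntegral
  rcases Nat.eq_zero_or_pos i with rfl | hi
  · simpa using Nat.succ_le_of_lt (minpoly.natDegree_pos hint)
  obtain ⟨i, rfl⟩ : ∃ k, i = k + 1 := ⟨i - 1, by omega⟩
  set n := (minpoly (ZMod 2) (x (i + 1))).natDegree with hn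
  -- x ^ (2 ^ n) = x
  have hfrob : x (i + 1) ^ (2 ^ n) = x (i + 1) := by
    set K := IntermediateField.adjoin (ZMod 2) {x (i + 1)} with hK
    have := IntermediateField.adjoin.finiteDimensional hint
    have : Finite K := Module.finite_of_finite (ZMod 2)
    have := Fintype.ofFinite K
    have h1 : Fintype.card K = 2 ^ n := by
      rw [Module.card_eq_pow_finrank (K := ZMod 2) (V := K), ZMod.card, hK,
        IntermediateField.adjoin.finrank hint]
    have h2 := FiniteField.pow_card (⟨x (i + 1), IntermediateField.mem_adjoin_simple_self _ _⟩ : K)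
    rw [h1] at h2
    exact congrArg (fun y : K => (y : F)) h2
  set φ : F → F := fun y => y ^ 2 with hφ
  have hit : ∀ m y, φ^[m] y = y ^ (2 ^ m) := by
    intro m
    induction m with
    | zero => intro y; simp
    | succ m ih =>
      intro y
      rw [Function.iterate_succ_apply, ih, hφ, ← pow_mul, pow_succ, mul_comm]
  have hp1 : Function.IsPeriodicPt φ n (x (i + 1)) := by
    unfold Function.IsPeriodicPt Function.IsFixedPt
    rw [hit, hfrob]
  have hp2 : Function.IsPeriodicPt φ (2 ^ (i + 1)) (x (i + 1)) := by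
    unfold Function.IsPeriodicPt Function.IsFixedPt
    rw [hit, (tower x h0 h (i + 1)).1]
  have hp3 : ¬ Function.IsPeriodicPt φ (2 ^ i) (x (i + 1)) := by
    unfold Function.IsPeriodicPt Function.IsFixedPt
    rw [hit, (tower x h0 h i).2.2.2]
    exact tower_ne x h0 h i
  obtain ⟨m, hm, hm2⟩ := (Nat.dvd_prime_pow Nat.prime_two).mp hp2.minimalPeriod_dvd
  have h5 : m = i + 1 := by
    by_contra hne
    apply hp3
    have h6 : Function.minimalPeriod φ (x (i + 1)) ∣ 2 ^ i := by
      rw [hm2]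
      exact pow_dvd_pow 2 (by omega)
    exact (Function.isPeriodicPt_minimalPeriod φ (x (i + 1))).trans_dvd h6
  rw [h5] at hm2
  have h6 := hp1.minimalPeriod_dvd
  rw [hm2] at h6
  exact Nat.le_of_dvd (minpoly.natDegree_pos hint) h6

end Pool.Agent.Helper59.BZ
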