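import Mathlib

/-! BZ-G4 (context free). The characteristic polynomial of a matrix with a block LDR decomposition,
at the scale of the second block, mod 2.

Setting: q, m; L11, R11 (q x q), L21 (m x q), R12 (q x m), St (m x m) matrices over ℤ_[2] with
det L11 and det R11 units, R12 = 0 mod 2; d : Fin q → ℚ_[2] and s0 in ℚ_[2], not 0, with
s0/d_k = e_k in 2 ℤ_[2] (so d_k is not 0 and has smaller valuation than s0);
A = [L11 0; L21 1] [diag(d) 0; 0 s0 St] [R11 R12; 0 1] over ℚ_[2].
CLAIM: there is Q in ℤ_[2][X] whose reduction mod 2 is a nonzero constant times the characteristic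
polynomial of St mod 2, such that s0 t is a root of the characteristic polynomial of A for
every root t of Q in the algebraic closure.

PROOF. det(X - A) = det(X - E V), where E = diag(d, s0 1) and V = [1 0; 0 St] [R11 R12; 0 1]
[L11 0; L21 1] = [R11 L11 + R12 L21, R12; St L21, St] is a matrix over ℤ_[2]
(`Matrix.charpoly_mul_comm`). Let Q(T) = det(T diag(e, 1) - V) in ℤ_[2][T]. For t in the algebraic
closure, s0 t - E V = E (t diag(s0/d, 1) - V) = E (t diag(e, 1) - V), so
det(s0 t - E V) = det(E) Q(t). Mod 2: e = 0 and R12 = 0, so Q mod 2 =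
det [-R11 L11, 0; -St L21, T - St] = det(-R11 L11) det(T - St). -/

set_option autoImplicit false

namespace Pool.Agent.Helper59.BZ

open Polynomial Matrix

/-- reduction of matrices and the inclusion in ℚ_2 -/
noncomputable abbrev toQ {m n : Type*} (A : Matrix m n ℤ_[2]) : Matrix m n ℚ_[2] :=
  A.map (algebraMap ℤ_[2] ℚ_[2])

noncomputable abbrev toF {m n : Type*} (A : Matrix m n ℤ_[2]) : Matrix m n (ZMod 2) :=
  A.map (PadicInt.toZMod (p := 2))

theorem block_charpoly {q m : ℕ} (L11 R11 : Matrix (Fin q) (Fin q) ℤ_[2])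
    (L21 : Matrix (Fin m) (Fin q) ℤ_[2]) (R12 : Matrix (Fin q) (Fin m) ℤ_[2])
    (St : Matrix (Fin m) (Fin m) ℤ_[2]) (hL : IsUnit L11.det) (hR : IsUnit R11.det)
    (hR12 : toF R12 = 0) (d : Fin q → ℚ_[2]) (s0 : ℚ_[2]) (hs0 : s0 ≠ 0) (e : Fin q → ℤ_[2])
    (hd : ∀ k, s0 = (algebraMap ℤ_[2] ℚ_[2] (e k)) * d k)
    (he : ∀ k, PadicInt.toZMod (p := 2) (e k) = 0)
    (A : Matrix (Fin q ⊕ Fin m) (Fin q ⊕ Fin m) ℚ_[2])
    (hA : A = Matrix.fromBlocks (toQ L11) 0 (toQ L21) 1 *
      Matrix.fromBlocks (Matrix.diagonal d) 0 0 (s0 • toQ St) *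
      Matrix.fromBlocks (toQ R11) (toQ R12) 0 1) :
    ∃ Q : ℤ_[2][X], (∃ c : ZMod 2, c ≠ 0 ∧
        Q.map (PadicInt.toZMod (p := 2)) = Polynomial.C c * (toF St).charpoly) ∧
      ∀ t : AlgebraicClosure ℚ_[2],
        Polynomial.aeval t (Q.map (algebraMap ℤ_[2] ℚ_[2])) = 0 →
        Polynomial.aeval (algebraMap ℚ_[2] (AlgebraicClosure ℚ_[2]) s0 * t) A.charpoly = 0 := by
  classical
  -- the matrix `V` and the polynomial `Q`
  obtain ⟨V, hV⟩ : ∃ V : Matrix (Fin q ⊕ Fin m) (Fin q ⊕ Fin m) ℤ_[2], V =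
      Matrix.fromBlocks 1 0 0 St * Matrix.fromBlocks R11 R12 0 1 * Matrix.fromBlocks L11 0 L21 1 := ⟨_, rfl⟩
  obtain ⟨DE, hDE⟩ : ∃ DE : Matrix (Fin q ⊕ Fin m) (Fin q ⊕ Fin m) ℤ_[2], DE =
      Matrix.fromBlocks (Matrix.diagonal e) 0 0 1 := ⟨_, rfl⟩
  obtain ⟨M, hM⟩ : ∃ M : Matrix (Fin q ⊕ Fin m) (Fin q ⊕ Fin m) ℤ_[2][X], M =
      Matrix.of (fun i j => X * C (DE i j) - C (V i j)) := ⟨_, rfl⟩
  refine ⟨M.det, ?_, ?_⟩
  · -- reduction mod 2
    have hVF : toF V = Matrix.fromBlocks (toF R11 * toF L11) 0 (toF St * toF L21) (toF St) := by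
      have h1 : toF V = Matrix.fromBlocks 1 0 0 (toF St) * Matrix.fromBlocks (toF R11) (toF R12) 0 1 *
          Matrix.fromBlocks (toF L11) 0 (toF L21) 1 := by
        rw [hV]
        unfold toF
        rw [Matrix.map_mul, Matrix.map_mul, Matrix.fromBlocks_map, Matrix.fromBlocks_map, Matrix.fromBlocks_map]
        simp
      rw [h1, hR12, Matrix.fromBlocks_multiply, Matrix.fromBlocks_multiply]
      simp
    have hDF : toF DE = Matrix.fromBlocks 0 0 0 1 := by
      rw [hDE]
      unfold toF
      rw [Matrix.fromBlocks_map]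
      congr 1
      · ext i j
        rw [Matrix.map_apply, Matrix.diagonal_apply, Matrix.zero_apply]
        split_ifs with h
        · exact he i
        · exact map_zero _
      · simp
      · simp
      · simp
    have h2 : M.det.map (PadicInt.toZMod (p := 2)) =
        (Matrix.of (fun i j => X * C (toF DE i j) - C (toF V i j))).det := by
      have h3 := RingHom.map_det (mapRingHom (PadicInt.toZMod (p := 2))) M
      rw [coe_mapRingHom] at h3
      rw [h3]
      congr 1
      ext1 i j
      rw [RingHom.mapMatrix_apply, Matrix.map_apply, hM, Matrix.of_apply, Matrix.of_apply, coe_mapRingHom,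
        Polynomial.map_sub, Polynomial.map_mul, Polynomial.map_X, Polynomial.map_C, Polynomial.map_C]
      rfl
    have h4 : (Matrix.of (fun i j => X * C (toF DE i j) - C (toF V i j))) =
        Matrix.fromBlocks (-((toF R11 * toF L11).map C)) 0 (-((toF St * toF L21).map C)) (toF St).charmatrix := by
      rw [hVF, hDF]
      ext1 i j
      rcases i with i | i <;> rcases j with j | j
      · rw [Matrix.of_apply, Matrix.fromBlocks_apply₁₁, Matrix.fromBlocks_apply₁₁, Matrix.fromBlocks_apply₁₁,
          Matrix.zero_apply, Matrix.neg_apply, Matrix.map_apply, C_0, mul_zero, zero_sub]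
      · rw [Matrix.of_apply, Matrix.fromBlocks_apply₁₂, Matrix.fromBlocks_apply₁₂, Matrix.fromBlocks_apply₁₂,
          Matrix.zero_apply, Matrix.zero_apply, C_0, mul_zero, sub_zero]
      · rw [Matrix.of_apply, Matrix.fromBlocks_apply₂₁, Matrix.fromBlocks_apply₂₁, Matrix.fromBlocks_apply₂₁,
          Matrix.zero_apply, Matrix.neg_apply, Matrix.map_apply, C_0, mul_zero, zero_sub]
      · rw [Matrix.of_apply, Matrix.fromBlocks_apply₂₂, Matrix.fromBlocks_apply₂₂, Matrix.fromBlocks_apply₂₂]
        by_cases hij : i = j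
        · subst hij
          rw [Matrix.charmatrix_apply_eq, Matrix.one_apply_eq, C_1, mul_one]
        · rw [Matrix.charmatrix_apply_ne _ _ _ hij, Matrix.one_apply_ne hij, C_0, mul_zero, zero_sub]
    refine ⟨(-(toF R11 * toF L11)).det, ?_, ?_⟩
    · have h5 : (toF R11).det ≠ 0 := by
        have h6 : (toF R11).det = PadicInt.toZMod (p := 2) R11.det := by
          have := RingHom.map_det (PadicInt.toZMod (p := 2)) R11
          rw [this]
          rfl
        rw [h6]
        exact (hR.map _).ne_zero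
      have h7 : (toF L11).det ≠ 0 := by
        have h6 : (toF L11).det = PadicInt.toZMod (p := 2) L11.det := by
          have := RingHom.map_det (PadicInt.toZMod (p := 2)) L11
          rw [this]
          rfl
        rw [h6]
        exact (hL.map _).ne_zero
      rw [Matrix.det_neg, Matrix.det_mul]
      exact mul_ne_zero (pow_ne_zero _ (neg_ne_zero.2 one_ne_zero)) (mul_ne_zero h5 h7)
    · rw [h2, h4, Matrix.det_fromBlocks_zero₁₂]
      congr 1
      have h8 := RingHom.map_det (C : ZMod 2 →+* (ZMod 2)[X]) (-(toF R11 * toF L11))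
      rw [h8]
      congr 1
      ext1 i j
      rw [RingHom.mapMatrix_apply, Matrix.map_apply, Matrix.neg_apply, Matrix.neg_apply, Matrix.map_apply, C_neg]
  · intro t ht
    let KK := AlgebraicClosure ℚ_[2]
    have hVK : toQ V = Matrix.fromBlocks 1 0 0 (toQ St) * Matrix.fromBlocks (toQ R11) (toQ R12) 0 1 *
        Matrix.fromBlocks (toQ L11) 0 (toQ L21) 1 := by
      rw [hV]
      unfold toQ
      rw [Matrix.map_mul, Matrix.map_mul, Matrix.fromBlocks_map, Matrix.fromBlocks_map, Matrix.fromBlocks_map]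
      simp
    -- the diagonal matrix `E`
    obtain ⟨E, hE⟩ : ∃ E : Matrix (Fin q ⊕ Fin m) (Fin q ⊕ Fin m) ℚ_[2], E =
      Matrix.fromBlocks (Matrix.diagonal d) 0 0 (s0 • 1) := ⟨_, rfl⟩
    have hES : Matrix.fromBlocks (Matrix.diagonal d) 0 0 (s0 • toQ St) = E * Matrix.fromBlocks 1 0 0 (toQ St) := by
      rw [hE, Matrix.fromBlocks_multiply]
      simp
    have hAc : A.charpoly = (E * toQ V).charpoly := by
      rw [hA, hES, hVK, Matrix.mul_assoc, Matrix.charpoly_mul_comm, Matrix.mul_assoc, Matrix.mul_assoc,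
        Matrix.mul_assoc]
    have hEDE : E * toQ DE = s0 • 1 := by
      have h1 : toQ DE = Matrix.fromBlocks (Matrix.diagonal fun k => algebraMap ℤ_[2] ℚ_[2] (e k)) 0 0 1 := by
        rw [hDE]
        unfold toQ
        rw [Matrix.fromBlocks_map]
        congr 1
        · rw [Matrix.diagonal_map (map_zero _)]
        · simp
      rw [h1, hE, Matrix.fromBlocks_multiply, Matrix.diagonal_mul_diagonal, ← Matrix.fromBlocks_one,
        Matrix.fromBlocks_smul]
      congr 1
      · ext i j
        rw [Matrix.mul_zero, add_zero, Matrix.smul_apply]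
        by_cases hij : i = j
        · subst hij
          rw [Matrix.diagonal_apply_eq, Matrix.one_apply_eq, smul_eq_mul, mul_one, hd i, mul_comm]
        · rw [Matrix.diagonal_apply_ne _ hij, Matrix.one_apply_ne hij, smul_zero]
      · simp
      · simp
      · simp
    -- values in the algebraic closure
    let g : ℚ_[2] →+* KK := algebraMap ℚ_[2] KK
    have hQ : (t • (toQ DE).map g - (toQ V).map g).det = 0 := by
      have h1 : Polynomial.aeval t (M.det.map (algebraMap ℤ_[2] ℚ_[2])) =
          eval₂RingHom (g.comp (algebraMap ℤ_[2] ℚ_[2])) t M.det := by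
        rw [Polynomial.aeval_def, Polynomial.eval₂_map]
        rfl
      rw [h1, RingHom.map_det] at ht
      rw [← ht]
      congr 1
      ext1 i j
      rw [RingHom.mapMatrix_apply, Matrix.map_apply, hM, Matrix.of_apply, Matrix.sub_apply, Matrix.smul_apply,
        map_sub, map_mul, coe_eval₂RingHom, eval₂_X, eval₂_C, eval₂_C, smul_eq_mul]
      rfl
    rw [hAc, Polynomial.aeval_def, ← Polynomial.eval_map, ← Matrix.charpoly_map, Matrix.eval_charpoly]
    have h2 : Matrix.scalar (Fin q ⊕ Fin m) (algebraMap ℚ_[2] KK s0 * t) - (E * toQ V).map (algebraMap ℚ_[2] KK) =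
        E.map g * (t • (toQ DE).map g - (toQ V).map g) := by
      rw [Matrix.mul_sub, Matrix.mul_smul, ← Matrix.map_mul, ← Matrix.map_mul, hEDE]
      congr 1
      ext i j
      rw [Matrix.smul_apply, Matrix.map_apply, Matrix.smul_apply]
      by_cases hij : i = j
      · subst hij
        simp [g, mul_comm]
      · simp [hij, Matrix.one_apply_ne hij]
    rw [h2, Matrix.det_mul, hQ, mul_zero]

end Pool.Agent.Helper59.BZ
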