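import Pool.Agent.Helper59.BZ.Fin
import Pool.Agent.Helper59.BZ.G1
import Pool.Agent.Helper59.BZ.G2
import Pool.Agent.Helper59.BZ.G4

/-! BZ-G5. `PartB` from the decomposition data of the matrices U n.

Scaled matrix: Us n i j = U n i j * 2^(6 (j - i)) in ℚ_[2] (a conjugate of U n by a diagonal
matrix, so it has the same characteristic polynomial).

PROOF of `partB_of_dec`. Let c be given. Let F = AlgebraicClosure (ZMod 2), x the sequence of
`xs_exists`, I with deg (x I) > c (`deg_unbdd`). Take n, q, m and the data of `Dec I` .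
`block_charpoly` gives Q with Q mod 2 = const * charpoly (hank (ZMod 2) I m) ; it is not 0 and it
vanishes at x I (`hankel_root` for F, `Matrix.charpoly_map`, hank maps to hank). `res_root` gives
t with deg t >= deg (x I) > c and aeval t Q = 0; lam = s0 t is a root of the characteristic
polynomial of the (reindexed) matrix Us n, hence of that of U n; deg lam = deg t because
s0 is in ℚ_[2], not 0. -/

set_option autoImplicit false

namespace Pool.Agent.Helper59.BZ

open Polynomial Matrix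

/-- the matrix U n scaled by powers of 2^6, over ℚ_2 -/
noncomputable def Us (n : ℕ) : Matrix (Fin (n + 1)) (Fin (n + 1)) ℚ_[2] :=
  Matrix.of fun i j => ((U n i j : ℚ) : ℚ_[2]) * (2 : ℚ_[2]) ^ (6 * ((j : ℤ) - (i : ℤ)))

/-- the scaled matrix has the same characteristic polynomial -/
theorem Us_charpoly (n : ℕ) : (Us n).charpoly = (U n).charpoly.map (algebraMap ℚ ℚ_[2]) := by
  have hA : Us n = Matrix.diagonal (fun i : Fin (n + 1) => (2 : ℚ_[2]) ^ (-(6 * (i : ℤ)))) *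
      ((U n).map (algebraMap ℚ ℚ_[2]) *
        Matrix.diagonal (fun i : Fin (n + 1) => (2 : ℚ_[2]) ^ (6 * (i : ℤ)))) := by
    ext i j
    rw [Matrix.diagonal_mul, Matrix.mul_diagonal, Matrix.map_apply]
    have h2 : (2 : ℚ_[2]) ≠ 0 := two_ne_zero
    have h3 : (6 * ((j : ℤ) - (i : ℤ))) = -(6 * (i : ℤ)) + 6 * (j : ℤ) := by ring
    show ((U n i j : ℚ) : ℚ_[2]) * (2 : ℚ_[2]) ^ (6 * ((j : ℤ) - (i : ℤ))) = _
    rw [h3, zpow_add₀ h2]
    simp only [eq_ratCast]
    ring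
  have hD : Matrix.diagonal (fun i : Fin (n + 1) => (2 : ℚ_[2]) ^ (6 * (i : ℤ))) *
      Matrix.diagonal (fun i : Fin (n + 1) => (2 : ℚ_[2]) ^ (-(6 * (i : ℤ)))) = 1 := by
    rw [Matrix.diagonal_mul_diagonal, ← Matrix.diagonal_one]
    congr 1
    funext i
    have h2 : (2 : ℚ_[2]) ≠ 0 := two_ne_zero
    rw [← zpow_add₀ h2]
    simp
  rw [hA, Matrix.charpoly_mul_comm, Matrix.mul_assoc, hD, Matrix.mul_one, Matrix.charpoly_map]

/-- decomposition data with residual Hankel matrix of level I -/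
def Dec (I : ℕ) : Prop :=
  ∃ (n q m : ℕ) (hqm : q + m = n + 1), 1 ≤ n ∧ Mt I < m ∧
  ∃ (L11 R11 : Matrix (Fin q) (Fin q) ℤ_[2]) (L21 : Matrix (Fin m) (Fin q) ℤ_[2])
    (R12 : Matrix (Fin q) (Fin m) ℤ_[2]) (St : Matrix (Fin m) (Fin m) ℤ_[2])
    (d : Fin q → ℚ_[2]) (s0 : ℚ_[2]) (e : Fin q → ℤ_[2]),
    IsUnit L11.det ∧ IsUnit R11.det ∧ toF R12 = 0 ∧ s0 ≠ 0 ∧
    (∀ k, s0 = (algebraMap ℤ_[2] ℚ_[2] (e k)) * d k) ∧
    (∀ k, PadicInt.toZMod (p := 2) (e k) = 0) ∧
    toF St = hank (ZMod 2) I m ∧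
    (Us n).submatrix (fun x => Fin.cast hqm (finSumFinEquiv x))
        (fun x => Fin.cast hqm (finSumFinEquiv x)) =
      Matrix.fromBlocks (toQ L11) 0 (toQ L21) 1 *
      Matrix.fromBlocks (Matrix.diagonal d) 0 0 (s0 • toQ St) *
      Matrix.fromBlocks (toQ R11) (toQ R12) 0 1

private theorem deg_mul_le38 (s0 : ℚ_[2]) (hs0 : s0 ≠ 0) (t : AlgebraicClosure ℚ_[2]) :
    (minpoly ℚ_[2] t).natDegree ≤
      (minpoly ℚ_[2] (algebraMap ℚ_[2] (AlgebraicClosure ℚ_[2]) s0 * t)).natDegree := by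
  have hint : IsIntegral ℚ_[2] (algebraMap ℚ_[2] (AlgebraicClosure ℚ_[2]) s0 * t) :=
    Algebra.IsIntegral.isIntegral _
  rw [← IntermediateField.adjoin.finrank hint]
  have := IntermediateField.adjoin.finiteDimensional hint
  set K := IntermediateField.adjoin ℚ_[2]
    {algebraMap ℚ_[2] (AlgebraicClosure ℚ_[2]) s0 * t} with hK
  have h1 : algebraMap ℚ_[2] (AlgebraicClosure ℚ_[2]) s0 * t ∈ K :=
    IntermediateField.subset_adjoin _ _ rfl
  have h2 : t ∈ K := by
    have h3 := K.mul_mem (K.algebraMap_mem s0⁻¹) h1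
    have h4 : algebraMap ℚ_[2] (AlgebraicClosure ℚ_[2]) s0⁻¹ *
        (algebraMap ℚ_[2] (AlgebraicClosure ℚ_[2]) s0 * t) = t := by
      rw [← mul_assoc, ← map_mul, inv_mul_cancel₀ hs0, map_one, one_mul]
    rwa [h4] at h3
  have h5 : minpoly ℚ_[2] t = minpoly ℚ_[2] (⟨t, h2⟩ : K) :=
    minpoly.algebraMap_eq (B := K) (algebraMap K (AlgebraicClosure ℚ_[2])).injective ⟨t, h2⟩
  rw [h5]
  exact minpoly.natDegree_le _

theorem partB_of_dec (h : ∀ I, Dec I) : PartB := by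
  intro c
  obtain ⟨x, h0, hx⟩ := xs_exists (AlgebraicClosure (ZMod 2))
  have : CharP (AlgebraicClosure (ZMod 2)) 2 :=
    charP_of_injective_algebraMap (algebraMap (ZMod 2) (AlgebraicClosure (ZMod 2))).injective 2
  obtain ⟨I, hI⟩ := deg_unbdd x h0 hx c
  obtain ⟨n, q, m, hqm, hn, hm, L11, R11, L21, R12, St, d, s0, e, hL, hR, hR12, hs0, hd, he, hSt,
    hA⟩ := h I
  obtain ⟨Q, ⟨c0, hc0, hQc⟩, hQt⟩ :=
    block_charpoly L11 R11 L21 R12 St hL hR hR12 d s0 hs0 e hd he _ hA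
  have hQ0 : Q.map (PadicInt.toZMod (p := 2)) ≠ 0 := by
    rw [hQc]
    exact mul_ne_zero (Polynomial.C_ne_zero.mpr hc0) (Matrix.charpoly_monic _).ne_zero
  have hroot : Polynomial.aeval (x I) (Q.map (PadicInt.toZMod (p := 2))) = 0 := by
    have h1 : Polynomial.aeval (x I) (toF St).charpoly = 0 := by
      rw [Polynomial.aeval_def, ← Polynomial.eval_map, ← Matrix.charpoly_map, hSt]
      have h2 : (hank (ZMod 2) I m).map (algebraMap (ZMod 2) (AlgebraicClosure (ZMod 2))) =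
          hank (AlgebraicClosure (ZMod 2)) I m := by
        ext a b
        simp only [hank, Matrix.map_apply, Matrix.of_apply]
        split_ifs <;> simp
      rw [h2]
      exact hankel_root x h0 hx I m hm
    rw [hQc, map_mul, h1, mul_zero]
  obtain ⟨t, ht, hdeg⟩ := res_root Q hQ0 (x I) hroot
  have h3 := hQt t ht
  have h4 : ((Us n).submatrix (fun x => Fin.cast hqm (finSumFinEquiv x))
        (fun x => Fin.cast hqm (finSumFinEquiv x))).charpoly = (Us n).charpoly := by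
    have h5 := Matrix.charpoly_reindex (finSumFinEquiv.trans (finCongr hqm)).symm (Us n)
    exact h5
  rw [h4, Us_charpoly, Polynomial.aeval_map_algebraMap] at h3
  refine ⟨n, hn, algebraMap ℚ_[2] (AlgebraicClosure ℚ_[2]) s0 * t, h3, ?_⟩
  refine lt_of_lt_of_le (lt_of_lt_of_le hI hdeg) ?_
  exact deg_mul_le38 s0 hs0 t

end Pool.Agent.Helper59.BZ
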