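import Pool.Agent.Helper59.BZ.Mk

/-! BZ-HE1. Hecke operators on level one forms.

(1) `hec_form`: for f : M k, k >= 1, l prime, hec k l (ex f) is a form of weight k. PROOF by
`mk_form`, with F = ex f. Holomorphic: clear. Bounded for large im z (l z, (z+j)/l have large
imaginary part; `ex_bdd`). Translation: F (l (z+1)) = F (l z) (l times `ex_add_one`), and the sum
over j < l of F((z+1+j)/l): shift of the index, the new term j = l is F (z/l + 1) = F (z/l).
Inversion: l^(k-1) F(-l/z) = l^(k-1) (z/l)^k F(z/l) = z^k l^(-1) F (z/l) and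
l^(-1) F(-1/(l z)) = l^(-1) (l z)^k F(l z) = z^k l^(k-1) F (l z): these two exchange the first term
and the j = 0 term. For 1 <= j < l let 1 <= j' < l with j j' = -1 mod l, s = (1 + j j')/l; with
w = (z + j')/l: `ex_smul f j (-s) l (-j')` (det = -j j' + s l = 1) says
F ((j w - s)/(l w - j')) = (l w - j')^k F w, where l w - j' = z and j w - s = (j z - 1)/l, so
F ((-1/z + j)/l) = z^k F ((z + j')/l). j -> j' is an involution of {1, .., l-1} (in ZMod l:
j' = -1/j), so the sums agree (`Finset.sum_nbij'`). -/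

set_option autoImplicit false

namespace Pool.Agent.Helper59.BZ

open UpperHalfPlane Complex Filter Topology
open scoped MatrixGroups ModularForm

private lemma ex_add_nat68 {k : ℕ} (f : M k) (l : ℕ) (z : ℂ) (hz : 0 < z.im) :
    ex f (z + l) = ex f z := by
  have h := ex_smul f 1 l 0 1 (by norm_num) z hz
  simpa using h

private lemma im_mul68 (l : ℕ) (hl : 0 < l) (z : ℂ) (hz : 0 < z.im) : 0 < ((l : ℂ) * z).im := by
  have hl' : (0 : ℝ) < l := by exact_mod_cast hl
  have : ((l : ℂ) * z).im = l * z.im := by simp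
  rw [this]
  positivity

private lemma im_div68 (l j : ℕ) (z : ℂ) : ((z + j) / (l : ℂ)).im = z.im / l := by
  rw [Complex.div_natCast_im]
  simp

private lemma step68 {k : ℕ} (f : M k) (l : ℕ) (hl : l.Prime) (j j' : ℕ)
    (hjj : (l : ℤ) ∣ 1 + (j : ℤ) * j') (z : ℂ) (hz : 0 < z.im) :
    ex f ((-1 / z + j) / l) = z ^ k * ex f ((z + j') / l) := by
  obtain ⟨s, hs⟩ := hjj
  have hl0 : (0 : ℝ) < l := by exact_mod_cast hl.pos
  have hlC : (l : ℂ) ≠ 0 := by exact_mod_cast hl.ne_zero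
  have hz0 : z ≠ 0 := by
    rintro rfl
    simp at hz
  have him : 0 < ((z + j') / (l : ℂ)).im := by
    rw [im_div68]
    positivity
  have h := ex_smul f (j : ℤ) (-s) (l : ℤ) (-(j' : ℤ)) (by linarith) ((z + j') / l) him
  have hsC : (1 : ℂ) + (j : ℂ) * j' = l * s := by exact_mod_cast hs
  have e1 : (((l : ℤ) : ℂ) * ((z + j') / l) + ((-(j' : ℤ) : ℤ) : ℂ)) = z := by
    push_cast
    field_simp
    ring
  have e2 : (((j : ℤ) : ℂ) * ((z + j') / l) + ((-s : ℤ) : ℂ)) / z = (-1 / z + j) / l := by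
    push_cast
    field_simp
    linear_combination hsC
  rw [e1, e2] at h
  exact h

theorem hec_add_one {k : ℕ} (f : M k) (l : ℕ) (hl : l.Prime) (z : ℂ) (hz : 0 < z.im) :
    hec k l (ex f) (z + 1) = hec k l (ex f) z := by
  have hl0 : (0 : ℝ) < l := by exact_mod_cast hl.pos
  have hlC : (l : ℂ) ≠ 0 := by exact_mod_cast hl.ne_zero
  unfold hec
  have h1 : ex f ((l : ℂ) * (z + 1)) = ex f ((l : ℂ) * z) := by
    have := ex_add_nat68 f l ((l : ℂ) * z) (im_mul68 l hl.pos z hz)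
    rw [← this]
    congr 1
    ring
  have h2 : ∑ j ∈ Finset.range l, ex f ((z + 1 + j) / l) =
      ∑ j ∈ Finset.range l, ex f ((z + j) / l) := by
    have a1 := Finset.sum_range_succ (fun j : ℕ => ex f ((z + (j : ℂ)) / l)) l
    have a2 := Finset.sum_range_succ' (fun j : ℕ => ex f ((z + (j : ℂ)) / l)) l
    have a3 : ex f ((z + ((l : ℕ) : ℂ)) / l) = ex f ((z + ((0 : ℕ) : ℂ)) / l) := by
      have him : 0 < ((z + ((0 : ℕ) : ℂ)) / (l : ℂ)).im := by
        rw [im_div68]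
        positivity
      have := ex_add_one f ((z + ((0 : ℕ) : ℂ)) / l) him
      rw [← this]
      congr 1
      push_cast
      field_simp
      ring
    have a4 : ∑ j ∈ Finset.range l, ex f ((z + 1 + j) / l) =
        ∑ j ∈ Finset.range l, ex f ((z + ((j + 1 : ℕ) : ℂ)) / l) := by
      refine Finset.sum_congr rfl fun j _ => ?_
      congr 1
      push_cast
      ring
    rw [a4]
    simp only [a3] at a1
    exact add_right_cancel (a2.symm.trans a1)
  rw [h1, h2]

theorem hec_inv {k : ℕ} (hk : 1 ≤ k) (f : M k) (l : ℕ) (hl : l.Prime) (z : ℂ) (hz : 0 < z.im) :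
    hec k l (ex f) (-1 / z) = z ^ k * hec k l (ex f) z := by
  have hl0 : (0 : ℝ) < l := by exact_mod_cast hl.pos
  have hlC : (l : ℂ) ≠ 0 := by exact_mod_cast hl.ne_zero
  have hz0 : z ≠ 0 := by
    rintro rfl
    simp at hz
  have : Fact l.Prime := ⟨hl⟩
  -- first term
  have h1 : (l : ℂ) ^ (k - 1) * ex f ((l : ℂ) * (-1 / z)) =
      z ^ k * ((l : ℂ)⁻¹ * ex f ((z + ((0 : ℕ) : ℂ)) / l)) := by
    have him : 0 < ((z + ((0 : ℕ) : ℂ)) / (l : ℂ)).im := by
      rw [im_div68]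
      positivity
    have := ex_inv f ((z + ((0 : ℕ) : ℂ)) / l) him
    have e : (l : ℂ) * (-1 / z) = -1 / ((z + ((0 : ℕ) : ℂ)) / l) := by
      push_cast
      rw [add_zero]
      field_simp
    rw [e, this]
    obtain ⟨m, rfl⟩ : ∃ m, k = m + 1 := ⟨k - 1, by omega⟩
    simp only [Nat.add_sub_cancel, Nat.cast_zero, add_zero]
    rw [div_pow, pow_succ (l : ℂ) m]
    field_simp
  have h2 : (l : ℂ)⁻¹ * ex f ((-1 / z + ((0 : ℕ) : ℂ)) / l) =
      z ^ k * ((l : ℂ) ^ (k - 1) * ex f ((l : ℂ) * z)) := by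
    have := ex_inv f ((l : ℂ) * z) (im_mul68 l hl.pos z hz)
    have e : (-1 / z + ((0 : ℕ) : ℂ)) / l = -1 / ((l : ℂ) * z) := by
      push_cast
      rw [add_zero]
      field_simp
    rw [e, this]
    obtain ⟨m, rfl⟩ : ∃ m, k = m + 1 := ⟨k - 1, by omega⟩
    simp only [Nat.add_sub_cancel]
    rw [mul_pow, pow_succ (l : ℂ) m]
    field_simp
  -- the other terms
  have hsplit : ∀ g : ℕ → ℂ, ∑ j ∈ Finset.range l, g j = g 0 + ∑ j ∈ Finset.Ico 1 l, g j := by
    intro g
    rw [Finset.range_eq_Ico, Finset.sum_eq_sum_Ico_succ_bot hl.pos]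
  have hinvol : ∀ j ∈ Finset.Ico 1 l, (-((j : ZMod l))⁻¹).val ∈ Finset.Ico 1 l := by
    intro j hj
    rw [Finset.mem_Ico] at hj ⊢
    have hj0 : (j : ZMod l) ≠ 0 := by
      intro h
      rw [ZMod.natCast_eq_zero_iff] at h
      exact absurd (Nat.le_of_dvd (by omega) h) (by omega)
    refine ⟨?_, ZMod.val_lt _⟩
    rw [Nat.one_le_iff_ne_zero]
    intro h
    rw [ZMod.val_eq_zero, neg_eq_zero, inv_eq_zero] at h
    exact hj0 h
  have hinv2 : ∀ j ∈ Finset.Ico 1 l,
      (-(((-((j : ZMod l))⁻¹).val : ℕ) : ZMod l)⁻¹).val = j := by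
    intro j hj
    rw [Finset.mem_Ico] at hj
    rw [ZMod.natCast_val, ZMod.cast_id', id, inv_neg, neg_neg, inv_inv,
      ZMod.val_cast_of_lt hj.2]
  have hdvd : ∀ j ∈ Finset.Ico 1 l,
      (l : ℤ) ∣ 1 + (j : ℤ) * (((-((j : ZMod l))⁻¹).val : ℕ) : ℤ) := by
    intro j hj
    rw [Finset.mem_Ico] at hj
    have hj0 : (j : ZMod l) ≠ 0 := by
      intro h
      rw [ZMod.natCast_eq_zero_iff] at h
      exact absurd (Nat.le_of_dvd (by omega) h) (by omega)
    rw [← ZMod.intCast_zmod_eq_zero_iff_dvd]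
    push_cast
    rw [ZMod.natCast_val, ZMod.cast_id', id]
    field_simp
    ring
  have h3 : ∑ j ∈ Finset.Ico 1 l, ex f ((-1 / z + j) / l) =
      ∑ j ∈ Finset.Ico 1 l, z ^ k * ex f ((z + j) / l) := by
    refine Finset.sum_nbij' (fun j => (-((j : ZMod l))⁻¹).val) (fun j => (-((j : ZMod l))⁻¹).val)
      hinvol hinvol hinv2 hinv2 ?_
    intro j hj
    exact step68 f l hl j _ (hdvd j hj) z hz
  have h4 : hec k l (ex f) (-1 / z) = (l : ℂ) ^ (k - 1) * ex f ((l : ℂ) * (-1 / z)) +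
      ((l : ℂ)⁻¹ * ex f ((-1 / z + ((0 : ℕ) : ℂ)) / l) +
        (l : ℂ)⁻¹ * ∑ j ∈ Finset.Ico 1 l, ex f ((-1 / z + j) / l)) := by
    unfold hec
    rw [hsplit (fun j => ex f ((-1 / z + (j : ℂ)) / l)), mul_add]
  have h5 : hec k l (ex f) z = (l : ℂ) ^ (k - 1) * ex f ((l : ℂ) * z) +
      ((l : ℂ)⁻¹ * ex f ((z + ((0 : ℕ) : ℂ)) / l) +
        (l : ℂ)⁻¹ * ∑ j ∈ Finset.Ico 1 l, ex f ((z + j) / l)) := by
    unfold hec
    rw [hsplit (fun j => ex f ((z + (j : ℂ)) / l)), mul_add]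
  rw [h4, h5, h1, h2, h3, ← Finset.mul_sum]
  ring

theorem hec_form {k : ℕ} (hk : 1 ≤ k) (f : M k) (l : ℕ) (hl : l.Prime) :
    ∃ g : M k, ∀ z : ℂ, 0 < z.im → ex g z = hec k l (ex f) z := by
  have hl0 : (0 : ℝ) < l := by exact_mod_cast hl.pos
  have hl1 : (1 : ℝ) ≤ l := by exact_mod_cast hl.one_lt.le
  have hlC : (l : ℂ) ≠ 0 := by exact_mod_cast hl.ne_zero
  obtain ⟨g, hg⟩ := mk_form k (hec k l (ex f)) (fun z hz => hec_add_one f l hl z hz)
    (fun z hz => hec_inv hk f l hl z hz) (by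
      intro z hz
      unfold hec
      have d1 : DifferentiableAt ℂ (fun z : ℂ => ex f ((l : ℂ) * z)) z := by
        have := ex_diff f ((l : ℂ) * z) (im_mul68 l hl.pos z hz)
        exact DifferentiableAt.comp (f := fun z : ℂ => (l : ℂ) * z) z this (by fun_prop)
      have d2 : ∀ j ∈ Finset.range l,
          DifferentiableAt ℂ (fun z : ℂ => ex f ((z + (j : ℂ)) / l)) z := by
        intro j _
        have him : 0 < ((z + (j : ℂ)) / (l : ℂ)).im := by
          rw [im_div68]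
          positivity
        have := ex_diff f ((z + (j : ℂ)) / l) him
        exact DifferentiableAt.comp (f := fun z : ℂ => (z + (j : ℂ)) / l) z this (by fun_prop)
      exact (d1.const_mul _).add ((DifferentiableAt.fun_sum d2).const_mul _)) (by
      obtain ⟨A, B, hAB⟩ := ex_bdd f
      refine ⟨‖(l : ℂ) ^ (k - 1)‖ * A + ‖(l : ℂ)⁻¹‖ * ∑ j ∈ Finset.range l, A, |B| * l, ?_⟩
      intro z hz
      have hB0 : 0 ≤ |B| := abs_nonneg B
      have hB1 : B ≤ |B| := le_abs_self B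
      have hz0 : 0 ≤ z.im := le_trans (by positivity) hz
      have b1 : ‖ex f ((l : ℂ) * z)‖ ≤ A := by
        refine hAB _ ?_
        have : ((l : ℂ) * z).im = l * z.im := by simp
        rw [this]
        nlinarith [mul_nonneg hB0 (sub_nonneg.mpr hl1), mul_nonneg hz0 (sub_nonneg.mpr hl1)]
      have b2 : ∀ j ∈ Finset.range l, ‖ex f ((z + (j : ℂ)) / l)‖ ≤ A := by
        intro j _
        refine hAB _ ?_
        rw [im_div68, le_div_iff₀ hl0]
        nlinarith [mul_nonneg (sub_nonneg.mpr hB1) hl0.le]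
      unfold hec
      refine (norm_add_le _ _).trans (add_le_add ?_ ?_)
      · rw [norm_mul]
        exact mul_le_mul_of_nonneg_left b1 (norm_nonneg _)
      · rw [norm_mul]
        exact mul_le_mul_of_nonneg_left
          ((norm_sum_le _ _).trans (Finset.sum_le_sum b2)) (norm_nonneg _))
  refine ⟨g, fun z hz => ?_⟩
  have h1 := ex_coe g ⟨z, hz⟩
  have h2 := hg ⟨z, hz⟩
  exact h1.trans h2

end Pool.Agent.Helper59.BZ
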