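import Pool.Agent.Helper44.BZ.Lev
import Pool.Agent.Helper59.BZ.Deg

/-! Explicit degree in explicit weights (helper59; `form_fixed`, `lam_of` of helper44). -/

set_option autoImplicit false

namespace Pool.Agent.Helper59.BZ

open UpperHalfPlane Complex Filter Topology Polynomial Pool.Agent.Helper44.BZ
open scoped MatrixGroups ModularForm

theorem explicit_weights (j : QQ →+* AlgebraicClosure ℚ_[2]) (I : ℕ) (hI : 3 ≤ I) :
    ∃ (f : CuspForm 𝒮ℒ ((4 * nn I : ℕ) : ℤ)) (a : ℕ → QQ),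
      (∀ τ : ℍ, HasSum (fun m : ℕ => (a m : ℂ) * Complex.exp (2 * Real.pi * Complex.I * (m : ℂ) * (τ : ℂ)))
        (f τ)) ∧ a 1 = 1 ∧
      (∀ l : ℕ, l.Prime → ∀ m : ℕ, 1 ≤ m →
        a (l * m) + (if l ∣ m then (l : QQ) ^ (4 * nn I - 1) * a (m / l) else 0) = a l * a m) ∧
      FiniteDimensional ℚ_[2] (Kf j a) ∧ 2 ^ (I - 1) ≤ Module.finrank ℚ_[2] (Kf j a) := by
  obtain ⟨x, h0, hx⟩ := xs_exists (AlgebraicClosure (ZMod 2))
  obtain ⟨lam, hroot, hdeg⟩ := lam_of x h0 hx I hI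
  have h8 : 2 ^ 3 ≤ 2 ^ I := Nat.pow_le_pow_right (by norm_num) hI
  have h9 := two_pow_le_deg x h0 hx I
  obtain ⟨f, a, hfa, hf0, hf1, hrel, hfd, hle⟩ := form_fixed j (nn I) (by unfold nn qq; omega) lam hroot
    (by omega)
  refine ⟨ModularForm.toCuspForm f hf0, a, ?_, ?_, ?_, hfd, ?_⟩
  · intro τ
    show HasSum _ (f τ)
    rw [← ex_coe f τ]
    have h1 := ex_hasSum f τ τ.im_pos
    simp only [hfa] at h1
    exact h1
  · apply Subtype.ext
    rw [← hfa]
    exact hf1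
  · intro l hl m _
    apply Subtype.ext
    have h1 := hrel l hl m
    simp only [hfa] at h1
    push_cast
    rw [← h1]
    split_ifs <;> simp
  · have h4 : 2 ^ I = 2 * 2 ^ (I - 1) := by
      rw [← pow_succ']
      congr 1
      omega
    omega

end Pool.Agent.Helper59.BZ
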