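import Pool.Agent.Helper59.BZ.Defs

/-! BZ-MKB. Level one forms as functions of a complex variable: ex f z = f (ofComplex z).

`ex_coe`: `ofComplex_apply`. `ex_smul`: the transformation formula with integer entries
(`SlashInvariantForm.slash_action_eqn''`, or `SlashInvariantFormClass`/`ModularForm` API, for the
matrix γ : SL(2, ℤ) with entries a b c d; (a z + b)/(c z + d) has positive imaginary part and is
the coercion of γ • ⟨z, hz⟩). `ex_diff`: `UpperHalfPlane.mdifferentiable_iff` applied to f.holo'.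
`ex_bdd`: f is bounded at i infinity (`ModularFormClass.bdd_at_infty`,
`UpperHalfPlane.isBoundedAtImInfty_iff`). -/

set_option autoImplicit false

namespace Pool.Agent.Helper59.BZ

open UpperHalfPlane Complex Filter Topology
open scoped MatrixGroups ModularForm

theorem ex_coe {k : ℕ} (f : M k) (τ : ℍ) : ex f (τ : ℂ) = f τ := by
  unfold ex
  rw [ofComplex_apply]

/-- SL_2(Z)-invariance with integer entries -/
theorem ex_smul {k : ℕ} (f : M k) (a b c d : ℤ) (hdet : a * d - b * c = 1) (z : ℂ)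
    (hz : 0 < z.im) :
    ex f ((a * z + b) / (c * z + d)) = (c * z + d) ^ k * ex f z := by
  set γ : SL(2, ℤ) := ⟨!![a, b; c, d], by rw [Matrix.det_fin_two_of]; exact hdet⟩ with hγ
  set g : GL (Fin 2) ℝ := Matrix.SpecialLinearGroup.mapGL ℝ γ with hg
  have hmem : g ∈ 𝒮ℒ := ⟨γ, rfl⟩
  set τ : ℍ := ⟨z, hz⟩ with hτ
  have hdetg : 0 < g.det.val := by
    rw [hg]
    simp
  have e00 : (g 0 0 : ℝ) = a := by simp [hg, hγ]
  have e01 : (g 0 1 : ℝ) = b := by simp [hg, hγ]
  have e10 : (g 1 0 : ℝ) = c := by simp [hg, hγ]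
  have e11 : (g 1 1 : ℝ) = d := by simp [hg, hγ]
  have h1 := SlashInvariantForm.slash_action_eqn' f hmem τ
  have h2 : ((g • τ : ℍ) : ℂ) = (a * z + b) / (c * z + d) := by
    rw [UpperHalfPlane.coe_smul_of_det_pos hdetg]
    unfold UpperHalfPlane.num UpperHalfPlane.denom
    rw [e00, e01, e10, e11]
    simp [hτ]
  rw [← h2, ex_coe, h1, e10, e11]
  have h3 : ex f z = f τ := ex_coe f τ
  rw [h3, zpow_natCast]
  simp [hτ]

theorem ex_add_one {k : ℕ} (f : M k) (z : ℂ) (hz : 0 < z.im) : ex f (z + 1) = ex f z := by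
  have h := ex_smul f 1 1 0 1 (by norm_num) z hz
  simpa using h

theorem ex_inv {k : ℕ} (f : M k) (z : ℂ) (hz : 0 < z.im) : ex f (-1 / z) = z ^ k * ex f z := by
  have h := ex_smul f 0 (-1) 1 0 (by norm_num) z hz
  simpa using h

theorem ex_diff {k : ℕ} (f : M k) (z : ℂ) (hz : 0 < z.im) : DifferentiableAt ℂ (ex f) z := by
  have h := UpperHalfPlane.mdifferentiableAt_iff.1 (f.holo' ⟨z, hz⟩)
  exact h

theorem ex_bdd {k : ℕ} (f : M k) : ∃ A B : ℝ, ∀ z : ℂ, B ≤ z.im → ‖ex f z‖ ≤ A := by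
  have : Fact (IsCusp OnePoint.infty (𝒮ℒ : Subgroup (GL (Fin 2) ℝ))) := inferInstance
  obtain ⟨A, B, h⟩ := UpperHalfPlane.isBoundedAtImInfty_iff.1 (ModularFormClass.bdd_at_infty f)
  refine ⟨A, max B 1, fun z hz => ?_⟩
  have hz0 : 0 < z.im := lt_of_lt_of_le one_pos ((le_max_right _ _).trans hz)
  have h1 : ex f z = f ⟨z, hz0⟩ := ex_coe f ⟨z, hz0⟩
  rw [h1]
  exact h ⟨z, hz0⟩ ((le_max_left _ _).trans hz)

end Pool.Agent.Helper59.BZ
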