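import Pool.Agent.Helper59.BZ.MkB

/-! BZ-MKC. q-expansions of level one forms. cf f m = (qExpansion 1 f).coeff m.

`ex_hasSum`: `ModularForm.hasSum_qExpansion` (QExpansion.lean) with h = 1
(`one_mem_strictPeriods_SL`); 𝕢 1 z ^ m = exp (2 pi i m z) (`Function.Periodic.qParam`).
`cf_unique`: `ModularFormClass.qExpansion_coeff_unique`. `form_ext`:
`ModularForm.qExpansion_eq_zero_iff`, or from `ex_hasSum`. `cf_add`, `cf_smul`:
`ModularForm.qExpansion_add`, `ModularForm.qExpansion_smul`. -/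

set_option autoImplicit false

namespace Pool.Agent.Helper59.BZ

open UpperHalfPlane Complex Filter Topology
open scoped MatrixGroups ModularForm

theorem mkC_qParam (z : ℂ) (m : ℕ) :
    (Function.Periodic.qParam (1 : ℝ) z) ^ m =
      Complex.exp (2 * Real.pi * Complex.I * (m : ℂ) * z) := by
  unfold Function.Periodic.qParam
  rw [← Complex.exp_nat_mul]
  congr 1
  push_cast
  ring

/-- q-expansion of a form, and uniqueness -/
theorem ex_hasSum {k : ℕ} (f : M k) (z : ℂ) (hz : 0 < z.im) :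
    HasSum (fun m : ℕ => cf f m * Complex.exp (2 * Real.pi * Complex.I * (m : ℂ) * z))
      (ex f z) := by
  have : Fact (IsCusp OnePoint.infty (𝒮ℒ : Subgroup (GL (Fin 2) ℝ))) := inferInstance
  have h := ModularForm.hasSum_qExpansion (f := f) one_pos one_mem_strictPeriods_SL ⟨z, hz⟩
  have h1 : ex f z = f ⟨z, hz⟩ := ex_coe f ⟨z, hz⟩
  rw [h1]
  refine h.congr_fun ?_
  intro m
  rw [mkC_qParam]
  rfl

theorem cf_unique {k : ℕ} (f : M k) (a : ℕ → ℂ)
    (h : ∀ z : ℂ, 0 < z.im →
      HasSum (fun m : ℕ => a m * Complex.exp (2 * Real.pi * Complex.I * (m : ℂ) * z)) (ex f z)) :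
    ∀ m, cf f m = a m := by
  intro m
  refine (ModularFormClass.qExpansion_coeff_unique (f := f) one_pos
    one_mem_strictPeriods_SL ?_ m).symm
  intro τ
  have h1 := h (τ : ℂ) τ.im_pos
  rw [ex_coe] at h1
  convert h1 using 2 with n
  rw [mkC_qParam, smul_eq_mul]

theorem form_ext {k : ℕ} (f g : M k) (h : ∀ m, cf f m = cf g m) : f = g := by
  ext τ
  have h1 := ex_hasSum f (τ : ℂ) τ.im_pos
  have h2 := ex_hasSum g (τ : ℂ) τ.im_pos
  rw [ex_coe] at h1 h2
  have h3 : (fun m : ℕ => cf f m * Complex.exp (2 * Real.pi * Complex.I * (m : ℂ) * (τ : ℂ))) =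
      (fun m : ℕ => cf g m * Complex.exp (2 * Real.pi * Complex.I * (m : ℂ) * (τ : ℂ))) := by
    funext m
    rw [h m]
  rw [h3] at h1
  exact h1.unique h2

theorem cf_add {k : ℕ} (f g : M k) (m : ℕ) : cf (f + g) m = cf f m + cf g m := by
  unfold cf
  have h := ModularForm.qExpansion_add one_pos one_mem_strictPeriods_SL f g
  have h2 : qExpansion 1 (⇑(f + g)) = qExpansion 1 (⇑f + ⇑g) := rfl
  rw [h2, h, map_add]

theorem cf_smul {k : ℕ} (c : ℂ) (f : M k) (m : ℕ) : cf (c • f) m = c * cf f m := by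
  unfold cf
  have h := ModularForm.qExpansion_smul one_pos one_mem_strictPeriods_SL c f
  have h2 : qExpansion 1 (⇑(c • f)) = qExpansion 1 (c • ⇑f) := rfl
  rw [h2, h, map_smul, smul_eq_mul]

end Pool.Agent.Helper59.BZ
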