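import Pool.Agent.Helper59.BZ.Defs

/-! BZ-MKA. `mk_form`: a function F with F(z+1) = F(z), F(-1/z) = z^k F(z), holomorphic on im z > 0
and bounded for large im z is a modular form of level one.

PROOF. toFun tau := F tau; slash invariance: `SlashInvariantForm.slash_action_generators_SL2Z`
(Mathlib/NumberTheory/ModularForms/LevelOne/Basic.lean) reduces to S and T; holomorphy:
`UpperHalfPlane.mdifferentiable_iff`; bounded at the cusps: copy the pattern of
`CuspForm.discriminant` (Mathlib/NumberTheory/ModularForms/Discriminant.lean: isCusp_iff_isCusp_SL2Z,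
`OnePoint.isBoundedAt_iff_forall_SL2Z`, then slash invariance and boundedness at i infinity;
for this one also see `CuspForm.discriminantEquiv` in LevelOne/DimensionFormula.lean). -/

set_option autoImplicit false

namespace Pool.Agent.Helper59.BZ

open UpperHalfPlane Complex Filter Topology
open scoped MatrixGroups ModularForm

set_option backward.isDefEq.respectTransparency.types false in
theorem mk_T (k : ℕ) (F : ℂ → ℂ) (h1 : ∀ z : ℂ, 0 < z.im → F (z + 1) = F z) :
    ((fun τ : ℍ => F τ) ∣[(k : ℤ)] ModularGroup.T) = fun τ : ℍ => F τ := by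
  ext z
  rw [ModularForm.SL_slash_apply, denom, modular_T_smul, ModularGroup.T]
  have h := h1 (z : ℂ) z.2
  simp
  rw [← h]
  ring_nf

set_option backward.isDefEq.respectTransparency.types false in
theorem mk_S (k : ℕ) (F : ℂ → ℂ) (h2 : ∀ z : ℂ, 0 < z.im → F (-1 / z) = z ^ k * F z) :
    ((fun τ : ℍ => F τ) ∣[(k : ℤ)] ModularGroup.S) = fun τ : ℍ => F τ := by
  ext z
  have hz : (z : ℂ) ≠ 0 := z.ne_zero
  suffices F (-(↑z)⁻¹) * ((z : ℂ) ^ k)⁻¹ = F z by
    rw [ModularForm.SL_slash_apply, UpperHalfPlane.modular_S_smul]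
    simpa [denom, ModularGroup.S]
  have h := h2 (z : ℂ) z.2
  rw [neg_div, one_div] at h
  rw [h]
  field_simp

theorem mk_form (k : ℕ) (F : ℂ → ℂ) (h1 : ∀ z : ℂ, 0 < z.im → F (z + 1) = F z)
    (h2 : ∀ z : ℂ, 0 < z.im → F (-1 / z) = z ^ k * F z)
    (h3 : ∀ z : ℂ, 0 < z.im → DifferentiableAt ℂ F z)
    (h4 : ∃ A B : ℝ, ∀ z : ℂ, B ≤ z.im → ‖F z‖ ≤ A) :
    ∃ f : M k, ∀ τ : ℍ, f τ = F τ := by
  have hsl := SlashInvariantForm.slash_action_generators_SL2Z (mk_S k F h2) (mk_T k F h1)
  refine ⟨{ toFun := fun τ : ℍ => F τ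
            slash_action_eq' := ?_
            holo' := ?_
            bdd_at_cusps' := ?_ }, fun τ => rfl⟩
  · rintro A ⟨γ, rfl⟩
    exact hsl γ
  · rw [UpperHalfPlane.mdifferentiable_iff]
    refine .congr (fun z hz => (h3 z hz).differentiableWithinAt) fun z hz => ?_
    simp [ofComplex_apply_of_im_pos hz]
  · intro c hc
    rw [Subgroup.IsArithmetic.isCusp_iff_isCusp_SL2Z] at hc
    rw [OnePoint.isBoundedAt_iff_forall_SL2Z hc]
    intro γ _
    show IsBoundedAtImInfty ((fun τ : ℍ => F τ) ∣[(k : ℤ)] γ)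
    rw [hsl γ, UpperHalfPlane.isBoundedAtImInfty_iff]
    obtain ⟨A, B, h⟩ := h4
    exact ⟨A, B, fun z hz => h z hz⟩

end Pool.Agent.Helper59.BZ
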