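import Pool.Agent.Helper59.BZ.Defs

/-! BZ-POL. Polynomial identity behind the matrix `U n` (no modular forms here, pure algebra).

PROOF. Let c = a - b, s = a b, and let L_N(c, s) = a^N + (-b)^N. Since a + (-b) = c and
a * (-b) = -s, the classical formula (Lucas/Waring, induction on N with
L_(N+2) = c L_(N+1) + s L_N, L_0 = 2, L_1 = c) is, for N >= 1,
  a^N + (-b)^N = sum over m with 2m <= N of N/(N-m) * choose(N-m, m) * s^m * c^(N-2m).
(i) If 3 j <= 2 n, put N = 2n - 3j (N has the parity of j). Then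
  b^(2(n-j)) (a c/16)^j + a^(2(n-j)) (-b c/16)^j
   = 16^(-j) c^j s^j (b^N + (-1)^j a^N) = 16^(-j) (-1)^j c^j s^j (a^N + (-b)^N),
and with i = n - j - m (so 2 i = N - 2 m + j, m = n - i - j, N - m = n + i - 2 j) the term of
index m is (-1)^j 16^(-j) N/(n+i-2j) choose(n+i-2j, 2i-j) s^(n-i) c^(2i)
 = 2 * Uent n i j * (a b)^(n-i) (c^2/256)^i ; (choose(N-m, m) = choose(N-m, N-2m), N-2m = 2i-j,
choose(M, r)/M = (M-1)(M-2)...(M-r+1)/r! for r >= 1). If N = 0, i.e. 3j = 2n, only i = j/2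
contributes and both sides are 2 * 16^(-j) c^j s^j.
For the i with i + j > n (and i >= j/2) the product in Uent vanishes (a factor n+i-2j-t with
1 <= t <= 2i-j-1 is 0, as 1 <= n+i-2j <= 2i-j-1), and for 2i < j Uent = 0.
(ii) If 3 j > 2 n, put N = 3j - 2n >= 1: the left side is 16^(-j) c^j s^(2(n-j)) (a^N + (-b)^N),
i = 2j - n - m, N - m = i + j - n, and the coefficient is
 16^(-j) N/(i+j-n) choose(i+j-n, 2i-j); Uent n i j is the same number because
 (M-1)...(M-r+1)/r! with M = n+i-2j, r = 2i-j, M - r + 1 = n-i-j+1, equals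
 (-1)^(r-1) (i+j-n-1)(i+j-n-2)...(i+j-n-(r-1))/r!, and (-1)^j (2n-3j)(-1)^(r-1) = N. If 2i = j
the coefficient is N/(i+j-n) = 1 (N = 3j-2n = 2(i+j-n)... with 2i=j), as in Uent. For i > 2j - n
with i >= j/2 the product in Uent vanishes as above.
(It may be easier to prove the identity by induction on n and j from recursions; any proof is
fine. The statement was checked numerically for n <= 6.) -/

set_option autoImplicit false

namespace Pool.Agent.Helper59.BZ

/-- Coefficient of `c ^ r` in `α ^ D + β ^ D` (`α + β = c`), as a function of `D`. -/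
private noncomputable def w65 (r : ℕ) (D : ℚ) : ℚ :=
  if r = 0 then 2
  else D * (∏ t ∈ Finset.range (r - 1), ((D + r) / 2 - (t + 1))) / (Nat.factorial r : ℚ)

private theorem w65_zero (D : ℚ) : w65 0 D = 2 := by simp [w65]

private theorem w65_succ (r : ℕ) (D : ℚ) : w65 (r + 1) D =
    D * (∏ t ∈ Finset.range r, ((D + (r + 1)) / 2 - (t + 1))) / (Nat.factorial (r + 1) : ℚ) := by
  rw [w65, if_neg (Nat.succ_ne_zero r), Nat.add_sub_cancel]
  push_cast
  rfl

private theorem w65_one (D : ℚ) : w65 1 D = D := by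
  rw [w65_succ]; simp

private theorem w65_rec (r : ℕ) (D : ℚ) : w65 (r + 1) D = w65 r (D - 1) + w65 (r + 1) (D - 2) := by
  cases r with
  | zero => rw [w65_one, w65_one, w65_zero]; ring
  | succ k =>
    rw [w65_succ, w65_succ, w65_succ, Finset.prod_range_succ', Finset.prod_range_succ]
    have h1 : ∏ t ∈ Finset.range k, ((D - 1 + (k + 1)) / 2 - ((t : ℚ) + 1)) =
        ∏ t ∈ Finset.range k, ((D + ((k + 1 : ℕ) + 1)) / 2 - (((t + 1 : ℕ) : ℚ) + 1)) := by
      refine Finset.prod_congr rfl fun t _ => ?_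
      push_cast; ring
    have h2 : ∏ t ∈ Finset.range k, ((D - 2 + ((k + 1 : ℕ) + 1)) / 2 - ((t : ℚ) + 1)) =
        ∏ t ∈ Finset.range k, ((D + ((k + 1 : ℕ) + 1)) / 2 - (((t + 1 : ℕ) : ℚ) + 1)) := by
      refine Finset.prod_congr rfl fun t _ => ?_
      push_cast; ring
    rw [h1, h2]
    generalize ∏ t ∈ Finset.range k, ((D + ((k + 1 : ℕ) + 1)) / 2 - (((t + 1 : ℕ) : ℚ) + 1)) = Q
    have h3 : (Nat.factorial (k + 1) : ℚ) ≠ 0 := by exact_mod_cast Nat.factorial_ne_zero _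
    have h4 : ((k : ℚ) + 1 + 1) ≠ 0 := by positivity
    rw [Nat.factorial_succ (k + 1)]
    push_cast
    field_simp
    ring

/-- Normalised entries of `U n`. -/
private noncomputable def W65 (n i j : ℕ) : ℚ :=
  if 2 * i < j then 0 else (-1) ^ j * w65 (2 * i - j) (2 * n - 3 * j)

private theorem W65_rec1 (n i j : ℕ) :
    W65 (n + 2) (i + 1) (j + 2) = W65 (n + 1) i (j + 1) + W65 n i j := by
  unfold W65
  rcases lt_trichotomy (2 * i) j with h | h | h
  · rw [if_pos (by omega), if_pos (by omega), if_pos (by omega), add_zero]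
  · rw [if_neg (by omega), if_pos (by omega), if_neg (by omega)]
    have e1 : 2 * (i + 1) - (j + 2) = 0 := by omega
    have e2 : 2 * i - j = 0 := by omega
    rw [e1, e2, w65_zero, w65_zero]
    ring
  · rw [if_neg (by omega), if_neg (by omega), if_neg (by omega)]
    obtain ⟨r, hr⟩ : ∃ r, 2 * i = j + r + 1 := ⟨2 * i - j - 1, by omega⟩
    have e1 : 2 * (i + 1) - (j + 2) = r + 1 := by omega
    have e2 : 2 * i - (j + 1) = r := by omega
    have e3 : 2 * i - j = r + 1 := by omega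
    rw [e1, e2, e3, w65_rec r (2 * (n : ℚ) - 3 * j)]
    have f1 : (2 * ((n + 2 : ℕ) : ℚ) - 3 * ((j + 2 : ℕ) : ℚ)) = 2 * (n : ℚ) - 3 * j - 2 := by
      push_cast; ring
    have f2 : (2 * ((n + 1 : ℕ) : ℚ) - 3 * ((j + 1 : ℕ) : ℚ)) = 2 * (n : ℚ) - 3 * j - 1 := by
      push_cast; ring
    rw [f1, f2]
    ring

private theorem W65_rec2 (n i j : ℕ) : W65 (n + 2) (i + 1) j =
    W65 (n + 1) i j + 2 * W65 (n + 1) (i + 1) j - W65 n (i + 1) j := by
  unfold W65
  have f1 : (2 * ((n + 2 : ℕ) : ℚ) - 3 * (j : ℚ)) = 2 * (n : ℚ) - 3 * j + 4 := by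
    push_cast; ring
  have f2 : (2 * ((n + 1 : ℕ) : ℚ) - 3 * (j : ℚ)) = 2 * (n : ℚ) - 3 * j + 2 := by
    push_cast; ring
  rw [f1, f2]
  generalize (2 * (n : ℚ) - 3 * j) = D
  by_cases h : 2 * (i + 1) < j
  · rw [if_pos h, if_pos (by omega), if_pos h, if_pos h]
    ring
  · rw [if_neg h, if_neg h, if_neg h]
    by_cases h2 : 2 * i < j
    · rw [if_pos h2]
      have h3 : 2 * (i + 1) - j = 0 ∨ 2 * (i + 1) - j = 1 := by omega
      rcases h3 with h3 | h3
      · rw [h3, w65_zero, w65_zero, w65_zero]; ring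
      · rw [h3, w65_one, w65_one, w65_one]; ring
    · rw [if_neg h2]
      obtain ⟨r, hr⟩ : ∃ r, 2 * i - j = r := ⟨_, rfl⟩
      have e1 : 2 * (i + 1) - j = r + 1 + 1 := by omega
      rw [e1, hr]
      have g1 := w65_rec (r + 1) (D + 4)
      have g2 := w65_rec r (D + 3)
      have g3 := w65_rec (r + 1) (D + 2)
      have k1 : D + 4 - 1 = D + 3 := by ring
      have k2 : D + 4 - 2 = D + 2 := by ring
      have k3 : D + 3 - 1 = D + 2 := by ring
      have k4 : D + 3 - 2 = D + 1 := by ring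
      have k5 : D + 2 - 1 = D + 1 := by ring
      have k6 : D + 2 - 2 = D := by ring
      rw [k1, k2] at g1
      rw [k3, k4] at g2
      rw [k5, k6] at g3
      linear_combination (-1) ^ j * g1 + (-1) ^ j * g2 - (-1) ^ j * g3

private theorem W65_zero (n j : ℕ) : W65 (n + 2) 0 j = 2 * W65 (n + 1) 0 j - W65 n 0 j := by
  unfold W65
  by_cases h : 2 * 0 < j
  · rw [if_pos h, if_pos h, if_pos h]; ring
  · rw [if_neg h, if_neg h, if_neg h]
    have : 2 * 0 - j = 0 := by omega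
    rw [this, w65_zero, w65_zero, w65_zero]; ring

private theorem W65_big {n i j : ℕ} (hj : j ≤ n) (hi : n < i) : W65 n i j = 0 := by
  unfold W65
  by_cases h : 2 * i < j
  · rw [if_pos h]
  · rw [if_neg h]
    obtain ⟨r, hr⟩ : ∃ r, 2 * i - j = r + 1 := ⟨2 * i - j - 1, by omega⟩
    rw [hr, w65_succ]
    have hz : ∏ t ∈ Finset.range r, ((2 * (n : ℚ) - 3 * j + (r + 1)) / 2 - ((t : ℚ) + 1)) = 0 := by
      obtain ⟨t, ht⟩ : ∃ t, n + i = 2 * j + t + 1 := ⟨n + i - 2 * j - 1, by omega⟩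
      refine Finset.prod_eq_zero (i := t) (Finset.mem_range.2 (by omega)) ?_
      have h1 : (2 * (i : ℚ)) = j + (r + 1) := by
        have : 2 * i = j + (r + 1) := by omega
        exact_mod_cast this
      have h2 : ((n : ℚ) + i) = 2 * j + t + 1 := by exact_mod_cast ht
      linear_combination h2 - h1 / 2
    rw [hz]; ring

private noncomputable def R65 (s c : ℂ) (n j : ℕ) : ℂ :=
  ∑ i ∈ Finset.range (n + 1), (W65 n i j : ℂ) * s ^ (n - i) * c ^ (2 * i)

private theorem R65_ext (s c : ℂ) {n j : ℕ} (hj : j ≤ n) {K : ℕ} (hK : n + 1 ≤ K) :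
    R65 s c n j = ∑ i ∈ Finset.range K, (W65 n i j : ℂ) * s ^ (n - i) * c ^ (2 * i) := by
  unfold R65
  refine Finset.sum_subset (Finset.range_mono hK) fun i _ hi => ?_
  rw [Finset.mem_range, not_lt] at hi
  rw [W65_big hj (by omega)]
  simp

private theorem R65_mul (s c : ℂ) {n j : ℕ} (hj : j ≤ n) {K : ℕ} (hK : n + 1 ≤ K) (e : ℕ) :
    s ^ e * R65 s c n j =
      ∑ i ∈ Finset.range K, (W65 n i j : ℂ) * s ^ (n + e - i) * c ^ (2 * i) := by
  rw [R65_ext s c hj hK, Finset.mul_sum]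
  refine Finset.sum_congr rfl fun i _ => ?_
  by_cases hi : i ≤ n
  · have : n + e - i = (n - i) + e := by omega
    rw [this, pow_add]; ring
  · rw [W65_big hj (by omega)]
    simp

private theorem R65_rec1 (s c : ℂ) {n j : ℕ} (hj : j ≤ n) :
    R65 s c (n + 2) (j + 2) = c ^ 2 * R65 s c (n + 1) (j + 1) + s * c ^ 2 * R65 s c n j := by
  have h1 := R65_mul s c (n := n) (j := j) hj (K := n + 2) (by omega) 1
  have h2 := R65_mul s c (n := n + 1) (j := j + 1) (by omega) (K := n + 2) (by omega) 0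
  rw [pow_zero, one_mul] at h2
  rw [pow_one] at h1
  have h3 : s * c ^ 2 * R65 s c n j = c ^ 2 * (s * R65 s c n j) := by ring
  rw [h3, h1, h2, R65, Finset.sum_range_succ', Finset.mul_sum, Finset.mul_sum,
    ← Finset.sum_add_distrib]
  have h0 : W65 (n + 2) 0 (j + 2) = 0 := by
    unfold W65; rw [if_pos (by omega)]
  rw [h0, Rat.cast_zero, zero_mul, zero_mul, add_zero]
  refine Finset.sum_congr rfl fun i _ => ?_
  rw [W65_rec1]
  have e1 : n + 2 - (i + 1) = n + 1 - i := by omega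
  have e2 : n + 1 + 0 - i = n + 1 - i := by omega
  rw [e1, e2]
  push_cast
  ring

private theorem R65_rec2 (s c : ℂ) {n j : ℕ} (hj : j ≤ n) :
    R65 s c (n + 2) j = (c ^ 2 + 2 * s) * R65 s c (n + 1) j - s ^ 2 * R65 s c n j := by
  have h1 := R65_mul s c (n := n) (j := j) hj (K := n + 2 + 1) (by omega) 2
  have h2 := R65_mul s c (n := n + 1) (j := j) (by omega) (K := n + 2) (by omega) 0
  have h3 := R65_mul s c (n := n + 1) (j := j) (by omega) (K := n + 2 + 1) (by omega) 1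
  rw [pow_zero, one_mul] at h2
  rw [pow_one] at h3
  have h4 : (c ^ 2 + 2 * s) * R65 s c (n + 1) j - s ^ 2 * R65 s c n j =
      c ^ 2 * R65 s c (n + 1) j + 2 * (s * R65 s c (n + 1) j) - s ^ 2 * R65 s c n j := by ring
  rw [Finset.sum_range_succ'] at h1 h3
  rw [h4, h3, h1, h2, R65, Finset.sum_range_succ', Finset.mul_sum, mul_add, Finset.mul_sum]
  have h5 : ∑ i ∈ Finset.range (n + 2),
      (W65 (n + 2) (i + 1) j : ℂ) * s ^ (n + 2 - (i + 1)) * c ^ (2 * (i + 1)) =
      ∑ i ∈ Finset.range (n + 2), c ^ 2 * ((W65 (n + 1) i j : ℂ) * s ^ (n + 1 + 0 - i) * c ^ (2 * i)) +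
      ∑ i ∈ Finset.range (n + 2),
        2 * ((W65 (n + 1) (i + 1) j : ℂ) * s ^ (n + 1 + 1 - (i + 1)) * c ^ (2 * (i + 1))) -
      ∑ i ∈ Finset.range (n + 2),
        (W65 n (i + 1) j : ℂ) * s ^ (n + 2 - (i + 1)) * c ^ (2 * (i + 1)) := by
    rw [← Finset.sum_add_distrib, ← Finset.sum_sub_distrib]
    refine Finset.sum_congr rfl fun i _ => ?_
    rw [W65_rec2]
    have e1 : n + 2 - (i + 1) = n + 1 - i := by omega
    have e2 : n + 1 + 0 - i = n + 1 - i := by omega
    have e3 : n + 1 + 1 - (i + 1) = n + 1 - i := by omega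
    simp only [e1, e2, e3]
    push_cast
    ring
  rw [h5, W65_zero]
  push_cast
  ring

private noncomputable def F65 (a b : ℂ) (p j : ℕ) : ℂ :=
  (b ^ (2 * p) * a ^ j + a ^ (2 * p) * (-b) ^ j) * (a - b) ^ j

private theorem main65 (a b : ℂ) (j : ℕ) : ∀ p : ℕ, F65 a b p j = R65 (a * b) (a - b) (p + j) j := by
  induction j using Nat.twoStepInduction with
  | zero =>
    intro p
    induction p using Nat.twoStepInduction with
    | zero =>
      simp [F65, R65, W65, w65]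
      norm_num
    | one =>
      simp [F65, R65, W65, w65, Finset.sum_range_succ]
      ring
    | more p ih1 ih2 =>
      have h1 := R65_rec2 (a * b) (a - b) (n := p + 0) (j := 0) (by omega)
      have e1 : p + 2 + 0 = p + 0 + 2 := by ring
      have e2 : p + 1 + 0 = p + 0 + 1 := by ring
      rw [e1, h1, ← ih1, ← e2, ← ih2]
      unfold F65
      ring
  | one =>
    intro p
    induction p using Nat.twoStepInduction with
    | zero =>
      simp [F65, R65, W65, w65, Finset.sum_range_succ]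
      ring
    | one =>
      simp [F65, R65, W65, w65, Finset.sum_range_succ, Finset.prod_range_succ]
      ring
    | more p ih1 ih2 =>
      have h1 := R65_rec2 (a * b) (a - b) (n := p + 1) (j := 1) (by omega)
      have e1 : p + 2 + 1 = p + 1 + 2 := by ring
      rw [e1, h1, ← ih1, ← ih2]
      unfold F65
      ring
  | more j ih1 ih2 =>
    intro p
    have h1 := R65_rec1 (a * b) (a - b) (n := p + j) (j := j) (by omega)
    have e1 : p + (j + 2) = p + j + 2 := by ring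
    have e2 : p + j + 1 = p + (j + 1) := by ring
    rw [e1, h1, ← ih1, e2, ← ih2]
    unfold F65
    ring

private theorem U65 (n i j : ℕ) : Uent n i j = W65 n i j * 256 ^ i / (2 * 16 ^ j) := by
  unfold Uent W65
  by_cases h : 2 * i < j
  · rw [if_pos h, if_pos h]; ring
  · rw [if_neg h, if_neg h]
    by_cases h2 : j = 2 * i
    · rw [if_pos h2, h2, Nat.sub_self, w65_zero]
      have e1 : (16 : ℚ) ^ (2 * i) = 256 ^ i := by
        rw [pow_mul]; norm_num
      have e2 : (-1 : ℚ) ^ (2 * i) = 1 := by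
        rw [pow_mul]; norm_num
      rw [e1, e2]
      have : (256 : ℚ) ^ i ≠ 0 := by positivity
      field_simp
    · rw [if_neg h2]
      obtain ⟨r, hr⟩ : ∃ r, 2 * i = j + r + 1 := ⟨2 * i - j - 1, by omega⟩
      have e1 : 2 * i - j = r + 1 := by omega
      have e2 : 2 * i - j - 1 = r := by omega
      have e3 : 8 * i - 4 * j - 1 = 4 * r + 3 := by omega
      rw [e2, e1, e3, w65_succ]
      have hi : (2 * (i : ℚ)) = j + r + 1 := by exact_mod_cast hr
      have h3 : ∏ t ∈ Finset.range r, ((2 * (n : ℚ) - 3 * j + (r + 1)) / 2 - ((t : ℚ) + 1)) =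
          ∏ t ∈ Finset.range r, ((n : ℚ) + i - 2 * j - (t + 1)) := by
        refine Finset.prod_congr rfl fun t _ => ?_
        linear_combination (-1 / 2 : ℚ) * hi
      rw [h3]
      have e4 : (256 : ℚ) ^ i = 16 ^ j * 16 ^ (r + 1) := by
        rw [← pow_add, show (256 : ℚ) = 16 ^ 2 by norm_num, ← pow_mul, hr, add_assoc]
      have e5 : (16 : ℚ) ^ (r + 1) = 2 * 2 ^ (4 * r + 3) := by
        rw [show (16 : ℚ) = 2 ^ 4 by norm_num, ← pow_mul]
        ring
      rw [e4, e5]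
      have h4 : (16 : ℚ) ^ j ≠ 0 := by positivity
      field_simp

/-- column identity: U_2 applied to x^(n-j) y^j, with x = a b, 256 y = (a-b)^2 -/
theorem pol_id (n : ℕ) (j : Fin (n + 1)) (a b : ℂ) :
    (1 / 2 : ℂ) * ((b ^ 2) ^ (n - (j : ℕ)) * (a * (a - b) / 16) ^ (j : ℕ) +
      (a ^ 2) ^ (n - (j : ℕ)) * (-(b * (a - b)) / 16) ^ (j : ℕ)) =
    ∑ i : Fin (n + 1), ((U n i j : ℚ) : ℂ) * (a * b) ^ (n - (i : ℕ)) *
      ((a - b) ^ 2 / 256) ^ (i : ℕ) := by
  have hj : (j : ℕ) ≤ n := Nat.lt_succ_iff.1 j.2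
  have hm := main65 a b (j : ℕ) (n - (j : ℕ))
  rw [Nat.sub_add_cancel hj] at hm
  have hL : (1 / 2 : ℂ) * ((b ^ 2) ^ (n - (j : ℕ)) * (a * (a - b) / 16) ^ (j : ℕ) +
      (a ^ 2) ^ (n - (j : ℕ)) * (-(b * (a - b)) / 16) ^ (j : ℕ)) =
      F65 a b (n - (j : ℕ)) (j : ℕ) / (2 * 16 ^ (j : ℕ)) := by
    have e1 : (-(b * (a - b)) / 16 : ℂ) = (-b) * (a - b) / 16 := by ring
    rw [e1, div_pow, div_pow, mul_pow, mul_pow, ← pow_mul, ← pow_mul, F65]
    have h16 : (16 : ℂ) ^ (j : ℕ) ≠ 0 := pow_ne_zero _ (by norm_num)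
    field_simp
  rw [hL, hm, R65, Finset.sum_range, Finset.sum_div]
  refine Finset.sum_congr rfl fun i _ => ?_
  rw [U, Matrix.of_apply, U65, div_pow, ← pow_mul]
  push_cast
  have h16 : (16 : ℂ) ^ (j : ℕ) ≠ 0 := pow_ne_zero _ (by norm_num)
  have h256 : (256 : ℂ) ^ (i : ℕ) ≠ 0 := pow_ne_zero _ (by norm_num)
  field_simp

end Pool.Agent.Helper59.BZ
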