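import Pool.Agent.Helper59.BZ.Defs

/-! BZ-THA. Elementary facts on ta = theta_3^4 and tb = theta_4^4 (Mathlib's jacobiTheta).
Proofs: `jacobiTheta_two_add`, `jacobiTheta_S_smul` (or `jacobiTheta₂_functional_equation` at z=0;
(-I z)^(1/2)^4 = (-I z)^2 = -z^2), `differentiableAt_jacobiTheta`,
`isBigO_at_im_infty_jacobiTheta_sub_one`. -/

set_option autoImplicit false

namespace Pool.Agent.Helper59.BZ

open UpperHalfPlane Complex Filter Topology

private theorem jt_lim24 : Tendsto jacobiTheta (comap Complex.im atTop) (𝓝 1) := by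
  have h1 : Tendsto (fun τ : ℂ => Real.exp (-Real.pi * τ.im)) (comap Complex.im atTop) (𝓝 0) := by
    have h2 : Tendsto (fun y : ℝ => Real.exp (-Real.pi * y)) atTop (𝓝 0) := by
      refine Real.tendsto_exp_atBot.comp ?_
      exact tendsto_id.const_mul_atTop_of_neg (neg_lt_zero.2 Real.pi_pos)
    exact h2.comp tendsto_comap
  have h3 := isBigO_at_im_infty_jacobiTheta_sub_one.trans_tendsto h1
  have h4 := h3.add_const 1
  simpa using h4

private theorem shift24 : Tendsto (fun z : ℂ => z + 1) (comap Complex.im atTop) (comap Complex.im atTop) := by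
  rw [tendsto_comap_iff]
  have h : (Complex.im ∘ fun z : ℂ => z + 1) = Complex.im := by
    funext z
    simp
  rw [h]
  exact tendsto_comap

private theorem im_add_one24 {z : ℂ} (hz : 0 < z.im) : 0 < (z + 1).im := by
  simpa using hz

theorem ta_add_one (z : ℂ) : ta (z + 1) = tb z := rfl

theorem tb_add_one (z : ℂ) : tb (z + 1) = ta z := by
  unfold tb ta
  have h : z + 1 + 1 = 2 + z := by ring
  rw [h, jacobiTheta_two_add]

theorem tc_add_one (z : ℂ) : tc (z + 1) = -tc z := by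
  unfold tc
  rw [ta_add_one, tb_add_one]
  ring

theorem ta_inv (z : ℂ) (hz : 0 < z.im) : ta (-1 / z) = -z ^ 2 * ta z := by
  have h := jacobiTheta_S_smul ⟨z, hz⟩
  rw [UpperHalfPlane.modular_S_smul] at h
  have h1 : jacobiTheta (-1 / z) = (-Complex.I * z) ^ (1 / 2 : ℂ) * jacobiTheta z := by
    have h2 : (-1 / z : ℂ) = (-z)⁻¹ := by
      rw [inv_neg, div_eq_mul_inv, neg_one_mul]
    rw [h2]
    exact h
  have h3 : ((-Complex.I * z) ^ (1 / 2 : ℂ)) ^ 2 = -Complex.I * z := by
    have h4 := Complex.cpow_nat_inv_pow (-Complex.I * z) (n := 2) (by norm_num)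
    have h5 : (1 / 2 : ℂ) = ((2 : ℕ) : ℂ)⁻¹ := by norm_num
    rw [h5]
    exact h4
  unfold ta
  rw [h1, mul_pow]
  have h6 : ((-Complex.I * z) ^ (1 / 2 : ℂ)) ^ 4 = -z ^ 2 := by
    have h7 : ((-Complex.I * z) ^ (1 / 2 : ℂ)) ^ 4 = (((-Complex.I * z) ^ (1 / 2 : ℂ)) ^ 2) ^ 2 := by ring
    rw [h7, h3, mul_pow, neg_sq, Complex.I_sq]
    ring
  rw [h6]

theorem ta_diff (z : ℂ) (hz : 0 < z.im) : DifferentiableAt ℂ ta z :=
  (differentiableAt_jacobiTheta hz).pow 4

theorem tb_diff (z : ℂ) (hz : 0 < z.im) : DifferentiableAt ℂ tb z := by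
  have h1 : DifferentiableAt ℂ (fun w : ℂ => w + 1) z := differentiableAt_id.add_const 1
  have h2 : DifferentiableAt ℂ (fun w : ℂ => jacobiTheta (w + 1)) z :=
    DifferentiableAt.comp z (differentiableAt_jacobiTheta (im_add_one24 hz)) h1
  exact h2.pow 4

theorem tc_diff (z : ℂ) (hz : 0 < z.im) : DifferentiableAt ℂ tc z :=
  (ta_diff z hz).sub (tb_diff z hz)

theorem ta_lim : Tendsto ta (comap Complex.im atTop) (𝓝 1) := by
  have h := jt_lim24.pow 4
  rw [one_pow] at h
  exact h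

theorem tb_lim : Tendsto tb (comap Complex.im atTop) (𝓝 1) := by
  have h := (jt_lim24.comp shift24).pow 4
  rw [one_pow] at h
  exact h

theorem tc_lim : Tendsto tc (comap Complex.im atTop) (𝓝 0) := by
  have h := ta_lim.sub tb_lim
  rw [sub_self] at h
  exact h

end Pool.Agent.Helper59.BZ
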