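import Pool.Agent.Helper59.BZ.ThA

/-! BZ-THB1. Jacobi's identity theta_3^4 = theta_2^4 + theta_4^4, in the form of the
transformation formula tb(-1/z) = -z^2 tc(z) with tc := ta - tb.

Let c1 z = -(z^2)^(-1) tb(-1/z).

(1) `c1_eq`: c1 z = e^(pi i z) J(z/2, z)^4, J = jacobiTheta₂. PROOF. jacobiTheta (t + 1) =
jacobiTheta₂ (1/2) t (both are sums over n of e^(pi i n^2 t) times (-1)^n, as n^2 = n mod 2).
`jacobiTheta₂_functional_equation (1/2) (-1/z)`:
J(1/2, -1/z) = 1/(-I * (-1/z))^(1/2) * e^(-pi i (1/4)/(-1/z)) * J((1/2)/(-1/z), -1/(-1/z))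
 = 1/(I/z)^(1/2) * e^(pi i z/4) * J(-z/2, z), and J(-z/2, z) = J(z/2, z)
(`jacobiTheta₂_neg_left`). Fourth power: ((I/z)^(1/2))^4 = (I/z)^2 = -1/z^2, so
tb(-1/z) = -z^2 e^(pi i z) J(z/2, z)^4.

(2) `c1_add_one`: c1 (z+1) = - c1 z: e^(pi i (z+1)) = -e^(pi i z) and
J((z+1)/2, z+1) = sum of e^(pi i n z + pi i n^2 z) e^(pi i (n + n^2)) = J(z/2, z).

(3) `c1_lim`: c1 z tends to 0: |e^(pi i z)| = e^(-pi im z) and, for im z >= 1,
|J(z/2, z)| <= sum over n of e^(-pi (n^2+n) im z) <= sum of e^(-pi (n^2+n)) < infinity.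

(4) `c1_inv`: c1 (-1/z) = -z^2 tb z (definition; -1/(-1/z) = z). -/

set_option autoImplicit false

namespace Pool.Agent.Helper59.BZ

open UpperHalfPlane Complex Filter Topology
open scoped MatrixGroups ModularForm

noncomputable def c1 (z : ℂ) : ℂ := -(z ^ 2)⁻¹ * tb (-1 / z)

private theorem jt_half53 (t : ℂ) : jacobiTheta (t + 1) = jacobiTheta₂ (1 / 2) t := by
  unfold jacobiTheta jacobiTheta₂
  refine tsum_congr fun n => ?_
  unfold jacobiTheta₂_term
  rw [Complex.exp_eq_exp_iff_exists_int]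
  obtain ⟨k, hk⟩ : Even (n * (n - 1)) := by
    have := Int.even_mul_pred_self n
    exact this
  refine ⟨k, ?_⟩
  have hk' : ((n : ℂ) * ((n : ℂ) - 1)) = (k : ℂ) + k := by exact_mod_cast hk
  linear_combination (Real.pi * Complex.I : ℂ) * hk'

private theorem J_shift53 (z : ℂ) : jacobiTheta₂ ((z + 1) / 2) (z + 1) = jacobiTheta₂ (z / 2) z := by
  unfold jacobiTheta₂
  refine tsum_congr fun n => ?_
  unfold jacobiTheta₂_term
  rw [Complex.exp_eq_exp_iff_exists_int]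
  obtain ⟨k, hk⟩ : Even (n * (n + 1)) := Int.even_mul_succ_self n
  refine ⟨k, ?_⟩
  have hk' : ((n : ℂ) * ((n : ℂ) + 1)) = (k : ℂ) + k := by exact_mod_cast hk
  linear_combination (Real.pi * Complex.I : ℂ) * hk'

private theorem ne53 {z : ℂ} (hz : 0 < z.im) : z ≠ 0 := by
  rintro rfl
  simp at hz

private theorem im_inv53 {z : ℂ} (hz : 0 < z.im) : 0 < (-1 / z).im := by
  have h : (-1 / z).im = z.im / Complex.normSq z := by
    rw [neg_div, one_div, Complex.neg_im, Complex.inv_im]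
    ring
  rw [h]
  exact div_pos hz (Complex.normSq_pos.2 (ne53 hz))


theorem c1_eq (z : ℂ) (hz : 0 < z.im) :
    c1 z = Complex.exp (Real.pi * Complex.I * z) * jacobiTheta₂ (z / 2) z ^ 4 := by
  have hz0 : z ≠ 0 := ne53 hz
  unfold c1 tb
  rw [jt_half53, jacobiTheta₂_functional_equation (1 / 2) (-1 / z)]
  have e1 : (-1 : ℂ) / (-1 / z) = z := by field_simp
  have e2 : (1 / 2 : ℂ) / (-1 / z) = -(z / 2) := by field_simp
  rw [e1, e2, jacobiTheta₂_neg_left, mul_pow, mul_pow, ← Complex.exp_nat_mul]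
  have e3 : ((4 : ℕ) : ℂ) * (-Real.pi * Complex.I * (1 / 2) ^ 2 / (-1 / z)) =
      Real.pi * Complex.I * z := by
    field_simp
    norm_num
  rw [e3]
  have e4 : (1 / (-Complex.I * (-1 / z)) ^ (1 / 2 : ℂ)) ^ 4 = -z ^ 2 := by
    have h4 := Complex.cpow_nat_inv_pow (-Complex.I * (-1 / z)) (n := 2) (by norm_num)
    have h5 : (1 / 2 : ℂ) = ((2 : ℕ) : ℂ)⁻¹ := by norm_num
    rw [h5, div_pow, one_pow]
    have h6 : ((-Complex.I * (-1 / z)) ^ (((2 : ℕ) : ℂ)⁻¹)) ^ 4 = (-Complex.I * (-1 / z)) ^ 2 := by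
      rw [show ((-Complex.I * (-1 / z)) ^ (((2 : ℕ) : ℂ)⁻¹)) ^ 4 =
        (((-Complex.I * (-1 / z)) ^ (((2 : ℕ) : ℂ)⁻¹)) ^ 2) ^ 2 by ring, h4]
    rw [h6]
    have h7 : (-Complex.I * (-1 / z)) ^ 2 = -(1 / z ^ 2) := by
      rw [mul_pow, neg_sq, Complex.I_sq, div_pow]
      ring
    rw [h7]
    field_simp
  rw [e4]
  field_simp

theorem c1_add_one (z : ℂ) (hz : 0 < z.im) : c1 (z + 1) = -c1 z := by
  have hz1 : 0 < (z + 1).im := by simpa using hz
  rw [c1_eq z hz, c1_eq (z + 1) hz1, J_shift53]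
  have h : Complex.exp (Real.pi * Complex.I * (z + 1)) = -Complex.exp (Real.pi * Complex.I * z) := by
    rw [mul_add, mul_one, Complex.exp_add, Complex.exp_pi_mul_I]
    ring
  rw [h]
  ring

theorem c1_lim : Tendsto c1 (comap Complex.im atTop) (𝓝 0) := by
  have hs : Summable (fun n : ℤ => ‖jacobiTheta₂_term n (Complex.I / 2) Complex.I‖) :=
    ((summable_jacobiTheta₂_term_iff (Complex.I / 2) Complex.I).2 (by simp)).norm
  set C : ℝ := ∑' n : ℤ, ‖jacobiTheta₂_term n (Complex.I / 2) Complex.I‖ with hC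
  have hb : ∀ z : ℂ, 1 ≤ z.im → ‖c1 z‖ ≤ Real.exp (-Real.pi * z.im) * C ^ 4 := by
    intro z hz
    have hz0 : 0 < z.im := lt_of_lt_of_le one_pos hz
    rw [c1_eq z hz0, norm_mul, norm_pow, Complex.norm_exp]
    have hre : (Real.pi * Complex.I * z : ℂ).re = -Real.pi * z.im := by
      simp
    rw [hre]
    refine mul_le_mul_of_nonneg_left ?_ (Real.exp_pos _).le
    refine pow_le_pow_left₀ (norm_nonneg _) ?_ 4
    have hle : ∀ n : ℤ, ‖jacobiTheta₂_term n (z / 2) z‖ ≤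
        ‖jacobiTheta₂_term n (Complex.I / 2) Complex.I‖ := by
      intro n
      rw [norm_jacobiTheta₂_term, norm_jacobiTheta₂_term]
      refine Real.exp_le_exp.2 ?_
      have h1 : (z / 2).im = z.im / 2 := by
        simp
      have h2 : (Complex.I / 2).im = 1 / 2 := by
        simp
      rw [h1, h2, Complex.I_im]
      have h3 : 0 ≤ (n : ℝ) ^ 2 + n := by
        have h4 : (0 : ℤ) ≤ n ^ 2 + n := by
          rcases le_or_gt 0 n with h | h
          · positivity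
          · nlinarith
        exact_mod_cast h4
      have h5 : 0 ≤ Real.pi * ((n : ℝ) ^ 2 + n) * (z.im - 1) :=
        mul_nonneg (mul_nonneg Real.pi_pos.le h3) (by linarith)
      nlinarith [h5]
    have hs2 : Summable (fun n : ℤ => ‖jacobiTheta₂_term n (z / 2) z‖) :=
      Summable.of_nonneg_of_le (fun n => norm_nonneg _) hle hs
    unfold jacobiTheta₂
    exact (norm_tsum_le_tsum_norm hs2).trans (Summable.tsum_le_tsum hle hs2 hs)
  have h1 : Tendsto (fun z : ℂ => Real.exp (-Real.pi * z.im) * C ^ 4)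
      (comap Complex.im atTop) (𝓝 0) := by
    have h2 : Tendsto (fun y : ℝ => Real.exp (-Real.pi * y) * C ^ 4) atTop (𝓝 0) := by
      have h3 : Tendsto (fun y : ℝ => Real.exp (-Real.pi * y)) atTop (𝓝 0) := by
        refine Real.tendsto_exp_atBot.comp ?_
        exact tendsto_id.const_mul_atTop_of_neg (neg_lt_zero.2 Real.pi_pos)
      have h4 := h3.mul_const (C ^ 4)
      rwa [zero_mul] at h4
    exact h2.comp tendsto_comap
  refine squeeze_zero_norm' ?_ h1
  have h5 : ∀ᶠ z : ℂ in comap Complex.im atTop, 1 ≤ z.im :=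
    tendsto_comap.eventually (eventually_ge_atTop (1 : ℝ))
  filter_upwards [h5] with z hz
  exact hb z hz

theorem c1_diff (z : ℂ) (hz : 0 < z.im) : DifferentiableAt ℂ c1 z := by
  have hz0 : z ≠ 0 := ne53 hz
  have h1 : DifferentiableAt ℂ (fun w : ℂ => -(w ^ 2)⁻¹) z :=
    ((differentiableAt_id.pow 2).inv (pow_ne_zero 2 hz0)).neg
  have h2 : DifferentiableAt ℂ (fun w : ℂ => -1 / w) z :=
    (differentiableAt_const (-1 : ℂ)).div differentiableAt_id hz0
  have h3 : DifferentiableAt ℂ (fun w : ℂ => tb (-1 / w)) z :=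
    DifferentiableAt.comp z (tb_diff _ (im_inv53 hz)) h2
  exact h1.mul h3

theorem c1_inv (z : ℂ) (hz : 0 < z.im) : c1 (-1 / z) = -z ^ 2 * tb z := by
  have hz0 : z ≠ 0 := ne53 hz
  unfold c1
  have e1 : (-1 : ℂ) / (-1 / z) = z := by field_simp
  have e2 : ((-1 / z : ℂ) ^ 2)⁻¹ = z ^ 2 := by
    field_simp
  rw [e1, e2]

end Pool.Agent.Helper59.BZ
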