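import Pool.Agent.Helper59.BZ.Mk
import Pool.Agent.Helper59.BZ.ThB1

/-! BZ-THB. Jacobi's identity theta_3^4 = theta_2^4 + theta_4^4, in the form of the
transformation formula tb(-1/z) = -z^2 tc(z) with tc := ta - tb, and c1 z = -(z^2)^(-1) tb(-1/z).

(5) `tb_inv`. F z = (ta z - tb z - c1 z)^2 satisfies F(z+1) = F z (ta and tb are exchanged, c1
changes sign), F(-1/z) = z^4 F z (ta -> -z^2 ta, tb -> -z^2 c1, c1 -> -z^2 tb), is holomorphic and
tends to (1 - 1 - 0)^2 = 0 at i infinity. By `mk_form` (k = 4) it is a form f : M 4, whose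
coefficient cf f 0 is 0 (value at infinity), so it is a cusp form (`toCuspForm`) of weight 4 and
`CuspForm.rank_eq_zero_of_weight_lt_twelve` gives f = 0. So c1 = ta - tb = tc and
tb(-1/z) = -z^2 c1 z = -z^2 tc z. -/

set_option autoImplicit false

namespace Pool.Agent.Helper59.BZ

open UpperHalfPlane Complex Filter Topology
open scoped MatrixGroups ModularForm

private theorem dsq_add6 (z : ℂ) (hz : 0 < z.im) :
    (ta (z + 1) - tb (z + 1) - c1 (z + 1)) ^ 2 = (ta z - tb z - c1 z) ^ 2 := by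
  rw [ta_add_one, tb_add_one, c1_add_one z hz]
  ring

private theorem tb_inv6 (z : ℂ) (hz : 0 < z.im) : tb (-1 / z) = -z ^ 2 * c1 z := by
  have hz0 : z ≠ 0 := by
    rintro rfl
    simp at hz
  unfold c1
  field_simp

private theorem dsq_inv6 (z : ℂ) (hz : 0 < z.im) :
    (ta (-1 / z) - tb (-1 / z) - c1 (-1 / z)) ^ 2 = z ^ 4 * (ta z - tb z - c1 z) ^ 2 := by
  rw [ta_inv z hz, tb_inv6 z hz, c1_inv z hz]
  ring

private theorem dsq_lim6 :
    Tendsto (fun z : ℂ => (ta z - tb z - c1 z) ^ 2) (comap Complex.im atTop) (𝓝 0) := by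
  have h := ((ta_lim.sub tb_lim).sub c1_lim).pow 2
  simpa using h

private theorem dsq_form6 :
    ∃ f : M 4, ∀ τ : ℍ, f τ = (ta τ - tb τ - c1 τ) ^ 2 := by
  refine mk_form 4 (fun z => (ta z - tb z - c1 z) ^ 2) (fun z hz => dsq_add6 z hz)
    (fun z hz => dsq_inv6 z hz) (fun z hz => ?_) ?_
  · exact (((ta_diff z hz).sub (tb_diff z hz)).sub (c1_diff z hz)).pow 2
  · have h := dsq_lim6.norm
    simp only [norm_zero] at h
    have h1 : ∀ᶠ z : ℂ in comap Complex.im atTop, ‖(ta z - tb z - c1 z) ^ 2‖ < 1 :=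
      h.eventually (gt_mem_nhds one_pos)
    rw [eventually_comap] at h1
    obtain ⟨B, hB⟩ := eventually_atTop.1 h1
    exact ⟨1, B, fun z hz => (hB z.im hz z rfl).le⟩

private theorem dsq_zero6 (z : ℂ) (hz : 0 < z.im) : (ta z - tb z - c1 z) ^ 2 = 0 := by
  obtain ⟨f, hf⟩ := dsq_form6
  have hcoe : Tendsto (fun τ : ℍ => (τ : ℂ)) atImInfty (comap Complex.im atTop) := by
    rw [tendsto_comap_iff]
    exact tendsto_comap
  have hlim : Tendsto (f : ℍ → ℂ) atImInfty (𝓝 0) := by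
    refine (dsq_lim6.comp hcoe).congr fun τ => ?_
    exact (hf τ).symm
  have hz0 : IsZeroAtImInfty (f : ℍ → ℂ) := hlim
  have h0 : (qExpansion 1 f).coeff 0 = 0 := by
    rw [qExpansion_coeff_zero one_pos
      (ModularFormClass.analyticAt_cuspFunction_zero f one_pos one_mem_strictPeriods_SL)
      (SlashInvariantFormClass.periodic_comp_ofComplex f one_mem_strictPeriods_SL)]
    exact hz0.valueAtInfty_eq_zero
  have hc : ModularForm.toCuspForm f h0 = 0 :=
    rank_zero_iff_forall_zero.mp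
      (CuspForm.rank_eq_zero_of_weight_lt_twelve (k := ((4 : ℕ) : ℤ)) (by norm_num)) _
  have hval : f ⟨z, hz⟩ = 0 := by
    rw [← ModularForm.toCuspForm_apply f h0 ⟨z, hz⟩, hc]
    rfl
  rw [← hval, hf ⟨z, hz⟩]

theorem c1_eq_tc (z : ℂ) (hz : 0 < z.im) : c1 z = tc z := by
  have h := pow_eq_zero_iff (two_ne_zero) |>.1 (dsq_zero6 z hz)
  unfold tc
  linear_combination -h

theorem tb_inv (z : ℂ) (hz : 0 < z.im) : tb (-1 / z) = -z ^ 2 * tc z := by
  have h := c1_eq_tc z hz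
  have hz0 : z ≠ 0 := by
    rintro rfl
    simp at hz
  unfold c1 at h
  rw [← h]
  field_simp

theorem tc_inv (z : ℂ) (hz : 0 < z.im) : tc (-1 / z) = -z ^ 2 * tb z := by
  unfold tc
  rw [ta_inv z hz, tb_inv z hz]
  unfold tc
  ring

end Pool.Agent.Helper59.BZ
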