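import Pool.Agent.Helper59.BZ.Defs

/-! BZ-THC. Doubling formulas for theta functions (only Mathlib's jacobiTheta, series
manipulations).

(1) `jt_add`: th(z)^2 + th(z+1)^2 = 2 th(2z)^2, th = jacobiTheta. PROOF. th(z)^2 is the sum over
(m, n) in Z x Z of e^(pi i z (m^2+n^2)); th(z+1)^2 is the same sum with the factor
(-1)^(m^2+n^2) = (-1)^(m+n). The sum of both is twice the sum over m + n even; (u, v) ->
(u+v, u-v) is a bijection of Z x Z onto these pairs and m^2+n^2 = 2(u^2+v^2).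
(2) `jt_mul`: th(z) th(z+1) = th(2z+1)^2. PROOF. The left side is the sum over (m, n) of
(-1)^n e^(pi i z (m^2+n^2)). The part with m + n odd cancels: the swap (m, n) -> (n, m) changes
(-1)^n to (-1)^m = -(-1)^n. The part with m + n even, by (u, v) -> (u+v, u-v), is the sum of
(-1)^(u-v) e^(2 pi i z (u^2+v^2)) = (-1)^(u^2) e^(2 pi i z u^2) (-1)^(v^2) e^(2 pi i z v^2),
i.e. th(2z+1)^2.
All sums converge absolutely for im z > 0 (`summable_jacobiTheta₂_term_iff`,
`hasSum_jacobiTheta₂_term`, `Summable.mul_of_nonneg`, `summable_mul_of_summable_norm`,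
`tsum_mul_tsum_of_summable_norm`). -/

set_option autoImplicit false

namespace Pool.Agent.Helper59.BZ

open UpperHalfPlane Complex Filter Topology

private noncomputable def sg24 (n : ℤ) : ℂ := if Even n then 1 else -1

private noncomputable def tt24 (z : ℂ) (n : ℤ) : ℂ := cexp (Real.pi * Complex.I * (n : ℂ) ^ 2 * z)

private theorem exp_sq24 (n : ℤ) : cexp (Real.pi * Complex.I * (n : ℂ) ^ 2) = sg24 n := by
  unfold sg24
  split_ifs with h
  · obtain ⟨k, rfl⟩ := h
    have h1 : (Real.pi * Complex.I * ((k + k : ℤ) : ℂ) ^ 2) = ((2 * k ^ 2 : ℤ) : ℂ) * (2 * Real.pi * Complex.I) := by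
      push_cast
      ring
    rw [h1, Complex.exp_int_mul_two_pi_mul_I]
  · obtain ⟨k, rfl⟩ := Int.not_even_iff_odd.1 h
    have h1 : (Real.pi * Complex.I * ((2 * k + 1 : ℤ) : ℂ) ^ 2) =
        ((2 * k ^ 2 + 2 * k : ℤ) : ℂ) * (2 * Real.pi * Complex.I) + Real.pi * Complex.I := by
      push_cast
      ring
    rw [h1, Complex.exp_add, Complex.exp_int_mul_two_pi_mul_I, Complex.exp_pi_mul_I, one_mul]

private theorem tt_add_one24 (z : ℂ) (n : ℤ) : tt24 (z + 1) n = sg24 n * tt24 z n := by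
  unfold tt24
  rw [mul_add, mul_one, Complex.exp_add, exp_sq24, mul_comm]

private theorem tt_phi24 (z : ℂ) (u v : ℤ) :
    tt24 z (u + v) * tt24 z (u - v) = tt24 (2 * z) u * tt24 (2 * z) v := by
  unfold tt24
  rw [← Complex.exp_add, ← Complex.exp_add]
  congr 1
  push_cast
  ring

private theorem tt_hasSum24 {z : ℂ} (hz : 0 < z.im) : HasSum (tt24 z) (jacobiTheta z) := by
  have h := hasSum_jacobiTheta₂_term 0 hz
  rw [← jacobiTheta_eq_jacobiTheta₂] at h
  have he : (fun n : ℤ => jacobiTheta₂_term n 0 z) = tt24 z := by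
    funext n
    unfold jacobiTheta₂_term tt24
    congr 1
    ring
  rw [he] at h
  exact h

private theorem tt_norm24 {z : ℂ} (hz : 0 < z.im) : Summable (fun n => ‖tt24 z n‖) :=
  (tt_hasSum24 hz).summable.norm

private theorem mul24 {z w : ℂ} (hz : 0 < z.im) (hw : 0 < w.im) :
    HasSum (fun a : ℤ × ℤ => tt24 z a.1 * tt24 w a.2) (jacobiTheta z * jacobiTheta w) := by
  have h1 := (summable_mul_of_summable_norm (tt_norm24 hz) (tt_norm24 hw)).hasSum
  rw [← tsum_mul_tsum_of_summable_norm (tt_norm24 hz) (tt_norm24 hw), (tt_hasSum24 hz).tsum_eq,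
    (tt_hasSum24 hw).tsum_eq] at h1
  exact h1

private def phi24 (a : ℤ × ℤ) : ℤ × ℤ := (a.1 + a.2, a.1 - a.2)

private theorem phi_inj24 : Function.Injective phi24 := by
  rintro ⟨a, b⟩ ⟨c, d⟩ h
  unfold phi24 at h
  simp only [Prod.mk.injEq] at h ⊢
  constructor <;> omega

private theorem phi_range24 {a : ℤ × ℤ} (h : Even (a.1 + a.2)) : a ∈ Set.range phi24 := by
  obtain ⟨k, hk⟩ := h
  refine ⟨(k, a.1 - k), ?_⟩
  unfold phi24
  ext
  · simp
  · simp only
    omega

private theorem sg_mul24 (m n : ℤ) : sg24 m * sg24 n = if Even (m + n) then 1 else -1 := by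
  unfold sg24
  by_cases h1 : Even m <;> by_cases h2 : Even n <;> simp [h1, h2, Int.even_add]

private theorem sg_sq24 (m : ℤ) : sg24 m * sg24 m = 1 := by
  unfold sg24
  split_ifs <;> norm_num

theorem jt_add (z : ℂ) (hz : 0 < z.im) :
    jacobiTheta z ^ 2 + jacobiTheta (z + 1) ^ 2 = 2 * jacobiTheta (2 * z) ^ 2 := by
  have hz1 : 0 < (z + 1).im := by simpa using hz
  have hz2 : 0 < (2 * z).im := by
    have : (2 * z).im = 2 * z.im := by simp
    rw [this]
    positivity
  have h1 := (mul24 hz hz).add (mul24 hz1 hz1)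
  have h2 := (mul24 hz2 hz2).mul_left 2
  have h3 : HasSum ((fun a : ℤ × ℤ => tt24 z a.1 * tt24 z a.2 + tt24 (z + 1) a.1 * tt24 (z + 1) a.2) ∘ phi24)
      (2 * (jacobiTheta (2 * z) * jacobiTheta (2 * z))) := by
    have he : ((fun a : ℤ × ℤ => tt24 z a.1 * tt24 z a.2 + tt24 (z + 1) a.1 * tt24 (z + 1) a.2) ∘ phi24) =
        fun a : ℤ × ℤ => 2 * (tt24 (2 * z) a.1 * tt24 (2 * z) a.2) := by
      funext a
      simp only [Function.comp_apply, phi24]
      have h4 : sg24 (a.1 + a.2) * sg24 (a.1 - a.2) = 1 := by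
        rw [sg_mul24, if_pos]
        exact ⟨a.1, by ring⟩
      rw [tt_add_one24, tt_add_one24, ← tt_phi24]
      linear_combination (tt24 z (a.1 + a.2) * tt24 z (a.1 - a.2)) * h4
    rw [he]
    exact h2
  rw [phi_inj24.hasSum_iff] at h3
  · have h5 := h1.unique h3
    rw [sq, sq, sq]
    exact h5
  · intro a ha
    have h6 : ¬ Even (a.1 + a.2) := fun h => ha (phi_range24 h)
    have h7 : sg24 a.1 * sg24 a.2 = -1 := by rw [sg_mul24, if_neg h6]
    rw [tt_add_one24, tt_add_one24]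
    linear_combination (tt24 z a.1 * tt24 z a.2) * h7

theorem jt_mul (z : ℂ) (hz : 0 < z.im) :
    jacobiTheta z * jacobiTheta (z + 1) = jacobiTheta (2 * z + 1) ^ 2 := by
  have hz1 : 0 < (z + 1).im := by simpa using hz
  have hz2 : 0 < (2 * z + 1).im := by
    have : (2 * z + 1).im = 2 * z.im := by simp
    rw [this]
    positivity
  have h1 := mul24 hz hz1
  have h1' : HasSum (fun a : ℤ × ℤ => tt24 z a.2 * tt24 (z + 1) a.1) (jacobiTheta z * jacobiTheta (z + 1)) := by
    have h := (Equiv.prodComm ℤ ℤ).hasSum_iff.2 h1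
    exact h
  have h2 := h1.add h1'
  have h3 := (mul24 hz2 hz2).mul_left 2
  have h4 : HasSum ((fun a : ℤ × ℤ => tt24 z a.1 * tt24 (z + 1) a.2 + tt24 z a.2 * tt24 (z + 1) a.1) ∘ phi24)
      (2 * (jacobiTheta (2 * z + 1) * jacobiTheta (2 * z + 1))) := by
    have he : ((fun a : ℤ × ℤ => tt24 z a.1 * tt24 (z + 1) a.2 + tt24 z a.2 * tt24 (z + 1) a.1) ∘ phi24) =
        fun a : ℤ × ℤ => 2 * (tt24 (2 * z + 1) a.1 * tt24 (2 * z + 1) a.2) := by
      funext a
      simp only [Function.comp_apply, phi24]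
      have h5 : sg24 (a.1 + a.2) = sg24 a.1 * sg24 a.2 := by
        rw [sg_mul24]
        rfl
      have h6 : sg24 (a.1 - a.2) = sg24 a.1 * sg24 a.2 := by
        rw [sg_mul24]
        unfold sg24
        by_cases h1 : Even a.1 <;> by_cases h2 : Even a.2 <;> simp [h1, h2, Int.even_add, Int.even_sub]
      rw [tt_add_one24, tt_add_one24, tt_add_one24, tt_add_one24, h5, h6]
      have h7 := tt_phi24 z a.1 a.2
      linear_combination (2 * sg24 a.1 * sg24 a.2) * h7
    rw [he]
    exact h3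
  rw [phi_inj24.hasSum_iff] at h4
  · have h5 := h2.unique h4
    rw [sq]
    linear_combination h5 / 2
  · intro a ha
    have h6 : ¬ Even (a.1 + a.2) := fun h => ha (phi_range24 h)
    have h7 : sg24 a.1 * sg24 a.2 = -1 := by rw [sg_mul24, if_neg h6]
    have h8 := sg_sq24 a.1
    have h9 : sg24 a.2 = - sg24 a.1 := by
      linear_combination sg24 a.1 * h7 - sg24 a.2 * h8
    rw [tt_add_one24, tt_add_one24, h9]
    ring

end Pool.Agent.Helper59.BZ
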