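import Pool.Agent.Helper59.BZ.ThA
import Pool.Agent.Helper59.BZ.ThB
import Pool.Agent.Helper59.BZ.ThC

/-! BZ-THD. Consequences of the doubling formulas, and non-vanishing.

`tatb_dbl`: ta z tb z = (th(z) th(z+1))^4 = th(2z+1)^8 = tb(2z)^2.
`tc_dbl`: tc^2 = (th^4 - th'^4)^2 = (th^2 + th'^2)^2 (th^2 - th'^2)^2 with th = th(z),
th' = th(z+1); (th^2+th'^2)^2 = 4 th(2z)^4 and (th^2-th'^2)^2 = (th^2+th'^2)^2 - 4 th^2 th'^2
= 4 th(2z)^4 - 4 th(2z+1)^4 = 4 tc(2z).
The four `half` formulas: apply these at z/2 and (z+1)/2, with ta(z+1) = tb z, tb(z+1) = ta z.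
`tc_seq`: tc z0 is not 0 for some z0 (otherwise tb(-1/z) = -z^2 tc z = 0 for all z, so tb = 0 on
the upper half plane, but tb tends to 1). If tc z0 is not 0, tc_dbl shows tc(2 z0) is not 0,
so z_m = 2^m z0 has all the properties. -/

set_option autoImplicit false

namespace Pool.Agent.Helper59.BZ

open UpperHalfPlane Complex Filter Topology

theorem tatb_dbl (z : ℂ) (hz : 0 < z.im) : ta z * tb z = tb (2 * z) ^ 2 := by
  have h := jt_mul z hz
  unfold ta tb
  calc jacobiTheta z ^ 4 * jacobiTheta (z + 1) ^ 4 = (jacobiTheta z * jacobiTheta (z + 1)) ^ 4 := by ring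
    _ = (jacobiTheta (2 * z + 1) ^ 4) ^ 2 := by rw [h]; ring

theorem tc_dbl (z : ℂ) (hz : 0 < z.im) : tc z ^ 2 = 16 * ta (2 * z) * tc (2 * z) := by
  have h1 := jt_mul z hz
  have h2 := jt_add z hz
  unfold tc ta tb
  have h3 : (jacobiTheta z ^ 2 - jacobiTheta (z + 1) ^ 2) ^ 2 =
      4 * (jacobiTheta (2 * z) ^ 4 - jacobiTheta (2 * z + 1) ^ 4) := by
    calc (jacobiTheta z ^ 2 - jacobiTheta (z + 1) ^ 2) ^ 2 =
        (jacobiTheta z ^ 2 + jacobiTheta (z + 1) ^ 2) ^ 2 - 4 * (jacobiTheta z * jacobiTheta (z + 1)) ^ 2 := by ring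
      _ = 4 * (jacobiTheta (2 * z) ^ 4 - jacobiTheta (2 * z + 1) ^ 4) := by rw [h1, h2]; ring
  calc (jacobiTheta z ^ 4 - jacobiTheta (z + 1) ^ 4) ^ 2 =
      (jacobiTheta z ^ 2 + jacobiTheta (z + 1) ^ 2) ^ 2 * (jacobiTheta z ^ 2 - jacobiTheta (z + 1) ^ 2) ^ 2 := by ring
    _ = 16 * jacobiTheta (2 * z) ^ 4 * (jacobiTheta (2 * z) ^ 4 - jacobiTheta (2 * z + 1) ^ 4) := by
      rw [h2, h3]; ring

private theorem half_im81 (z : ℂ) (hz : 0 < z.im) : 0 < (z / 2).im := by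
  have h : (z / 2).im = z.im / 2 := by
    have : z / 2 = ((1 / 2 : ℝ) : ℂ) * z := by
      push_cast
      ring
    rw [this, Complex.im_ofReal_mul]
    ring
  rw [h]
  positivity

private theorem half_im81b (z : ℂ) (hz : 0 < z.im) : 0 < ((z + 1) / 2).im := by
  apply half_im81
  simpa using hz

theorem half_ab (z : ℂ) (hz : 0 < z.im) : ta (z / 2) * tb (z / 2) = tb z ^ 2 := by
  rw [tatb_dbl _ (half_im81 z hz), mul_div_cancel₀ z (two_ne_zero)]

theorem half_c (z : ℂ) (hz : 0 < z.im) : tc (z / 2) ^ 2 = 16 * ta z * tc z := by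
  rw [tc_dbl _ (half_im81 z hz), mul_div_cancel₀ z (two_ne_zero)]

theorem half_ab' (z : ℂ) (hz : 0 < z.im) : ta ((z + 1) / 2) * tb ((z + 1) / 2) = ta z ^ 2 := by
  rw [tatb_dbl _ (half_im81b z hz), mul_div_cancel₀ (z + 1) (two_ne_zero), tb_add_one]

theorem half_c' (z : ℂ) (hz : 0 < z.im) : tc ((z + 1) / 2) ^ 2 = -16 * tb z * tc z := by
  rw [tc_dbl _ (half_im81b z hz), mul_div_cancel₀ (z + 1) (two_ne_zero), ta_add_one, tc_add_one]
  ring

private theorem exists_tc81 : ∃ z : ℂ, 0 < z.im ∧ tc z ≠ 0 := by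
  by_contra hcon
  push Not at hcon
  have h1 : ∀ w : ℂ, 0 < w.im → tb w = 0 := by
    intro w hw
    have hw0 : w ≠ 0 := by
      rintro rfl
      simp at hw
    have hzim : 0 < (-1 / w).im := by
      have h2 : (-1 / w).im = w.im / Complex.normSq w := by
        rw [neg_div, one_div, Complex.neg_im, Complex.inv_im]
        ring
      rw [h2]
      exact div_pos hw (Complex.normSq_pos.2 hw0)
    have h3 := tb_inv (-1 / w) hzim
    rw [hcon _ hzim, mul_zero] at h3
    have h4 : -1 / (-1 / w) = w := by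
      field_simp
    rwa [h4] at h3
  have h2 : Tendsto (fun t : ℝ => (t : ℂ) * Complex.I) atTop (comap Complex.im atTop) := by
    rw [tendsto_comap_iff]
    have : (Complex.im ∘ fun t : ℝ => (t : ℂ) * Complex.I) = fun t => t := by
      funext t
      simp
    rw [this]
    exact tendsto_id
  have h3 := tb_lim.comp h2
  have h4 : (tb ∘ fun t : ℝ => (t : ℂ) * Complex.I) =ᶠ[atTop] fun _ => (0 : ℂ) := by
    filter_upwards [eventually_gt_atTop (0 : ℝ)] with t ht
    apply h1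
    simpa using ht
  have h5 := h3.congr' h4
  have h6 := tendsto_nhds_unique h5 tendsto_const_nhds
  exact one_ne_zero h6

theorem tc_seq : ∃ w : ℕ → ℂ, (∀ m, 0 < (w m).im) ∧ (∀ m, tc (w m) ≠ 0) ∧
    Tendsto (fun m => (w m).im) atTop atTop := by
  obtain ⟨z, hz, hc⟩ := exists_tc81
  have him : ∀ m : ℕ, ((2 : ℂ) ^ m * z).im = 2 ^ m * z.im := by
    intro m
    have : ((2 : ℂ) ^ m) = (((2 : ℝ) ^ m : ℝ) : ℂ) := by
      push_cast
      rfl
    rw [this, Complex.im_ofReal_mul]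
  have hpos : ∀ m : ℕ, 0 < ((2 : ℂ) ^ m * z).im := by
    intro m
    rw [him]
    positivity
  refine ⟨fun m => 2 ^ m * z, hpos, ?_, ?_⟩
  · intro m
    induction m with
    | zero => simpa using hc
    | succ m ih =>
      intro h
      have h1 := tc_dbl _ (hpos m)
      have h2 : (2 : ℂ) * (2 ^ m * z) = 2 ^ (m + 1) * z := by ring
      rw [h2] at h1
      have h3 : tc ((2 : ℂ) ^ (m + 1) * z) = 0 := h
      rw [h3, mul_zero] at h1
      exact ih (pow_eq_zero_iff two_ne_zero |>.1 h1)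
  · have : (fun m : ℕ => ((2 : ℂ) ^ m * z).im) = fun m : ℕ => (2 : ℝ) ^ m * z.im := by
      funext m
      exact him m
    rw [this]
    exact Tendsto.atTop_mul_const hz (tendsto_pow_atTop_atTop_of_one_lt (by norm_num))

end Pool.Agent.Helper59.BZ
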