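import Pool.Agent.Helper59.BZ.Mk
import Pool.Agent.Helper59.BZ.ThA
import Pool.Agent.Helper59.BZ.ThB

/-! BZ-TRA. The function fF v is a modular form of level one and weight 4n.

fF v z = H v (c^2/4, a b/64) + H v (b^2/4, a c/64) + H v (a^2/4, -b c/64), a = ta z, b = tb z,
c = tc z. Under z -> z+1: a and b are exchanged, c -> -c: the first term is fixed, the other two
are exchanged. Under z -> -1/z: a -> -z^2 a, b -> -z^2 c, c -> -z^2 b: all the products of two of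
them get the factor z^4, H v is homogeneous of degree n, so the terms get z^(4n); the first two
are exchanged, the third is fixed. Holomorphic (finite sum of products), bounded (a, b -> 1,
c -> 0, so fF v z has a limit at i infinity). Then `mk_form`. -/

set_option autoImplicit false

namespace Pool.Agent.Helper59.BZ

open UpperHalfPlane Complex Filter Topology
open scoped MatrixGroups ModularForm

theorem H_smul {n : ℕ} (v : Fin (n + 1) → ℂ) (t X Y : ℂ) :
    H v (t * X) (t * Y) = t ^ n * H v X Y := by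
  unfold H
  rw [Finset.mul_sum]
  refine Finset.sum_congr rfl fun j _ => ?_
  have hj : (j : ℕ) ≤ n := Nat.lt_succ_iff.1 j.2
  have h : t ^ n = t ^ (n - (j : ℕ)) * t ^ (j : ℕ) := by
    rw [← pow_add, Nat.sub_add_cancel hj]
  rw [mul_pow, mul_pow, h]
  ring

theorem fF_add_one {n : ℕ} (v : Fin (n + 1) → ℂ) (z : ℂ) : fF v (z + 1) = fF v z := by
  unfold fF
  rw [ta_add_one, tb_add_one, tc_add_one]
  have h1 : (-tc z) ^ 2 / 4 = tc z ^ 2 / 4 := by ring
  have h2 : tb z * ta z / 64 = ta z * tb z / 64 := by ring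
  have h3 : tb z * -tc z / 64 = -(tb z * tc z) / 64 := by ring
  have h4 : -(ta z * -tc z) / 64 = ta z * tc z / 64 := by ring
  rw [h1, h2, h3, h4]
  ring

theorem fF_inv {n : ℕ} (v : Fin (n + 1) → ℂ) (z : ℂ) (hz : 0 < z.im) :
    fF v (-1 / z) = z ^ (4 * n) * fF v z := by
  unfold fF
  rw [ta_inv z hz, tb_inv z hz, tc_inv z hz]
  have h1 : (-z ^ 2 * tb z) ^ 2 / 4 = z ^ 4 * (tb z ^ 2 / 4) := by ring
  have h2 : -z ^ 2 * ta z * (-z ^ 2 * tc z) / 64 = z ^ 4 * (ta z * tc z / 64) := by ring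
  have h3 : (-z ^ 2 * tc z) ^ 2 / 4 = z ^ 4 * (tc z ^ 2 / 4) := by ring
  have h4 : -z ^ 2 * ta z * (-z ^ 2 * tb z) / 64 = z ^ 4 * (ta z * tb z / 64) := by ring
  have h5 : (-z ^ 2 * ta z) ^ 2 / 4 = z ^ 4 * (ta z ^ 2 / 4) := by ring
  have h6 : -(-z ^ 2 * tc z * (-z ^ 2 * tb z)) / 64 = z ^ 4 * (-(tb z * tc z) / 64) := by ring
  rw [h1, h2, h3, h4, h5, h6, H_smul, H_smul, H_smul, pow_mul]
  ring

private theorem H_diffAt {n : ℕ} (v : Fin (n + 1) → ℂ) {f g : ℂ → ℂ} {z : ℂ}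
    (hf : DifferentiableAt ℂ f z) (hg : DifferentiableAt ℂ g z) :
    DifferentiableAt ℂ (fun w => H v (f w) (g w)) z := by
  unfold H
  refine DifferentiableAt.fun_sum fun j _ => ?_
  exact ((hf.pow _).const_mul (v j)).mul (hg.pow _)

theorem fF_diff {n : ℕ} (v : Fin (n + 1) → ℂ) (z : ℂ) (hz : 0 < z.im) :
    DifferentiableAt ℂ (fF v) z := by
  have ha := ta_diff z hz
  have hb := tb_diff z hz
  have hc := tc_diff z hz
  unfold fF
  refine ((H_diffAt v ((hc.pow 2).div_const 4) ((ha.mul hb).div_const 64)).add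
    (H_diffAt v ((hb.pow 2).div_const 4) ((ha.mul hc).div_const 64))).add
    (H_diffAt v ((ha.pow 2).div_const 4) ((hb.mul hc).neg.div_const 64))

private theorem H_tendsto {n : ℕ} (v : Fin (n + 1) → ℂ) {f g : ℂ → ℂ} {l : Filter ℂ} {a b : ℂ}
    (hf : Tendsto f l (𝓝 a)) (hg : Tendsto g l (𝓝 b)) :
    Tendsto (fun w => H v (f w) (g w)) l (𝓝 (H v a b)) := by
  unfold H
  refine tendsto_finsetSum _ fun j _ => ?_
  exact ((hf.pow _).const_mul (v j)).mul (hg.pow _)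

theorem fF_bdd {n : ℕ} (v : Fin (n + 1) → ℂ) :
    ∃ A B : ℝ, ∀ z : ℂ, B ≤ z.im → ‖fF v z‖ ≤ A := by
  have ha := ta_lim
  have hb := tb_lim
  have hc := tc_lim
  obtain ⟨L, hL⟩ : ∃ L : ℂ, Tendsto (fF v) (comap Complex.im atTop) (𝓝 L) :=
    ⟨_, ((H_tendsto v ((hc.pow 2).div_const 4) ((ha.mul hb).div_const 64)).add
      (H_tendsto v ((hb.pow 2).div_const 4) ((ha.mul hc).div_const 64))).add
      (H_tendsto v ((ha.pow 2).div_const 4) ((hb.mul hc).neg.div_const 64))⟩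
  have h1 : ∀ᶠ z in comap Complex.im atTop, ‖fF v z‖ < ‖L‖ + 1 :=
    hL.norm.eventually (gt_mem_nhds (by linarith))
  obtain ⟨t, ht, hts⟩ := mem_comap.1 h1
  obtain ⟨B, hB⟩ := mem_atTop_sets.1 ht
  exact ⟨‖L‖ + 1, B, fun z hz => (hts (hB z.im hz)).le⟩

theorem fF_form {n : ℕ} (v : Fin (n + 1) → ℂ) :
    ∃ f : M (4 * n), ∀ z : ℂ, 0 < z.im → ex f z = fF v z := by
  obtain ⟨f, hf⟩ := mk_form (4 * n) (fF v) (fun z _ => fF_add_one v z) (fF_inv v) (fF_diff v)
    (fF_bdd v)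
  refine ⟨f, fun z hz => ?_⟩
  have h := ex_coe f ⟨z, hz⟩
  rw [hf ⟨z, hz⟩] at h
  exact h

end Pool.Agent.Helper59.BZ
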