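import Pool.Agent.Helper59.BZ.Pol
import Pool.Agent.Helper59.BZ.ThD

/-! BZ-TRB. If U v = lam v then fF v is an eigenfunction of the Hecke operator T_2 with
eigenvalue lam + 2^(4n-1)/lam.

(1) `H_rel`: for all complex a, b
 H v (b^2/4, a(a-b)/64) + H v (a^2/4, -b(a-b)/64) = 2 lam/4^n * H v (a b, (a-b)^2/256).
PROOF. Multiply `pol_id` by v_j and sum over j: (1/2)(H v (b^2, a(a-b)/16) +
H v (a^2, -b(a-b)/16)) = sum_i (sum_j U_ij v_j) (ab)^(n-i) ((a-b)^2/256)^i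
= lam H v (ab, (a-b)^2/256); then homogeneity with t = 1/4.

(2) With a = ta z, b = tb z, c = tc z = a - b, W = H v (c^2/4, ab/64), g = H v (ab, c^2/256),
B1 = H v (b^2/4, ac/64), B2 = H v (a^2/4, -bc/64) (so fF v z = W + B1 + B2):
 (R1) B1 + B2 = 2 lam/4^n * g (H_rel at (a, b)),
 (R2) W + B2 = 2 lam/4^n * H v (a c, b^2/256) (H_rel at (a, c), a - c = b),
 (R3) W + B1 = 2 lam/4^n * H v (-b c, a^2/256) (H_rel at (b, -c), b + c = a).
So fF v z = W + 2 lam/4^n g.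

(3) `fF_half`: fF v (z/2) + fF v ((z+1)/2). With the `half` formulas of ThD: at z/2: ab -> b^2,
c^2 -> 16 a c: W -> H v (4ac, b^2/64) = 4^n H v (ac, b^2/256), g -> H v (b^2, ac/16) = 4^n B1; at
(z+1)/2: ab -> a^2, c^2 -> -16 b c: W -> 4^n H v (-bc, a^2/256), g -> 4^n B2. Hence
the sum is 4^n (4^n/(2 lam)) (2 W + B1 + B2) + 2 lam/4^n * 4^n (B1 + B2)
= 4^(2n)/lam * W + 4^n g + 4 lam^2/4^n g.

(4) `fF_dbl`: fF v (2z) : with A = ta(2z), B = tb(2z), C = tc(2z): ab = B^2, c^2 = 16 A C, so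
H v (B^2/4, AC/64) = g/4^n, and by (R2) at 2z the other two terms are
2 lam/4^n * H v (A C, B^2/256) = 2 lam/4^n * H v (c^2/16, ab/256) = 2 lam/4^n * W/4^n.
So fF v (2z) = (g + 2 lam/4^n W)/4^n. -/

set_option autoImplicit false

namespace Pool.Agent.Helper59.BZ

open UpperHalfPlane Complex Filter Topology
open scoped MatrixGroups ModularForm

private theorem H_hom82 {n : ℕ} (v : Fin (n + 1) → ℂ) (t X Y : ℂ) :
    H v (t * X) (t * Y) = t ^ n * H v X Y := by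
  unfold H
  rw [Finset.mul_sum]
  refine Finset.sum_congr rfl fun j _ => ?_
  have hj : (j : ℕ) ≤ n := Nat.lt_succ_iff.mp j.2
  have h : t ^ n = t ^ (n - (j : ℕ)) * t ^ (j : ℕ) := by
    rw [← pow_add, Nat.sub_add_cancel hj]
  rw [h, mul_pow, mul_pow]
  ring

private theorem H_quarter82 {n : ℕ} (v : Fin (n + 1) → ℂ) (X Y X' Y' : ℂ) (hX : X' = X / 4)
    (hY : Y' = Y / 4) : H v X' Y' = H v X Y / 4 ^ n := by
  have h := H_hom82 v (1 / 4) X Y
  rw [hX, hY]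
  have e1 : X / 4 = 1 / 4 * X := by ring
  have e2 : Y / 4 = 1 / 4 * Y := by ring
  rw [e1, e2, h, one_div, inv_pow]
  ring

private theorem H_four82 {n : ℕ} (v : Fin (n + 1) → ℂ) (X Y X' Y' : ℂ) (hX : X' = 4 * X)
    (hY : Y' = 4 * Y) : H v X' Y' = 4 ^ n * H v X Y := by
  rw [hX, hY, H_hom82]

theorem H_rel (n : ℕ) (v : Fin (n + 1) → ℂ) (lam : ℂ)
    (hU : ∀ i, ∑ j, ((U n i j : ℚ) : ℂ) * v j = lam * v i) (a b : ℂ) :
    H v (b ^ 2 / 4) (a * (a - b) / 64) + H v (a ^ 2 / 4) (-(b * (a - b)) / 64) =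
      2 * lam / 4 ^ n * H v (a * b) ((a - b) ^ 2 / 256) := by
  have key : H v (b ^ 2) (a * (a - b) / 16) + H v (a ^ 2) (-(b * (a - b)) / 16) =
      2 * lam * H v (a * b) ((a - b) ^ 2 / 256) := by
    have h1 : ∀ j : Fin (n + 1), v j * ((b ^ 2) ^ (n - (j : ℕ)) * (a * (a - b) / 16) ^ (j : ℕ) +
        (a ^ 2) ^ (n - (j : ℕ)) * (-(b * (a - b)) / 16) ^ (j : ℕ)) =
        2 * ∑ i : Fin (n + 1), (((U n i j : ℚ) : ℂ) * v j) * ((a * b) ^ (n - (i : ℕ)) *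
          ((a - b) ^ 2 / 256) ^ (i : ℕ)) := by
      intro j
      have h2 := pol_id n j a b
      have h3 : (b ^ 2) ^ (n - (j : ℕ)) * (a * (a - b) / 16) ^ (j : ℕ) +
          (a ^ 2) ^ (n - (j : ℕ)) * (-(b * (a - b)) / 16) ^ (j : ℕ) =
          2 * ∑ i : Fin (n + 1), ((U n i j : ℚ) : ℂ) * (a * b) ^ (n - (i : ℕ)) *
            ((a - b) ^ 2 / 256) ^ (i : ℕ) := by
        rw [← h2]
        ring
      rw [h3, mul_left_comm, Finset.mul_sum]
      congr 1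
      refine Finset.sum_congr rfl fun i _ => ?_
      ring
    have h4 : H v (b ^ 2) (a * (a - b) / 16) + H v (a ^ 2) (-(b * (a - b)) / 16) =
        ∑ j : Fin (n + 1), v j * ((b ^ 2) ^ (n - (j : ℕ)) * (a * (a - b) / 16) ^ (j : ℕ) +
        (a ^ 2) ^ (n - (j : ℕ)) * (-(b * (a - b)) / 16) ^ (j : ℕ)) := by
      unfold H
      rw [← Finset.sum_add_distrib]
      refine Finset.sum_congr rfl fun j _ => ?_
      ring
    rw [h4, Finset.sum_congr rfl fun j _ => h1 j, ← Finset.mul_sum, Finset.sum_comm]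
    have h5 : ∀ i : Fin (n + 1), ∑ j : Fin (n + 1), (((U n i j : ℚ) : ℂ) * v j) *
        ((a * b) ^ (n - (i : ℕ)) * ((a - b) ^ 2 / 256) ^ (i : ℕ)) =
        lam * (v i * (a * b) ^ (n - (i : ℕ)) * ((a - b) ^ 2 / 256) ^ (i : ℕ)) := by
      intro i
      rw [← Finset.sum_mul, hU i]
      ring
    rw [Finset.sum_congr rfl fun i _ => h5 i, ← Finset.mul_sum]
    unfold H
    ring
  rw [H_quarter82 v (b ^ 2) (a * (a - b) / 16) (b ^ 2 / 4) (a * (a - b) / 64) rfl (by ring),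
    H_quarter82 v (a ^ 2) (-(b * (a - b)) / 16) (a ^ 2 / 4) (-(b * (a - b)) / 64) rfl (by ring),
    ← add_div, key]
  ring

theorem fF_eq (n : ℕ) (v : Fin (n + 1) → ℂ) (lam : ℂ)
    (hU : ∀ i, ∑ j, ((U n i j : ℚ) : ℂ) * v j = lam * v i) (z : ℂ) :
    fF v z = H v (tc z ^ 2 / 4) (ta z * tb z / 64) +
      2 * lam / 4 ^ n * H v (ta z * tb z) (tc z ^ 2 / 256) := by
  have h := H_rel n v lam hU (ta z) (tb z)
  have hc : ta z - tb z = tc z := rfl
  rw [hc] at h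
  unfold fF
  rw [add_assoc, h]

private theorem R2_82 (n : ℕ) (v : Fin (n + 1) → ℂ) (lam : ℂ)
    (hU : ∀ i, ∑ j, ((U n i j : ℚ) : ℂ) * v j = lam * v i) (a b c : ℂ) (hc : a - b = c) :
    H v (c ^ 2 / 4) (a * b / 64) + H v (a ^ 2 / 4) (-(b * c) / 64) =
      2 * lam / 4 ^ n * H v (a * c) (b ^ 2 / 256) := by
  have h := H_rel n v lam hU a c
  have h1 : a - c = b := by rw [← hc]; ring
  rw [h1, mul_comm c b] at h
  exact h

private theorem R3_82 (n : ℕ) (v : Fin (n + 1) → ℂ) (lam : ℂ)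
    (hU : ∀ i, ∑ j, ((U n i j : ℚ) : ℂ) * v j = lam * v i) (a b c : ℂ) (hc : a - b = c) :
    H v (c ^ 2 / 4) (a * b / 64) + H v (b ^ 2 / 4) (a * c / 64) =
      2 * lam / 4 ^ n * H v (-(b * c)) (a ^ 2 / 256) := by
  have h := H_rel n v lam hU b (-c)
  have h1 : b - -c = a := by rw [← hc]; ring
  have h2 : (-c) ^ 2 = c ^ 2 := by ring
  have h3 : b * a / 64 = a * b / 64 := by ring
  have h4 : -(-c * a) / 64 = a * c / 64 := by ring
  have h5 : b * -c = -(b * c) := by ring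
  rw [h1, h2, h3, h4, h5] at h
  exact h

theorem fF_half (n : ℕ) (v : Fin (n + 1) → ℂ) (lam : ℂ) (hlam : lam ≠ 0)
    (hU : ∀ i, ∑ j, ((U n i j : ℚ) : ℂ) * v j = lam * v i) (z : ℂ) (hz : 0 < z.im) :
    fF v (z / 2) + fF v ((z + 1) / 2) =
      (4 ^ n) ^ 2 / lam * H v (tc z ^ 2 / 4) (ta z * tb z / 64) +
      (4 ^ n + 4 * lam ^ 2 / 4 ^ n) * H v (ta z * tb z) (tc z ^ 2 / 256) := by
  have hc : ta z - tb z = tc z := rfl
  have hR1 := H_rel n v lam hU (ta z) (tb z)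
  rw [hc] at hR1
  have hR2 := R2_82 n v lam hU (ta z) (tb z) (tc z) hc
  have hR3 := R3_82 n v lam hU (ta z) (tb z) (tc z) hc
  have e1 := fF_eq n v lam hU (z / 2)
  have e2 := fF_eq n v lam hU ((z + 1) / 2)
  rw [half_ab z hz, half_c z hz] at e1
  rw [half_ab' z hz, half_c' z hz] at e2
  have f1 : H v (16 * ta z * tc z / 4) (tb z ^ 2 / 64) =
      4 ^ n * H v (ta z * tc z) (tb z ^ 2 / 256) :=
    H_four82 v _ _ _ _ (by ring) (by ring)
  have f2 : H v (tb z ^ 2) (16 * ta z * tc z / 256) =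
      4 ^ n * H v (tb z ^ 2 / 4) (ta z * tc z / 64) :=
    H_four82 v _ _ _ _ (by ring) (by ring)
  have f3 : H v (-16 * tb z * tc z / 4) (ta z ^ 2 / 64) =
      4 ^ n * H v (-(tb z * tc z)) (ta z ^ 2 / 256) :=
    H_four82 v _ _ _ _ (by ring) (by ring)
  have f4 : H v (ta z ^ 2) (-16 * tb z * tc z / 256) =
      4 ^ n * H v (ta z ^ 2 / 4) (-(tb z * tc z) / 64) :=
    H_four82 v _ _ _ _ (by ring) (by ring)
  rw [f1, f2] at e1
  rw [f3, f4] at e2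
  rw [e1, e2]
  have h4 : (4 : ℂ) ^ n ≠ 0 := pow_ne_zero _ (by norm_num)
  generalize H v (tc z ^ 2 / 4) (ta z * tb z / 64) = W at *
  generalize H v (tb z ^ 2 / 4) (ta z * tc z / 64) = B1 at *
  generalize H v (ta z ^ 2 / 4) (-(tb z * tc z) / 64) = B2 at *
  generalize H v (ta z * tb z) (tc z ^ 2 / 256) = g at *
  generalize H v (ta z * tc z) (tb z ^ 2 / 256) = X2 at *
  generalize H v (-(tb z * tc z)) (ta z ^ 2 / 256) = X3 at *
  generalize (4 : ℂ) ^ n = q at *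
  have g2 : X2 = q / (2 * lam) * (W + B2) := by
    rw [hR2]
    field_simp
  have g3 : X3 = q / (2 * lam) * (W + B1) := by
    rw [hR3]
    field_simp
  have g1 : B1 = 2 * lam / q * g - B2 := by
    rw [← hR1]
    ring
  rw [g2, g3, g1]
  field_simp
  ring

theorem fF_dbl (n : ℕ) (v : Fin (n + 1) → ℂ) (lam : ℂ)
    (hU : ∀ i, ∑ j, ((U n i j : ℚ) : ℂ) * v j = lam * v i) (z : ℂ) (hz : 0 < z.im) :
    fF v (2 * z) = (H v (ta z * tb z) (tc z ^ 2 / 256) +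
      2 * lam / 4 ^ n * H v (tc z ^ 2 / 4) (ta z * tb z / 64)) / 4 ^ n := by
  have hc : ta (2 * z) - tb (2 * z) = tc (2 * z) := rfl
  have hR2 := R2_82 n v lam hU (ta (2 * z)) (tb (2 * z)) (tc (2 * z)) hc
  have hab := tatb_dbl z hz
  have hcc := tc_dbl z hz
  have f1 : H v (tb (2 * z) ^ 2 / 4) (ta (2 * z) * tc (2 * z) / 64) =
      H v (ta z * tb z) (tc z ^ 2 / 256) / 4 ^ n :=
    H_quarter82 v _ _ _ _ (by rw [hab]) (by rw [hcc]; ring)
  have f2 : H v (ta (2 * z) * tc (2 * z)) (tb (2 * z) ^ 2 / 256) =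
      H v (tc z ^ 2 / 4) (ta z * tb z / 64) / 4 ^ n :=
    H_quarter82 v _ _ _ _ (by rw [hcc]; ring) (by rw [hab]; ring)
  unfold fF
  rw [f1]
  rw [f2] at hR2
  have h5 : ∀ x y w : ℂ, x + y + w = y + (x + w) := fun x y w => by ring
  rw [h5, hR2]
  ring

end Pool.Agent.Helper59.BZ
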